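import Pool.Agent.TCM.Basic

set_option autoImplicit false

/-!
# Total colouring of multigraphs with a constant additive error: the colours which are not good
-/

namespace Pool.Agent.TCM

open Finset Classical TC19

namespace BAD

variable {V E Q : Type} {s t : E → V} {φ : E → Q} {c : V → Q}

/-- a conflict edge `f` at `v` has `cu f = v` or `cv f = v` -/
theorem cu_or_cv (hst : ∀ e, s e ≠ t e) {f : E} {v : V} (h : Inc s t f v) :
    cu s t φ c f = v ∨ cv s t φ c f = v := by
  rcases (inc_iff (inc_cu (φ := φ) (c := c) f) v).mp h with h1 | h1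
  · exact Or.inl h1.symm
  · rw [oth_cu hst] at h1
    exact Or.inr h1.symm

/-- a conflict edge has the colour of one of the ends `x`, `oth h x` -/
theorem cf_ends {h : E} {x : V} (hx : Inc s t h x) (hc : Cf s t φ c h) :
    c x = φ h ∨ c (oth s t h x) = φ h := by
  rcases hx with rfl | rfl
  · rcases hc with h1 | h1
    · exact Or.inl h1.symm
    · rw [oth_s]
      exact Or.inr h1.symm
  · by_cases hst : s h = t h
    · rcases hc with h1 | h1
      · rw [← hst]
        exact Or.inl h1.symm
      · exact Or.inl h1.symm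
    · have h2 : oth s t h (t h) = s h := by simp [oth, hst]
      rw [h2]
      rcases hc with h1 | h1
      · exact Or.inr h1.symm
      · exact Or.inl h1.symm

variable [Fintype V] [Fintype E] [Fintype Q]

theorem sub (hM : MG s t φ) {e : E} (he : Cf s t φ c e) :
    (univ.filter fun b => ¬ Good s t φ c e b) ⊆
      ((({φ e} : Finset Q) ∪ {c (cv s t φ c e)}) ∪
        ((univ.filter fun f => Cf s t φ c f ∧ cv s t φ c f = cu s t φ c e).image φ ∪
          (univ.filter fun f => Cf s t φ c f ∧ cv s t φ c f = cv s t φ c e).image φ)) ∪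
        ((univ.filter fun g => Inc s t g (cv s t φ c e) ∧
            c (oth s t g (cv s t φ c e)) = φ e).image φ ∪
          (univ.filter fun p : E × E => Inc s t p.1 (cv s t φ c e) ∧
            Inc s t p.2 (oth s t p.1 (cv s t φ c e)) ∧ φ p.2 = φ e ∧
            c (oth s t p.2 (oth s t p.1 (cv s t φ c e))) = φ e).image fun p => φ p.1) := by
  intro b hb
  by_contra hcon
  simp only [Finset.mem_union, not_or, Finset.mem_singleton, Finset.mem_image,
    Finset.mem_filter, Finset.mem_univ, true_and, not_exists] at hcon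
  obtain ⟨⟨⟨n1, n2⟩, n3, n4⟩, n5, n6⟩ := hcon
  rw [Finset.mem_filter] at hb
  refine hb.2 ⟨n1, n2, ?_, ?_, ?_, ?_⟩
  · intro f hf hfb hcf
    rcases cu_or_cv (φ := φ) (c := c) hM.lp hf with h1 | h1
    · have h2 : f = e := cu_inj hM.pr hcf he h1
      subst h2
      exact n1 hfb.symm
    · exact n3 f ⟨⟨hcf, h1⟩, hfb⟩
  · intro g hg hgb hcg
    rcases cu_or_cv (φ := φ) (c := c) hM.lp hg with h1 | h1
    · refine n2 ?_
      rw [← hgb, ← h1]
      exact (c_cu hcg).symm
    · exact n4 g ⟨⟨hcg, h1⟩, hgb⟩
  · intro g hg hgb hx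
    exact n5 g ⟨⟨hg, hx⟩, hgb⟩
  · intro g h hg hgb hh hhe hch
    rcases cf_ends hh hch with h1 | h1
    · exact n5 g ⟨⟨hg, h1.trans hhe⟩, hgb⟩
    · exact n6 (g, h) ⟨⟨hg, hh, hhe, h1.trans hhe⟩, hgb⟩

end BAD

theorem BAD_thm : S_BAD := by
  intro V E Q _ _ _ s t φ hM c _ e he
  refine (Finset.card_le_card (BAD.sub hM he)).trans ?_
  refine (Finset.card_union_le _ _).trans ?_
  have h1 : ((({φ e} : Finset Q) ∪ {c (cv s t φ c e)}) ∪
        ((univ.filter fun f => Cf s t φ c f ∧ cv s t φ c f = cu s t φ c e).image φ ∪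
          (univ.filter fun f => Cf s t φ c f ∧ cv s t φ c f = cv s t φ c e).image φ)).card ≤
      2 + (R s t φ c (cu s t φ c e) + R s t φ c (cv s t φ c e)) := by
    refine (Finset.card_union_le _ _).trans (Nat.add_le_add ?_ ?_)
    · exact (Finset.card_union_le _ _).trans (by simp)
    · exact (Finset.card_union_le _ _).trans
        (Nat.add_le_add Finset.card_image_le Finset.card_image_le)
  have h2 : ((univ.filter fun g => Inc s t g (cv s t φ c e) ∧
            c (oth s t g (cv s t φ c e)) = φ e).image φ ∪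
          (univ.filter fun p : E × E => Inc s t p.1 (cv s t φ c e) ∧
            Inc s t p.2 (oth s t p.1 (cv s t φ c e)) ∧ φ p.2 = φ e ∧
            c (oth s t p.2 (oth s t p.1 (cv s t φ c e))) = φ e).image fun p => φ p.1).card ≤
      Em s t φ c (cv s t φ c e) (φ e) :=
    (Finset.card_union_le _ _).trans
      (Nat.add_le_add Finset.card_image_le Finset.card_image_le)
  omega

end Pool.Agent.TCM
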