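import Pool.Agent.TCM.Basic

set_option autoImplicit false

/-!
# Compatible moves can be made at the same time
-/

namespace Pool.Agent.TCM

open Finset Classical TC19

namespace CMP

variable {V Q O : Type} [Fintype V]

/-- the part of the gain of a vertex which keeps its colour -/
noncomputable def stay (mv : V → O → V → Option Q) (c : V → Q) (ω : V → Q → ℝ) (u : V) :
    Option O → ℝ
  | none => ω u (c u)
  | some o => if mv u o u = none then ω u (c u) else 0

/-- the part of the gain of `u` at the vertex `x` -/
noncomputable def touch (mv : V → O → V → Option Q) (ω : V → Q → ℝ) (u x : V) :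
    Option O → ℝ
  | none => 0
  | some o => if mv u o u = none then 0 else (mv u o x).elim 0 (ω x)

theorem gain_eq (mv : V → O → V → Option Q) (c : V → Q) (ω : V → Q → ℝ) (u : V)
    (s : Option O) : gain mv c ω u s = stay mv c ω u s + ∑ x, touch mv ω u x s := by
  rcases s with _ | o
  · simp [gain, stay, touch]
  · simp only [gain, stay, touch]
    split_ifs with h <;> simp

theorem stay_nonneg (mv : V → O → V → Option Q) (c : V → Q) {ω : V → Q → ℝ}
    (h : ∀ x β, 0 ≤ ω x β) (u : V) (s : Option O) : 0 ≤ stay mv c ω u s := by
  rcases s with _ | o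
  · exact h _ _
  · simp only [stay]
    split_ifs
    · exact h _ _
    · exact le_rfl

theorem touch_nonneg (mv : V → O → V → Option Q) {ω : V → Q → ℝ}
    (h : ∀ x β, 0 ≤ ω x β) (u x : V) (s : Option O) : 0 ≤ touch mv ω u x s := by
  rcases s with _ | o
  · exact le_rfl
  · simp only [touch]
    split_ifs
    · exact le_rfl
    · rcases mv u o x with _ | β
      · exact le_rfl
      · exact h _ _

end CMP

theorem CMP_thm : S_CMP := by
  intro V Q O _ _ _ G c mv hM hc σ hσ
  -- uniqueness of the move at a vertex
  have huniq : ∀ x u u' o o', σ u = some o → σ u' = some o' → mv u o x ≠ none →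
      mv u' o' x ≠ none → u = u' ∧ o = o' := by
    intro x u u' o o' h1 h2 h3 h4
    by_cases hu : u = u'
    · subst hu
      rw [h1] at h2
      exact ⟨rfl, Option.some.inj h2⟩
    · exact absurd (Or.inl ⟨x, h3, h4⟩) (hσ u u' o o' hu h1 h2)
  have hr : ∀ x, ∃ r : Option Q, (∀ u o, σ u = some o → mv u o x ≠ none → r = mv u o x) ∧
      (r ≠ none → ∃ u o, σ u = some o ∧ mv u o x = r) := by
    intro x
    by_cases h : ∃ u o, σ u = some o ∧ mv u o x ≠ none
    · obtain ⟨u, o, h1, h2⟩ := h
      refine ⟨mv u o x, fun u' o' h3 h4 => ?_, fun _ => ⟨u, o, h1, rfl⟩⟩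
      obtain ⟨rfl, rfl⟩ := huniq x u u' o o' h1 h3 h2 h4
      rfl
    · exact ⟨none, fun u o h1 h2 => absurd ⟨u, o, h1, h2⟩ h, fun h => absurd rfl h⟩
  choose r hr1 hr2 using hr
  refine ⟨recol c r, ?_, ?_⟩
  · -- proper
    have key : ∀ x y, G.Adj x y → ∀ u o β, σ u = some o → mv u o x = some β → r x = some β →
        recol c r x ≠ recol c r y := by
      intro x y hxy u o β h1 h2 h3
      have hx : recol c r x = β := by simp [recol, h3]
      rw [hx]
      have hp := hM.prp u o x y hxy
      have hx' : recol c (mv u o) x = β := by simp [recol, h2]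
      rw [hx'] at hp
      by_cases hy : r y = none
      · have hy2 : mv u o y = none := by
          by_contra hne
          exact hne ((hr1 y u o h1 hne).symm.trans hy)
        have e1 : recol c r y = c y := by simp [recol, hy]
        have e2 : recol c (mv u o) y = c y := by simp [recol, hy2]
        rw [e1]
        rwa [e2] at hp
      · obtain ⟨u', o', h4, h5⟩ := hr2 y hy
        obtain ⟨γ, hγ⟩ := Option.ne_none_iff_exists'.mp hy
        have e1 : recol c r y = γ := by simp [recol, hγ]
        rw [e1]
        rw [hγ] at h5
        by_cases hu : u = u'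
        · subst hu
          rw [h1] at h4
          obtain rfl := Option.some.inj h4
          have e2 : recol c (mv u o) y = γ := by simp [recol, h5]
          rwa [e2] at hp
        · intro hβ
          subst hβ
          exact hσ u u' o o' hu h1 h4 (Or.inr ⟨x, y, β, hxy, h2, h5⟩)
    intro x y hxy
    by_cases hx : r x = none
    · by_cases hy : r y = none
      · have e1 : recol c r x = c x := by simp [recol, hx]
        have e2 : recol c r y = c y := by simp [recol, hy]
        rw [e1, e2]
        exact hc x y hxy
      · obtain ⟨u, o, h1, h2⟩ := hr2 y hy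
        obtain ⟨β, hβ⟩ := Option.ne_none_iff_exists'.mp hy
        rw [hβ] at h2
        exact (key y x hxy.symm u o β h1 h2 hβ).symm
    · obtain ⟨u, o, h1, h2⟩ := hr2 x hx
      obtain ⟨β, hβ⟩ := Option.ne_none_iff_exists'.mp hx
      rw [hβ] at h2
      exact key x y hxy u o β h1 h2 hβ
  · intro ω hω
    have h1 : ∑ u, gain mv c ω u (σ u) =
        ∑ x, (CMP.stay mv c ω x (σ x) + ∑ u, CMP.touch mv ω u x (σ u)) := by
      simp only [CMP.gain_eq]
      rw [Finset.sum_add_distrib, Finset.sum_add_distrib, Finset.sum_comm]
    rw [h1]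
    refine Finset.sum_le_sum fun x _ => ?_
    have h0 : ∀ u, 0 ≤ CMP.touch mv ω u x (σ u) := fun u => CMP.touch_nonneg mv hω u x (σ u)
    by_cases hx : r x = none
    · have e1 : recol c r x = c x := by simp [recol, hx]
      rw [e1]
      have h2 : CMP.stay mv c ω x (σ x) = ω x (c x) := by
        rcases hs : σ x with _ | o
        · rfl
        · have h3 : mv x o x = none := by
            by_contra hne
            exact hne ((hr1 x x o hs hne).symm.trans hx)
          simp [CMP.stay, h3]
      rw [h2]
      have h3 : 0 ≤ ∑ u, CMP.touch mv ω u x (σ u) := Finset.sum_nonneg fun u _ => h0 u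
      linarith
    · obtain ⟨u, o, h2, h3⟩ := hr2 x hx
      obtain ⟨β, hβ⟩ := Option.ne_none_iff_exists'.mp hx
      have e1 : recol c r x = β := by simp [recol, hβ]
      rw [hβ] at h3
      have h4 : CMP.touch mv ω u x (σ u) = ω x β := by
        have h5 : mv u o u ≠ none := hM.act u o x (by rw [h3]; simp)
        rw [h2]
        simp only [CMP.touch]
        rw [if_neg h5, h3]
        rfl
      rw [e1]
      have h5 : CMP.touch mv ω u x (σ u) ≤ ∑ u, CMP.touch mv ω u x (σ u) :=
        Finset.single_le_sum (fun u _ => h0 u) (Finset.mem_univ u)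
      have h6 := CMP.stay_nonneg mv c hω x (σ x)
      linarith

end Pool.Agent.TCM
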