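import Pool.Agent.TCM.Basic

set_option autoImplicit false

/-!
# Total colouring of multigraphs: the number of moves not compatible with a given move
-/

namespace Pool.Agent.TCM

open Finset Classical TC19

theorem CNT_thm : S_CNT := by
  intro V Q O _ _ _ G c mv hmv hNb p
  have hT := hmv.two p.1 p.2
  have hsub : (univ.filter fun p' => Incomp G mv p p') ⊆
      ((univ.filter fun x => mv p.1 p.2 x ≠ none).biUnion fun x =>
        (univ : Finset Q).biUnion fun β => univ.filter fun p' : V × O =>
          mv p'.1 p'.2 x = some β) ∪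
      ((univ.filter fun x => mv p.1 p.2 x ≠ none).biUnion fun x =>
        (Nb G x).biUnion fun y => univ.filter fun p' : V × O =>
          mv p'.1 p'.2 y = mv p.1 p.2 x) := by
    intro p' hp'
    rcases (Finset.mem_filter.mp hp').2 with ⟨x, h1, h2⟩ | ⟨x, y, β, h1, h2, h3⟩
    · obtain ⟨β, hβ⟩ := Option.ne_none_iff_exists'.mp h2
      refine Finset.mem_union_left _ (Finset.mem_biUnion.mpr ⟨x, by simp [h1], ?_⟩)
      exact Finset.mem_biUnion.mpr ⟨β, Finset.mem_univ _, by simp [hβ]⟩
    · refine Finset.mem_union_right _ (Finset.mem_biUnion.mpr ⟨x, by simp [h2], ?_⟩)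
      exact Finset.mem_biUnion.mpr ⟨y, mem_Nb'.mpr h1, by simp [h2, h3]⟩
  have h1 : ((univ.filter fun x => mv p.1 p.2 x ≠ none).biUnion fun x =>
        (univ : Finset Q).biUnion fun β => univ.filter fun p' : V × O =>
          mv p'.1 p'.2 x = some β).card ≤ 2 * (Fintype.card Q * 4) := by
    refine (Finset.card_biUnion_le_card_mul _ _ (Fintype.card Q * 4) fun x _ => ?_).trans
      (Nat.mul_le_mul_right _ hT)
    exact Finset.card_biUnion_le_card_mul _ _ 4 fun β _ => hmv.cnt x β
  have h2 : ((univ.filter fun x => mv p.1 p.2 x ≠ none).biUnion fun x =>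
        (Nb G x).biUnion fun y => univ.filter fun p' : V × O =>
          mv p'.1 p'.2 y = mv p.1 p.2 x).card ≤ 2 * (Fintype.card Q * 4) := by
    refine (Finset.card_biUnion_le_card_mul _ _ (Fintype.card Q * 4) fun x hx => ?_).trans
      (Nat.mul_le_mul_right _ hT)
    obtain ⟨β, hβ⟩ := Option.ne_none_iff_exists'.mp (Finset.mem_filter.mp hx).2
    refine (Finset.card_biUnion_le_card_mul _ _ 4 fun y _ => ?_).trans
      (Nat.mul_le_mul_right _ (hNb x).le)
    rw [hβ]
    exact hmv.cnt y β
  have h3 := (Finset.card_le_card hsub).trans (Finset.card_union_le _ _)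
  omega

end Pool.Agent.TCM
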