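import Pool.Agent.TCM.Basic

set_option autoImplicit false

/-!
# DGR: the degrees of the uncoloured edges
-/

namespace Pool.Agent.TCM

open Finset Classical TC19

namespace DGR

/-- counting through a relation which is functional in its second argument -/
theorem card_le_of_rel {A B : Type} [Fintype A] [Fintype B] (P : A → Prop) (T : B → Prop)
    [DecidablePred P] [DecidablePred T]
    (Rl : A → B → Prop) (h1 : ∀ a, P a → ∃ b, T b ∧ Rl a b)
    (h2 : ∀ b a a', Rl a b → Rl a' b → a = a') :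
    (univ.filter P).card ≤ (univ.filter T).card := by
  refine Finset.card_le_card_of_forall_subsingleton Rl ?_ ?_
  · intro a ha
    have ha' : P a := by simpa using ha
    obtain ⟨b, hb, hr⟩ := h1 a ha'
    exact ⟨b, by simpa using hb, hr⟩
  · intro b _ a ha a' ha'
    exact h2 b a a' ha.2 ha'.2

variable {V E Q : Type} {s t : E → V} {φ : E → Q} {c : V → Q}

/-- the edge `h` at `z` comes from the hit of the first kind by `e` -/
def R1 (s t : E → V) (φ : E → Q) (c : V → Q) (β : E → Q) (z : V) (h e : E) : Prop :=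
  Inc s t h z ∧ ((Inc s t h (cu s t φ c e) ∧ φ h = β e ∧ z ≠ cu s t φ c e) ∨
    ∃ g, Inc s t g (cv s t φ c e) ∧ φ g = β e ∧ z = oth s t g (cv s t φ c e) ∧ φ h = φ e)

/-- the edge `h` at `z` comes from the hit of the second kind by `e` -/
def R2 (s t : E → V) (φ : E → Q) (c : V → Q) (β : E → Q) (h e : E) : Prop :=
  ∃ g, Inc s t g (cv s t φ c e) ∧ φ g = β e ∧ Inc s t h (oth s t g (cv s t φ c e)) ∧ φ h = φ e

theorem R1_fun (hst : ∀ e, s e ≠ t e) (hp : Proper s t Set.univ φ) (β : E → Q) (z : V) (e : E)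
    (h h' : E) (a : R1 s t φ c β z h e) (a' : R1 s t φ c β z h' e) : h = h' := by
  have key : ∀ k k' : E, Inc s t k z → (Inc s t k (cu s t φ c e) ∧ φ k = β e ∧
      z ≠ cu s t φ c e) → (∃ g, Inc s t g (cv s t φ c e) ∧ φ g = β e ∧
      z = oth s t g (cv s t φ c e) ∧ φ k' = φ e) → False := by
    rintro k k' hk ⟨k1, k2, k3⟩ ⟨g, g1, g2, g3, -⟩
    have hgz : Inc s t g z := g3 ▸ inc_oth g _
    have hkg : k = g := eq_of_proper hp hk hgz (k2.trans g2.symm)
    subst hkg
    have h1 : cu s t φ c e = oth s t k z := oth_of_inc hk k1 (Ne.symm k3)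
    have h2 : cv s t φ c e ≠ z := by
      rw [g3]
      exact (oth_ne hst g1).symm
    have h3 : cv s t φ c e = oth s t k z := oth_of_inc hk g1 h2
    exact cu_ne_cv hst e (h1.trans h3.symm)
  obtain ⟨hz, h1⟩ := a
  obtain ⟨hz', h1'⟩ := a'
  rcases h1 with h1 | h1
  · rcases h1' with h1' | h1'
    · exact eq_of_proper hp h1.1 h1'.1 (h1.2.1.trans h1'.2.1.symm)
    · exact (key h h' hz h1 h1').elim
  · rcases h1' with h1' | h1'
    · exact (key h' h hz' h1' h1).elim
    · obtain ⟨g, -, -, -, g4⟩ := h1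
      obtain ⟨g', -, -, -, g4'⟩ := h1'
      exact eq_of_proper hp hz hz' (g4.trans g4'.symm)

theorem R2_fun (hp : Proper s t Set.univ φ) (β : E → Q) (e : E)
    (h h' : E) (a : R2 s t φ c β h e) (a' : R2 s t φ c β h' e) : h = h' := by
  obtain ⟨g, g1, g2, g3, g4⟩ := a
  obtain ⟨g', g1', g2', g3', g4'⟩ := a'
  have hg : g = g' := eq_of_proper hp g1 g1' (g2.trans g2'.symm)
  subst hg
  exact eq_of_proper hp g3 g3' (g4.trans g4'.symm)

end DGR

theorem DGR_thm : S_DGR := by
  intro V E Q _ _ _ s t φ hM c hc β z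
  have hst := hM.lp
  have hp := hM.pr
  set P0 : E → Prop := fun h => ∃ e, Cf s t φ c e ∧ cu s t φ c e = z ∧ Inc s t h z ∧ φ h = β e
    with hP0
  set P1' : E → Prop := fun h => ∃ e, (Cf s t φ c e ∧ HA s t φ c z e (β e)) ∧
    DGR.R1 s t φ c β z h e with hP1
  set P2' : E → Prop := fun h => ∃ e, (Cf s t φ c e ∧ HB s t φ c z e (β e)) ∧
    DGR.R2 s t φ c β h e with hP2
  have hsub : (univ.filter fun h => Unc s t φ c β h ∧ Inc s t h z) ⊆
      (univ.filter P0) ∪ (univ.filter P1') ∪ (univ.filter P2') := by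
    intro h hh
    simp only [Finset.mem_filter, Finset.mem_univ, true_and] at hh
    obtain ⟨⟨e, he, hcase⟩, hz⟩ := hh
    simp only [Finset.mem_union, Finset.mem_filter, Finset.mem_univ, true_and]
    rcases hcase with ⟨h1, h2⟩ | ⟨g, g1, g2, g3, g4⟩
    · by_cases hzu : z = cu s t φ c e
      · exact Or.inl (Or.inl ⟨e, he, hzu.symm, hz, h2⟩)
      · refine Or.inl (Or.inr ⟨e, ⟨he, Or.inl ⟨h, h1, h2, ?_⟩⟩, hz, Or.inl ⟨h1, h2, hzu⟩⟩)
        exact oth_of_inc h1 hz hzu
    · by_cases hzx : z = oth s t g (cv s t φ c e)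
      · exact Or.inl (Or.inr ⟨e, ⟨he, Or.inr ⟨g, g1, g2, hzx⟩⟩, hz, Or.inr ⟨g, g1, g2, hzx, g4⟩⟩)
      · refine Or.inr ⟨e, ⟨he, ⟨g, h, g1, g2, g3, g4, ?_⟩⟩, ⟨g, g1, g2, g3, g4⟩⟩
        exact oth_of_inc g3 hz hzx
  have c0 : (univ.filter P0).card ≤ 1 := by
    rw [Finset.card_le_one]
    intro a ha b hb
    simp only [hP0, Finset.mem_filter, Finset.mem_univ, true_and] at ha hb
    obtain ⟨e, e1, e2, e3, e4⟩ := ha
    obtain ⟨f, f1, f2, f3, f4⟩ := hb
    have hef : e = f := cu_inj hp e1 f1 (e2.trans f2.symm)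
    subst hef
    exact eq_of_proper hp e3 f3 (e4.trans f4.symm)
  have c1 : (univ.filter P1').card ≤
      (univ.filter fun e => Cf s t φ c e ∧ HA s t φ c z e (β e)).card :=
    DGR.card_le_of_rel P1' _ (fun h e => DGR.R1 s t φ c β z h e)
      (fun h ⟨e, h1, h2⟩ => ⟨e, h1, h2⟩) (fun e h h' => DGR.R1_fun hst hp β z e h h')
  have c2 : (univ.filter P2').card ≤
      (univ.filter fun e => Cf s t φ c e ∧ HB s t φ c z e (β e)).card :=
    DGR.card_le_of_rel P2' _ (fun h e => DGR.R2 s t φ c β h e)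
      (fun h ⟨e, h1, h2⟩ => ⟨e, h1, h2⟩) (fun e h h' => DGR.R2_fun hp β e h h')
  calc (univ.filter fun h => Unc s t φ c β h ∧ Inc s t h z).card
      ≤ ((univ.filter P0) ∪ (univ.filter P1') ∪ (univ.filter P2')).card :=
        Finset.card_le_card hsub
    _ ≤ ((univ.filter P0) ∪ (univ.filter P1')).card + (univ.filter P2').card :=
        Finset.card_union_le _ _
    _ ≤ (univ.filter P0).card + (univ.filter P1').card + (univ.filter P2').card :=
        Nat.add_le_add_right (Finset.card_union_le _ _) _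
    _ ≤ _ := Nat.add_le_add (Nat.add_le_add c0 c1) c2

end Pool.Agent.TCM
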