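import Pool.Agent.TCM.Basic

set_option autoImplicit false

/-!
# The exponential moment bound
-/

namespace Pool.Agent.TCM

open Finset Classical TC19

namespace EXB

theorem exp_le {y δ : ℝ} (h0 : 0 ≤ y) (h1 : y ≤ δ) (hδ : δ ≤ 1) :
    Real.exp y - 1 ≤ (1 + δ) * y := by
  have h := Real.abs_exp_sub_one_sub_id_le (x := y) (by rw [abs_of_nonneg h0]; linarith)
  have h2 := (abs_le.mp h).2
  nlinarith [mul_le_mul_of_nonneg_right h1 h0]

theorem avg_nonneg {Ω : Type} [Fintype Ω] {h : Ω → ℝ} (hh : ∀ ω, 0 ≤ h ω) : 0 ≤ avg h := by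
  unfold avg
  exact div_nonneg (Finset.sum_nonneg fun ω _ => hh ω) (Nat.cast_nonneg _)

theorem avg_le {Ω : Type} [Fintype Ω] {h h' : Ω → ℝ} (hh : ∀ ω, h ω ≤ h' ω) :
    avg h ≤ avg h' := by
  unfold avg
  exact div_le_div_of_nonneg_right (Finset.sum_le_sum fun ω _ => hh ω) (Nat.cast_nonneg _)

theorem avg_mul {Ω : Type} [Fintype Ω] (a : ℝ) (h : Ω → ℝ) :
    avg (fun ω => a * h ω) = a * avg h := by
  unfold avg
  rw [← Finset.mul_sum, mul_div_assoc]

end EXB

theorem EXB_thm : S_EXB := by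
  intro ι Ω _ _ Y g s δ φ hs hφ hδ hg
  have h0 : ∀ i ∈ Y, 0 ≤ avg (fun ω => Real.exp (s * g i ω) - 1) := fun i hi =>
    EXB.avg_nonneg fun ω => by
      have h1 := Real.add_one_le_exp (s * g i ω)
      have h2 := mul_nonneg hs (hg i hi ω).1
      linarith
  have h1 : ∀ i ∈ Y, 1 + φ * avg (fun ω => Real.exp (s * g i ω) - 1) ≤
      Real.exp (φ * (1 + δ) * s * avg (g i)) := by
    intro i hi
    have h2 : avg (fun ω => Real.exp (s * g i ω) - 1) ≤ (1 + δ) * s * avg (g i) := by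
      rw [← EXB.avg_mul]
      refine EXB.avg_le fun ω => ?_
      have h3 := EXB.exp_le (mul_nonneg hs (hg i hi ω).1) (hg i hi ω).2 hδ
      linarith
    have h4 := mul_le_mul_of_nonneg_left h2 hφ
    have h5 := Real.add_one_le_exp (φ * (1 + δ) * s * avg (g i))
    have h6 : φ * ((1 + δ) * s * avg (g i)) = φ * (1 + δ) * s * avg (g i) := by ring
    linarith
  rw [Finset.mul_sum, Real.exp_sum]
  exact Finset.prod_le_prod (fun i hi => by
    have h2 := mul_nonneg hφ (h0 i hi)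
    linarith) h1

end Pool.Agent.TCM
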