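import Pool.Agent.TCM.Basic

set_option autoImplicit false

/-!
# EXP: the expectation of the functional after the moves
-/

namespace Pool.Agent.TCM

open Finset Classical TC19

namespace EXP

variable {V Q O : Type} [Fintype V] [Fintype Q] [Fintype O]

theorem elim_sum (f : Q → ℝ) (x : Option Q) :
    x.elim 0 f = ∑ β, if x = some β then f β else 0 := by
  cases x with
  | none => simp
  | some a => simp

/-- the total value of the moves -/
theorem total {G : SimpleGraph V} {c : V → Q} {mv : V → O → V → Option Q} (hm : Moves G c mv)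
    (ω : V → Q → ℝ) (hω : ∀ x β, 0 ≤ ω x β) :
    ∑ u, ∑ o, ∑ x, (mv u o x).elim 0 (ω x) ≤ 4 * ∑ x, ∑ β, ω x β := by
  have h1 : ∑ u, ∑ o, ∑ x, (mv u o x).elim 0 (ω x) =
      ∑ x, ∑ β, ((univ.filter fun p : V × O => mv p.1 p.2 x = some β).card : ℝ) * ω x β := by
    rw [← Fintype.sum_prod_type' (f := fun u o => ∑ x, (mv u o x).elim 0 (ω x)), Finset.sum_comm]
    refine Finset.sum_congr rfl fun x _ => ?_
    simp only [elim_sum]
    rw [Finset.sum_comm]
    refine Finset.sum_congr rfl fun β _ => ?_
    rw [← Finset.sum_filter, Finset.sum_const, nsmul_eq_mul]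
  rw [h1, Finset.mul_sum]
  refine Finset.sum_le_sum fun x _ => ?_
  rw [Finset.mul_sum]
  refine Finset.sum_le_sum fun β _ => ?_
  refine mul_le_mul_of_nonneg_right ?_ (hω x β)
  exact_mod_cast hm.cnt x β

/-- the sum of the contributions of a vertex over its options -/
theorem options {G : SimpleGraph V} {c : V → Q} {mv : V → O → V → Option Q} (hm : Moves G c mv)
    (hO : Fintype.card O = 2 * Fintype.card Q) (ω : V → Q → ℝ) (hω : ∀ x β, 0 ≤ ω x β) (u : V) :
    ∑ o, gain mv c ω u (some o) ≤ ((Fintype.card Q : ℝ) + 1) * ω u (c u) +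
      ∑ o, ∑ x, (mv u o x).elim 0 (ω x) := by
  have h0 : ∀ o, 0 ≤ ∑ x, (mv u o x).elim 0 (ω x) := by
    intro o
    refine Finset.sum_nonneg fun x _ => ?_
    cases mv u o x with
    | none => exact le_refl _
    | some a => exact hω x a
  have h1 : ∀ o, gain mv c ω u (some o) ≤ (if mv u o u = none then ω u (c u) else 0) +
      ∑ x, (mv u o x).elim 0 (ω x) := by
    intro o
    change (if mv u o u = none then ω u (c u) else ∑ x, (mv u o x).elim 0 (ω x)) ≤ _
    split_ifs
    · exact le_add_of_nonneg_right (h0 o)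
    · rw [zero_add]
  have h2 : ((univ.filter fun o => mv u o u = none).card : ℝ) ≤ (Fintype.card Q : ℝ) + 1 := by
    have h3 := Finset.card_filter_add_card_filter_not (s := (univ : Finset O))
      (fun o => mv u o u = none)
    rw [Finset.card_univ, hO] at h3
    have h4 := hm.ini u
    have h5 : (univ.filter fun o => ¬ mv u o u = none).card =
        (univ.filter fun o => mv u o u ≠ none).card := rfl
    rw [h5] at h3
    have h6 : (univ.filter fun o => mv u o u = none).card ≤ Fintype.card Q + 1 := by omega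
    exact_mod_cast h6
  calc ∑ o, gain mv c ω u (some o) ≤ ∑ o, ((if mv u o u = none then ω u (c u) else 0) +
        ∑ x, (mv u o x).elim 0 (ω x)) := Finset.sum_le_sum fun o _ => h1 o
    _ = ((univ.filter fun o => mv u o u = none).card : ℝ) * ω u (c u) +
        ∑ o, ∑ x, (mv u o x).elim 0 (ω x) := by
      rw [Finset.sum_add_distrib, ← Finset.sum_filter, Finset.sum_const, nsmul_eq_mul]
    _ ≤ _ := by
      refine add_le_add ?_ le_rfl
      exact mul_le_mul_of_nonneg_right h2 (hω _ _)

/-- the sum over the sample space of a vertex -/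
theorem space {c : V → Q} {mv : V → O → V → Option Q} (hO : Fintype.card O = 2 * Fintype.card Q)
    (ω : V → Q → ℝ) (N : ℕ) (hN : 0 < N) (u : V) :
    ∑ w : Fin N × O, gain mv c ω u (opt w) =
      ((N : ℝ) - 1) * (2 * Fintype.card Q) * ω u (c u) + ∑ o, gain mv c ω u (some o) := by
  obtain ⟨M, rfl⟩ : ∃ M, N = M + 1 := ⟨N - 1, by omega⟩
  rw [Fintype.sum_prod_type, Fin.sum_univ_succ, add_comm]
  congr 1
  · have h1 : ∀ i : Fin M, ∑ o : O, gain mv c ω u (opt (i.succ, o)) =
        2 * Fintype.card Q * ω u (c u) := by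
      intro i
      have h2 : ∀ o : O, gain mv c ω u (opt (i.succ, o)) = ω u (c u) := by
        intro o
        unfold opt
        rw [if_neg (by simp)]
        rfl
      rw [Finset.sum_congr rfl fun o _ => h2 o, Finset.sum_const, Finset.card_univ, hO,
        nsmul_eq_mul]
      push_cast
      ring
    rw [Finset.sum_congr rfl fun i _ => h1 i, Finset.sum_const, Finset.card_univ,
      Fintype.card_fin, nsmul_eq_mul]
    push_cast
    ring

end EXP

theorem EXP_thm : S_EXP := by
  intro V Q O _ _ _ G c mv hm hO hQ N hN ω hω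
  have hq : (2 : ℝ) ≤ Fintype.card Q := by exact_mod_cast hQ
  have hn : (0 : ℝ) < N := by exact_mod_cast hN
  have hpos : (0 : ℝ) < 2 * Fintype.card Q * N := by positivity
  have hcard : (Fintype.card (Fin N × O) : ℝ) = 2 * Fintype.card Q * N := by
    rw [Fintype.card_prod, Fintype.card_fin, hO]
    push_cast
    ring
  have h1 : ∑ u, avg (fun w : Fin N × O => gain mv c ω u (opt w)) =
      (∑ u, ∑ w : Fin N × O, gain mv c ω u (opt w)) / (2 * Fintype.card Q * N) := by
    unfold avg
    rw [← Finset.sum_div, hcard]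
  have h2 : ∑ u, ∑ w : Fin N × O, gain mv c ω u (opt w) ≤
      (2 * Fintype.card Q * N - ((Fintype.card Q : ℝ) - 1)) * ∑ u, ω u (c u) +
        4 * ∑ x, ∑ β, ω x β := by
    calc ∑ u, ∑ w : Fin N × O, gain mv c ω u (opt w) ≤
        ∑ u, ((2 * Fintype.card Q * N - ((Fintype.card Q : ℝ) - 1)) * ω u (c u) +
          ∑ o, ∑ x, (mv u o x).elim 0 (ω x)) := by
          refine Finset.sum_le_sum fun u _ => ?_
          rw [EXP.space hO ω N hN u]
          have h3 := EXP.options hm hO ω hω u
          linarith
      _ = (2 * Fintype.card Q * N - ((Fintype.card Q : ℝ) - 1)) * ∑ u, ω u (c u) +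
          ∑ u, ∑ o, ∑ x, (mv u o x).elim 0 (ω x) := by
          rw [Finset.sum_add_distrib, Finset.mul_sum]
      _ ≤ _ := by
          refine add_le_add le_rfl ?_
          exact EXP.total hm ω hω
  rw [h1, div_le_iff₀ hpos]
  refine h2.trans (le_of_eq ?_)
  have hq0 : (Fintype.card Q : ℝ) ≠ 0 := by positivity
  field_simp
  ring

end Pool.Agent.TCM
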