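import Pool.Agent.TCM.Basic

set_option autoImplicit false

/-!
# Total colouring of multigraphs: the functional for `P1`
-/

namespace Pool.Agent.TCM

open Finset Classical TC19

namespace FA1

variable {V E Q : Type} [Fintype V] [Fintype E] [Fintype Q] {s t : E → V} {φ : E → Q}

omit [Fintype V] in
theorem tau_nonneg (z : V) (e : E) (u : V) : 0 ≤ τ1 s t z e u := Nat.cast_nonneg _

omit [Fintype V] in
theorem tau_le (hst : ∀ e, s e ≠ t e) {μ : ℕ} (hμ : ∀ x y, x ≠ y → mult s t x y ≤ μ) (z : V)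
    (e : E) (u : V) : τ1 s t z e u ≤ μ := by
  unfold τ1
  rw [Nat.cast_le]
  by_cases hz : oth s t e u = z
  · refine le_of_eq_of_le ?_ (Nat.zero_le μ)
    rw [Finset.card_eq_zero, Finset.filter_eq_empty_iff]
    rintro g - ⟨h1, h2⟩
    exact oth_ne hst h1 (h2.symm.trans hz)
  · refine le_trans (Finset.card_le_card ?_) (hμ z (oth s t e u) (Ne.symm hz))
    intro g hg
    rw [Finset.mem_filter] at hg ⊢
    refine ⟨Finset.mem_univ _, hg.2.1, ?_⟩
    rw [hg.2.2]
    exact inc_oth g z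

omit [Fintype V] in
theorem tau_sum (hst : ∀ e, s e ≠ t e) (z : V) (e : E) :
    τ1 s t z e (s e) + τ1 s t z e (t e) =
      ∑ g ∈ univ.filter (fun g => Inc s t g z), if Inc s t e (oth s t g z) then (1 : ℝ) else 0 := by
  unfold τ1
  rw [oth_s, oth_t hst, Finset.card_filter, Finset.card_filter, Finset.sum_filter]
  push_cast
  rw [← Finset.sum_add_distrib]
  refine Finset.sum_congr rfl fun g _ => ?_
  by_cases h1 : Inc s t g z
  · by_cases h2 : s e = oth s t g z
    · have h3 : t e ≠ oth s t g z := fun h => hst e (h2.trans h.symm)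
      have h4 : Inc s t e (oth s t g z) := Or.inl h2
      simp [h1, h2, h3, h4]
    · by_cases h3 : t e = oth s t g z
      · have h4 : Inc s t e (oth s t g z) := Or.inr h3
        simp [h1, h2, h3, h4]
      · have h4 : ¬ Inc s t e (oth s t g z) := fun h => h.elim h2 h3
        simp [h1, h2, h3, h4]
  · simp [h1]

theorem total (h : MG s t φ) (z : V) :
    ∑ e, (τ1 s t z e (s e) + τ1 s t z e (t e)) ≤ (Fintype.card Q : ℝ) ^ 2 := by
  rw [Finset.sum_congr rfl fun e _ => tau_sum h.lp z e, Finset.sum_comm]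
  have h1 : ∀ g ∈ univ.filter (fun g => Inc s t g z),
      ∑ e, (if Inc s t e (oth s t g z) then (1 : ℝ) else 0) ≤ Fintype.card Q := by
    intro g _
    have h2 := (h.dg (oth s t g z)).le
    unfold dg at h2
    rw [Finset.sum_boole]
    exact_mod_cast h2
  refine (Finset.sum_le_card_nsmul _ _ _ h1).trans ?_
  rw [nsmul_eq_mul, sq]
  refine mul_le_mul_of_nonneg_right ?_ (Nat.cast_nonneg _)
  have h3 := (h.dg z).le
  unfold dg at h3
  exact_mod_cast h3

theorem near {z : V} {e : E} {u : V} (hst : ∀ e, s e ≠ t e) (he : Inc s t e u)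
    (h : τ1 s t z e u ≠ 0) : z ∈ ball (SG s t) u 2 := by
  unfold τ1 at h
  rw [Nat.cast_ne_zero, Finset.card_ne_zero] at h
  obtain ⟨g, hg⟩ := h
  rw [Finset.mem_filter] at hg
  have h1 : oth s t e u ∈ ball (SG s t) u 1 := by
    rw [ball]
    exact Finset.mem_biUnion.mpr ⟨u, by simp [ball], mem_CN.mpr (Or.inr (adj_oth hst he))⟩
  rw [ball]
  refine Finset.mem_biUnion.mpr ⟨oth s t e u, h1, mem_CN.mpr (Or.inr ?_)⟩
  rw [hg.2.2]
  exact (adj_oth hst hg.2.1).symm

omit [Fintype V] [Fintype Q] in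
theorem eval (hst : ∀ e, s e ≠ t e) (c : V → Q) (z : V) :
    (∑ e, if Cf s t φ c e then τ1 s t z e (cu s t φ c e) else 0) = P1 s t φ c z := by
  unfold P1
  rw [Finset.card_filter, Fintype.sum_prod_type]
  push_cast
  refine Finset.sum_congr rfl fun e _ => ?_
  by_cases he : Cf s t φ c e
  · rw [if_pos he]
    unfold τ1
    rw [oth_cu hst, Finset.card_filter]
    push_cast
    refine Finset.sum_congr rfl fun g _ => ?_
    simp [he]
  · rw [if_neg he]
    symm
    refine Finset.sum_eq_zero fun g _ => ?_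
    simp [he]

end FA1

theorem FA1_thm (h1 : S_WTG) : S_FA1 := by
  intro V E Q _ _ _ s t φ h μ hμ z
  obtain ⟨w1, w2, w3, w4, w5⟩ := h1 V E Q s t φ h.lp h.pr (τ1 s t z)
    (fun e u => FA1.tau_nonneg z e u)
  refine ⟨fun u β => ⟨w1 u β, w2 μ (Nat.cast_nonneg _)
    (fun e u _ => FA1.tau_le h.lp hμ z e u) u β⟩, ?_, ?_, ?_⟩
  · rw [w3]
    exact FA1.total h z
  · intro c hc
    rw [w4 c hc]
    exact FA1.eval h.lp c z
  · intro u β hne
    obtain ⟨e, he, h2⟩ := w5 u β hne
    exact FA1.near h.lp he h2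

end Pool.Agent.TCM
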