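import Pool.Agent.TCM.Basic

set_option autoImplicit false

/-!
# The functional for `P2 z`
-/

namespace Pool.Agent.TCM

open Finset Classical TC19

namespace FA2

variable {V E Q : Type} [Fintype V] [Fintype E] [Fintype Q] {s t : E → V} {φ : E → Q}

/-- the bound for the weights -/
theorem bound (h : MG s t φ) {μ : ℕ} (hμ : ∀ x y, x ≠ y → mult s t x y ≤ μ) (z : V) (e : E)
    (u : V) : τ2 s t φ z e u ≤ μ := by
  unfold τ2
  rw [Nat.cast_le]
  set S := univ.filter fun p : E × E => Inc s t p.2 z ∧ φ p.2 = φ e ∧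
    Inc s t p.1 (oth s t p.2 z) ∧ oth s t e u = oth s t p.1 (oth s t p.2 z) with hS
  rcases S.eq_empty_or_nonempty with h0 | ⟨p0, hp0⟩
  · rw [h0]
    simp
  · have hp0' := hp0
    rw [hS, Finset.mem_filter] at hp0'
    obtain ⟨-, a1, a2, a3, a4⟩ := hp0'
    have key : ∀ p ∈ S, p.2 = p0.2 := by
      intro p hp
      rw [hS, Finset.mem_filter] at hp
      obtain ⟨-, b1, b2, b3, b4⟩ := hp
      exact eq_of_proper h.pr b1 a1 (b2.trans a2.symm)
    have h1 : S.card ≤ mult s t (oth s t p0.2 z) (oth s t e u) := by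
      unfold mult
      refine Finset.card_le_card_of_injOn (fun p => p.1) ?_ ?_
      · intro p hp
        have hk := key p (Finset.mem_coe.mp hp)
        have hp' := Finset.mem_coe.mp hp
        rw [hS, Finset.mem_filter] at hp'
        obtain ⟨-, b1, b2, b3, b4⟩ := hp'
        rw [hk] at b3 b4
        rw [Finset.mem_coe, Finset.mem_filter]
        refine ⟨Finset.mem_univ _, b3, ?_⟩
        rw [b4]
        exact inc_oth _ _
      · intro p hp p' hp' hpp
        have hk := key p (Finset.mem_coe.mp hp)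
        have hk' := key p' (Finset.mem_coe.mp hp')
        exact Prod.ext hpp (hk.trans hk'.symm)
    refine h1.trans (hμ _ _ ?_)
    rw [a4]
    exact (oth_ne h.lp a3).symm

/-- the pairs `(g, h)` -/
theorem card_pairs (h : MG s t φ) (z : V) :
    (univ.filter fun p : E × E => Inc s t p.2 z ∧ Inc s t p.1 (oth s t p.2 z)).card ≤
      Fintype.card Q ^ 2 := by
  have h1 : (univ.filter fun p : E × E => Inc s t p.2 z ∧ Inc s t p.1 (oth s t p.2 z)) ⊆
      (univ.filter fun e => Inc s t e z).biUnion fun f =>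
        (univ.filter fun g => Inc s t g (oth s t f z)).image fun g => (g, f) := by
    intro p hp
    rw [Finset.mem_filter] at hp
    rw [Finset.mem_biUnion]
    refine ⟨p.2, Finset.mem_filter.mpr ⟨Finset.mem_univ _, hp.2.1⟩, ?_⟩
    rw [Finset.mem_image]
    exact ⟨p.1, Finset.mem_filter.mpr ⟨Finset.mem_univ _, hp.2.2⟩, rfl⟩
  refine (Finset.card_le_card h1).trans ?_
  have h2 : ((univ.filter fun e => Inc s t e z).biUnion fun f =>
        (univ.filter fun g => Inc s t g (oth s t f z)).image fun g => (g, f)).card ≤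
      (univ.filter fun e => Inc s t e z).card * Fintype.card Q := by
    refine Finset.card_biUnion_le_card_mul _ _ _ fun f _ => ?_
    exact Finset.card_image_le.trans (h.dg _).le
  refine h2.trans ?_
  rw [pow_two]
  exact Nat.mul_le_mul_right _ (h.dg _).le

/-- the sum of the indicators for a given pair -/
theorem pair_one (h : MG s t φ) (v : V) (a : Q) :
    ∑ e : E, ((if a = φ e ∧ t e = v then (1 : ℕ) else 0) +
      (if a = φ e ∧ s e = v then (1 : ℕ) else 0)) ≤ 1 := by
  rw [Finset.sum_add_distrib, ← Finset.card_filter, ← Finset.card_filter,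
    ← Finset.card_union_of_disjoint]
  · rw [Finset.card_le_one]
    intro e he f hf
    have key : ∀ e, e ∈ (univ.filter fun e => a = φ e ∧ t e = v) ∪
        (univ.filter fun e => a = φ e ∧ s e = v) → Inc s t e v ∧ a = φ e := by
      intro e he
      rw [Finset.mem_union, Finset.mem_filter, Finset.mem_filter] at he
      rcases he with ⟨-, h1, h2⟩ | ⟨-, h1, h2⟩
      · exact ⟨Or.inr h2, h1⟩
      · exact ⟨Or.inl h2, h1⟩
    obtain ⟨a1, a2⟩ := key e he
    obtain ⟨b1, b2⟩ := key f hf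
    exact eq_of_proper h.pr a1 b1 (a2.symm.trans b2)
  · rw [Finset.disjoint_left]
    intro e he hf
    rw [Finset.mem_filter] at he hf
    exact h.lp e (hf.2.2.trans he.2.2.symm)

/-- `τ2` as a sum over the pairs -/
theorem tau_eq (z : V) (e : E) (u : V) : τ2 s t φ z e u =
    ((∑ p ∈ (univ.filter fun p : E × E => Inc s t p.2 z ∧ Inc s t p.1 (oth s t p.2 z)),
      (if φ p.2 = φ e ∧ oth s t e u = oth s t p.1 (oth s t p.2 z) then (1 : ℕ) else 0) : ℕ) :
        ℝ) := by
  unfold τ2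
  rw [Nat.cast_inj, ← Finset.card_filter, Finset.filter_filter]
  refine congrArg Finset.card (Finset.filter_congr fun p _ => ?_)
  constructor
  · rintro ⟨a1, a2, a3, a4⟩
    exact ⟨⟨a1, a3⟩, a2, a4⟩
  · rintro ⟨⟨a1, a3⟩, a2, a4⟩
    exact ⟨a1, a2, a3, a4⟩

/-- the total weight -/
theorem total (h : MG s t φ) (z : V) :
    ∑ e, (τ2 s t φ z e (s e) + τ2 s t φ z e (t e)) ≤ (Fintype.card Q : ℝ) ^ 2 := by
  have h1 : ∑ e, (τ2 s t φ z e (s e) + τ2 s t φ z e (t e)) =
      ((∑ p ∈ (univ.filter fun p : E × E => Inc s t p.2 z ∧ Inc s t p.1 (oth s t p.2 z)),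
        ∑ e : E, ((if φ p.2 = φ e ∧ t e = oth s t p.1 (oth s t p.2 z) then (1 : ℕ) else 0) +
          (if φ p.2 = φ e ∧ s e = oth s t p.1 (oth s t p.2 z) then (1 : ℕ) else 0)) : ℕ) :
            ℝ) := by
    rw [Finset.sum_comm, Nat.cast_sum]
    refine Finset.sum_congr rfl fun e _ => ?_
    rw [tau_eq, tau_eq, ← Nat.cast_add, ← Finset.sum_add_distrib]
    refine congrArg _ (Finset.sum_congr rfl fun p _ => ?_)
    rw [oth_s, oth_t h.lp]
  rw [h1, ← Nat.cast_pow, Nat.cast_le]
  refine le_trans (Finset.sum_le_sum fun p _ =>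
    pair_one h (oth s t p.1 (oth s t p.2 z)) (φ p.2)) ?_
  rw [← Finset.card_eq_sum_ones]
  exact card_pairs h z

/-- the evaluation -/
theorem eval (h : MG s t φ) (c : V → Q) (z : V) :
    (∑ e, if Cf s t φ c e then τ2 s t φ z e (cu s t φ c e) else 0) = (P2 s t φ c z : ℝ) := by
  unfold P2
  rw [Finset.card_filter, Fintype.sum_prod_type, Nat.cast_sum]
  refine Finset.sum_congr rfl fun e _ => ?_
  by_cases he : Cf s t φ c e
  · rw [if_pos he]
    unfold τ2
    rw [Nat.cast_inj, Finset.card_filter]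
    refine Finset.sum_congr rfl fun p _ => ?_
    rw [oth_cu h.lp]
    simp only [he, true_and]
  · rw [if_neg he]
    simp only [he, false_and, if_false, Finset.sum_const_zero, Nat.cast_zero]

/-- the vertices are near -/
theorem near (h : MG s t φ) (z : V) {e : E} {u : V} (he : Inc s t e u)
    (hτ : τ2 s t φ z e u ≠ 0) : z ∈ ball (SG s t) u 3 := by
  unfold τ2 at hτ
  rw [Nat.cast_ne_zero, Finset.card_ne_zero] at hτ
  obtain ⟨p, hp⟩ := hτ
  rw [Finset.mem_filter] at hp
  obtain ⟨-, a1, a2, a3, a4⟩ := hp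
  have b1 : oth s t e u ∈ CN (SG s t) u := mem_CN.mpr (Or.inr (adj_oth h.lp he))
  have b2 : oth s t p.2 z ∈ CN (SG s t) (oth s t e u) := by
    rw [a4]
    exact mem_CN.mpr (Or.inr (adj_oth h.lp a3).symm)
  have b3 : z ∈ CN (SG s t) (oth s t p.2 z) := mem_CN.mpr (Or.inr (adj_oth h.lp a1).symm)
  exact ball_step b1 2 (ball_step b2 1 (ball_step b3 0 (mem_ball_self _ _ _)))

end FA2

/-- FA2 -/
theorem FA2_thm (h1 : S_WTG) : S_FA2 := by
  intro V E Q _ _ _ s t φ h μ hμ z
  have h0 : ∀ e u, 0 ≤ τ2 s t φ z e u := fun e u => Nat.cast_nonneg _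
  obtain ⟨w1, w2, w3, w4, w5⟩ := h1 V E Q s t φ h.lp h.pr (τ2 s t φ z) h0
  refine ⟨fun u β => ⟨w1 u β, w2 μ (Nat.cast_nonneg _) (fun e u _ => FA2.bound h hμ z e u) u β⟩,
    ?_, ?_, ?_⟩
  · rw [w3]
    exact FA2.total h z
  · intro c hc
    rw [w4 c hc]
    exact FA2.eval h c z
  · intro u β hne
    obtain ⟨e, he, hτ⟩ := w5 u β hne
    exact FA2.near h z he hτ

end Pool.Agent.TCM
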