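import Pool.Agent.TCM.Basic

set_option autoImplicit false

/-!
# Total colouring of multigraphs: the functional for `R`
-/

namespace Pool.Agent.TCM

open Finset Classical TC19

namespace FA3

variable {V E Q : Type} [Fintype V] [Fintype E] [Fintype Q] {s t : E → V} {φ : E → Q}

omit [Fintype V] [Fintype E] in
theorem tau_nonneg (v : V) (e : E) (u : V) : 0 ≤ τ3 s t v e u := by
  unfold τ3
  split_ifs <;> norm_num

omit [Fintype V] [Fintype E] in
theorem tau_le (v : V) (e : E) (u : V) : τ3 s t v e u ≤ 1 := by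
  unfold τ3
  split_ifs <;> norm_num

omit [Fintype V] [Fintype E] in
theorem tau_sum (hst : ∀ e, s e ≠ t e) (v : V) (e : E) :
    τ3 s t v e (s e) + τ3 s t v e (t e) = if Inc s t e v then (1 : ℝ) else 0 := by
  unfold τ3
  rw [oth_s, oth_t hst]
  by_cases h1 : s e = v
  · have h2 : t e ≠ v := fun h => hst e (h1.trans h.symm)
    have h3 : Inc s t e v := Or.inl h1
    simp [h1, h2, h3]
  · by_cases h2 : t e = v
    · have h3 : Inc s t e v := Or.inr h2
      simp [h1, h2, h3]
    · have h3 : ¬ Inc s t e v := fun h => h.elim h1 h2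
      simp [h1, h2, h3]

theorem total (h : MG s t φ) (v : V) :
    ∑ e, (τ3 s t v e (s e) + τ3 s t v e (t e)) ≤ (Fintype.card Q : ℝ) := by
  rw [Finset.sum_congr rfl fun e _ => tau_sum h.lp v e, Finset.sum_boole]
  have h2 := (h.dg v).le
  unfold dg at h2
  exact_mod_cast h2

theorem near {v : V} {e : E} {u : V} (hst : ∀ e, s e ≠ t e) (he : Inc s t e u)
    (h : τ3 s t v e u ≠ 0) : v ∈ ball (SG s t) u 1 := by
  unfold τ3 at h
  have h1 : oth s t e u = v := by
    by_contra hne
    rw [if_neg hne] at h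
    exact h rfl
  have h2 : v ∈ CN (SG s t) u := by
    rw [mem_CN, ← h1]
    exact Or.inr (adj_oth hst he)
  have h3 : ball (SG s t) v 0 ⊆ ball (SG s t) u 1 := ball_step h2 0
  exact h3 (mem_ball_self _ v 0)

theorem eval (h : MG s t φ) (c : V → Q) (v : V) :
    ∑ e, (if Cf s t φ c e then τ3 s t v e (cu s t φ c e) else 0) = R s t φ c v := by
  have h1 : ∀ e, (if Cf s t φ c e then τ3 s t v e (cu s t φ c e) else 0) =
      if Cf s t φ c e ∧ cv s t φ c e = v then (1 : ℝ) else 0 := by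
    intro e
    unfold τ3
    rw [oth_cu h.lp]
    by_cases h2 : Cf s t φ c e
    · by_cases h3 : cv s t φ c e = v
      · rw [if_pos h2, if_pos h3, if_pos ⟨h2, h3⟩]
      · rw [if_pos h2, if_neg h3, if_neg fun h4 => h3 h4.2]
    · rw [if_neg h2, if_neg fun h4 => h2 h4.1]
  rw [Finset.sum_congr rfl fun e _ => h1 e, Finset.sum_boole]
  unfold R
  rfl

end FA3

theorem FA3_thm (h1 : S_WTG) : S_FA3 := by
  intro V E Q _ _ _ s t φ h v
  obtain ⟨a1, a2, a3, a4, a5⟩ := h1 V E Q s t φ h.lp h.pr (τ3 s t v) (FA3.tau_nonneg v)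
  refine ⟨fun u β => ⟨a1 u β, a2 1 zero_le_one (fun e u _ => FA3.tau_le v e u) u β⟩, ?_, ?_, ?_⟩
  · rw [a3]
    exact FA3.total h v
  · intro c hc
    rw [a4 c hc]
    exact FA3.eval h c v
  · intro u β hne
    obtain ⟨e, he, h2⟩ := a5 u β hne
    exact FA3.near h.lp he h2

end Pool.Agent.TCM
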