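import Pool.Agent.TCM.Basic

set_option autoImplicit false

/-!
# FA4: the functional for `Em v a`
-/

namespace Pool.Agent.TCM

open Finset Classical TC19

namespace FA4

/-- sum over the fibres -/
theorem sum_fib {V α : Type} [Fintype V] (S : Finset α) (f : α → V) :
    ∑ u, ((S.filter fun x => f x = u).card : ℝ) = S.card := by
  have h := Finset.card_eq_sum_card_fiberwise (s := S) (t := (univ : Finset V)) (f := f)
    (fun x _ => Finset.mem_coe.mpr (Finset.mem_univ _))
  rw [h]
  push_cast
  rfl

/-- sum over the fibres with a condition -/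
theorem sum_fib_if {V α : Type} [Fintype V] (S : Finset α) (f : α → V) (P : V → Prop) :
    ∑ u, (if P u then ((S.filter fun x => f x = u).card : ℝ) else 0) =
      (S.filter fun x => P (f x)).card := by
  rw [← sum_fib (S.filter fun x => P (f x)) f]
  refine Finset.sum_congr rfl fun u _ => ?_
  split_ifs with h
  · congr 2
    ext x
    simp only [Finset.mem_filter]
    constructor
    · rintro ⟨h1, h2⟩
      exact ⟨⟨h1, by rw [h2]; exact h⟩, h2⟩
    · rintro ⟨⟨h1, _⟩, h2⟩
      exact ⟨h1, h2⟩
  · symm
    rw [Nat.cast_eq_zero, Finset.card_eq_zero, Finset.filter_eq_empty_iff]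
    intro x hx h2
    rw [Finset.mem_filter] at hx
    exact h (h2 ▸ hx.2)

section

variable {V E Q : Type} [Fintype V] [Fintype E] [Fintype Q] {s t : E → V} {φ : E → Q}

/-- the first set -/
noncomputable def A (s t : E → V) (v : V) : Finset E := univ.filter fun g => Inc s t g v

/-- the second set -/
noncomputable def B (s t : E → V) (φ : E → Q) (v : V) (a : Q) : Finset (E × E) :=
  univ.filter fun p : E × E => Inc s t p.1 v ∧ Inc s t p.2 (oth s t p.1 v) ∧ φ p.2 = a

omit [Fintype V] [Fintype Q] in
theorem w4_eq (v : V) (a : Q) (u : V) (β : Q) : w4 s t φ v a u β = if β = a then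
    (((A s t v).filter fun g => oth s t g v = u).card : ℝ) +
      ((B s t φ v a).filter fun p => oth s t p.2 (oth s t p.1 v) = u).card else 0 := by
  unfold w4 A B
  split_ifs with h
  · rw [Finset.filter_filter, Finset.filter_filter]
    congr 3
    ext p
    simp only [Finset.mem_filter, Finset.mem_univ, true_and, and_assoc]
  · rfl

omit [Fintype V] [Fintype Q] in
theorem A_card (v : V) : (A s t v).card = dg s t univ v := rfl

omit [Fintype V] [Fintype Q] in
theorem B_card (hp : Proper s t Set.univ φ) (v : V) (a : Q) :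
    (B s t φ v a).card ≤ dg s t univ v := by
  unfold dg
  refine Finset.card_le_card_of_injOn Prod.fst ?_ ?_
  · intro p hp
    simp only [B, Finset.coe_filter, Finset.mem_univ, true_and, Set.mem_ofPred_eq] at hp
    simp [hp.1]
  · rintro ⟨g, h⟩ hx ⟨g', h'⟩ hy hgg
    simp only [B, Finset.coe_filter, Finset.mem_univ, true_and, Set.mem_ofPred_eq] at hx hy hgg
    subst hgg
    have : h = h' := eq_of_proper hp hx.2.1 hy.2.1 (hx.2.2.trans hy.2.2.symm)
    rw [this]

omit [Fintype V] [Fintype Q] in
theorem A_fib (hst : ∀ e, s e ≠ t e) {μ : ℕ} (hμ : ∀ x y, x ≠ y → mult s t x y ≤ μ) (v u : V) :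
    ((A s t v).filter fun g => oth s t g v = u).card ≤ μ := by
  by_cases hvu : v = u
  · have : ((A s t v).filter fun g => oth s t g v = u) = ∅ := by
      rw [Finset.filter_eq_empty_iff]
      intro g hg h2
      simp only [A, Finset.mem_filter, Finset.mem_univ, true_and] at hg
      exact oth_ne hst hg (h2.trans hvu.symm)
    rw [this]
    simp
  · refine le_trans (Finset.card_le_card ?_) (hμ v u hvu)
    intro g hg
    simp only [A, Finset.mem_filter, Finset.mem_univ, true_and] at hg ⊢
    exact ⟨hg.1, hg.2 ▸ inc_oth g v⟩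

omit [Fintype V] [Fintype Q] in
theorem B_fib (hst : ∀ e, s e ≠ t e) (hp : Proper s t Set.univ φ) {μ : ℕ}
    (hμ : ∀ x y, x ≠ y → mult s t x y ≤ μ) (v : V) (a : Q) (u : V) :
    ((B s t φ v a).filter fun p => oth s t p.2 (oth s t p.1 v) = u).card ≤ μ := by
  set S := (B s t φ v a).filter fun p => oth s t p.2 (oth s t p.1 v) = u with hS
  have key : ∀ p ∈ S, Inc s t p.1 v ∧ Inc s t p.2 (oth s t p.1 v) ∧ φ p.2 = a ∧
      oth s t p.2 (oth s t p.1 v) = u ∧ Inc s t p.2 u := by
    intro p hp
    simp only [hS, B, Finset.mem_filter, Finset.mem_univ, true_and] at hp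
    obtain ⟨⟨h1, h2, h3⟩, h4⟩ := hp
    exact ⟨h1, h2, h3, h4, h4 ▸ inc_oth p.2 _⟩
  rcases S.eq_empty_or_nonempty with h0 | ⟨p0, hp0⟩
  · rw [h0]
    simp
  · obtain ⟨a1, a2, a3, a4, a5⟩ := key p0 hp0
    have hne : v ≠ oth s t p0.1 v := (oth_ne hst a1).symm
    refine le_trans ?_ (hμ v (oth s t p0.1 v) hne)
    unfold mult
    refine Finset.card_le_card_of_injOn Prod.fst ?_ ?_
    · intro p hp'
      obtain ⟨b1, b2, b3, b4, b5⟩ := key p hp'
      have he : p.2 = p0.2 := eq_of_proper hp b5 a5 (b3.trans a3.symm)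
      have hx : oth s t p.1 v = oth s t p0.1 v := by
        have e1 := oth_oth hst b2
        have e2 := oth_oth hst a2
        rw [b4] at e1
        rw [a4] at e2
        rw [← e1, ← e2, he]
      simp only [Finset.coe_filter, Finset.mem_univ, true_and, Set.mem_ofPred_eq]
      exact ⟨b1, hx ▸ inc_oth p.1 v⟩
    · rintro ⟨g, h⟩ hx ⟨g', h'⟩ hy hgg
      obtain ⟨b1, b2, b3, b4, b5⟩ := key _ hx
      obtain ⟨d1, d2, d3, d4, d5⟩ := key _ hy
      have he : h = h' := eq_of_proper hp b5 d5 (b3.trans d3.symm)
      simp only at hgg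
      rw [hgg, he]

end

end FA4

open FA4 in
theorem FA4_thm : S_FA4 := by
  intro V E Q _ _ _ s t φ hG μ hμ v a
  have hA : ∀ u, (((A s t v).filter fun g => oth s t g v = u).card : ℝ) ≤ μ := fun u => by
    exact_mod_cast A_fib hG.lp hμ v u
  have hB : ∀ u, (((B s t φ v a).filter fun p =>
      oth s t p.2 (oth s t p.1 v) = u).card : ℝ) ≤ μ := fun u => by
    exact_mod_cast B_fib hG.lp hG.pr hμ v a u
  have hdg : (dg s t univ v : ℝ) ≤ Fintype.card Q := by
    exact_mod_cast (hG.dg v).le
  refine ⟨fun u β => ?_, ?_, fun c => ?_, fun u β h => ?_⟩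
  · rw [w4_eq]
    split_ifs with h
    · refine ⟨by positivity, ?_⟩
      have := hA u
      have := hB u
      linarith
    · refine ⟨le_refl _, by positivity⟩
  · have h1 : ∀ u, ∑ β, w4 s t φ v a u β =
        (((A s t v).filter fun g => oth s t g v = u).card : ℝ) +
          ((B s t φ v a).filter fun p => oth s t p.2 (oth s t p.1 v) = u).card := by
      intro u
      rw [Finset.sum_congr rfl fun β _ => w4_eq v a u β, Finset.sum_ite_eq' univ a]
      simp
    rw [Finset.sum_congr rfl fun u _ => h1 u, Finset.sum_add_distrib, sum_fib, sum_fib]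
    have h2 : ((A s t v).card : ℝ) ≤ Fintype.card Q := by
      rw [A_card]
      exact hdg
    have h3 : ((B s t φ v a).card : ℝ) ≤ Fintype.card Q :=
      le_trans (by exact_mod_cast B_card hG.pr v a) hdg
    linarith
  · have h1 : ∀ u, w4 s t φ v a u (c u) =
        (if c u = a then (((A s t v).filter fun g => oth s t g v = u).card : ℝ) else 0) +
          (if c u = a then (((B s t φ v a).filter fun p =>
            oth s t p.2 (oth s t p.1 v) = u).card : ℝ) else 0) := by
      intro u
      rw [w4_eq]
      split_ifs <;> simp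
    rw [Finset.sum_congr rfl fun u _ => h1 u, Finset.sum_add_distrib,
      sum_fib_if (A s t v) (fun g => oth s t g v) (fun u => c u = a),
      sum_fib_if (B s t φ v a) (fun p => oth s t p.2 (oth s t p.1 v)) (fun u => c u = a)]
    unfold Em A B
    rw [Finset.filter_filter, Finset.filter_filter]
    push_cast
    congr 3
    ext p
    simp only [Finset.mem_filter, Finset.mem_univ, true_and, and_assoc]
  · rw [w4_eq] at h
    by_cases hβ : β = a
    · rw [if_pos hβ] at h
      have h' : ((A s t v).filter fun g => oth s t g v = u).Nonempty ∨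
          ((B s t φ v a).filter fun p => oth s t p.2 (oth s t p.1 v) = u).Nonempty := by
        by_contra hcon
        push Not at hcon
        rw [hcon.1, hcon.2] at h
        simp at h
      rcases h' with ⟨g, hg⟩ | ⟨p, hp⟩
      · simp only [A, Finset.mem_filter, Finset.mem_univ, true_and] at hg
        have hadj : (SG s t).Adj v u := hg.2 ▸ adj_oth hG.lp hg.1
        exact ball_mono 1 (ball_step (mem_CN.mpr (Or.inr hadj.symm)) 0 (mem_ball_self _ _ 0))
      · simp only [B, Finset.mem_filter, Finset.mem_univ, true_and] at hp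
        obtain ⟨⟨h1, h2, h3⟩, h4⟩ := hp
        have ha1 : (SG s t).Adj v (oth s t p.1 v) := adj_oth hG.lp h1
        have ha2 : (SG s t).Adj (oth s t p.1 v) u := h4 ▸ adj_oth hG.lp h2
        exact ball_step (mem_CN.mpr (Or.inr ha2.symm)) 1
          (ball_step (mem_CN.mpr (Or.inr ha1.symm)) 0 (mem_ball_self _ _ 0))
    · rw [if_neg hβ] at h
      exact absurd rfl h

end Pool.Agent.TCM
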