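import Pool.Agent.TCM.Basic

set_option autoImplicit false

/-!
# FA5: the functional for `P5 y z`
-/

namespace Pool.Agent.TCM

open Finset Classical TC19

namespace FA5

section

variable {V E Q : Type} [Fintype V] [Fintype E] [Fintype Q] {s t : E → V} {φ : E → Q}

theorem tau_le (hG : MG s t φ) {μ : ℕ} (hμ : ∀ x y, x ≠ y → mult s t x y ≤ μ) (y z : V)
    (e : E) (u : V) : τ5 s t φ y z e u ≤ μ := by
  unfold τ5
  norm_cast
  set S := univ.filter fun p : E × E => Inc s t p.2 y ∧ Inc s t p.2 z ∧ φ p.2 = φ e ∧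
    Inc s t p.1 y ∧ oth s t e u = oth s t p.1 y with hS
  by_cases hv : y = oth s t e u
  · have h0 : S = ∅ := by
      rw [hS, Finset.filter_eq_empty_iff]
      rintro ⟨g, h⟩ _ ⟨_, _, _, h4, h5⟩
      refine oth_ne hG.lp h4 ?_
      dsimp only at h5
      rw [← h5, ← hv]
    rw [h0]
    simp
  · have h1 : S.card ≤ mult s t y (oth s t e u) := by
      unfold mult
      refine Finset.card_le_card_of_injOn (fun p => p.1) ?_ ?_
      · rintro ⟨g, h⟩ hp
        simp only [hS, Finset.coe_filter, Finset.mem_univ, true_and, Set.mem_setOf_eq] at hp ⊢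
        refine ⟨hp.2.2.2.1, ?_⟩
        rw [hp.2.2.2.2]
        exact inc_oth g y
      · rintro ⟨g, h⟩ hp ⟨g', h'⟩ hp' hgg
        simp only [hS, Finset.coe_filter, Finset.mem_univ, true_and, Set.mem_setOf_eq] at hp hp' hgg
        have : h = h' := eq_of_proper hG.pr hp.1 hp'.1 (by rw [hp.2.2.1, hp'.2.2.1])
        rw [this, hgg]
    exact h1.trans (hμ _ _ hv)

theorem one_le (hG : MG s t φ) (h : E) (v : V) :
    ∑ e, ((if φ h = φ e ∧ t e = v then 1 else 0) + (if φ h = φ e ∧ s e = v then 1 else 0) : ℕ)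
      ≤ 1 := by
  have h1 : ∀ e : E, ((if φ h = φ e ∧ t e = v then 1 else 0) +
      (if φ h = φ e ∧ s e = v then 1 else 0) : ℕ) ≤ if φ h = φ e ∧ Inc s t e v then 1 else 0 := by
    intro e
    have hne := hG.lp e
    by_cases ha : φ h = φ e
    · by_cases hb : t e = v
      · have hc : s e ≠ v := fun hc => hne (hc.trans hb.symm)
        simp [ha, hb, hc, Inc]
      · by_cases hc : s e = v
        · simp [ha, hb, hc, Inc]
        · simp [ha, hb, hc, Inc]
    · simp [ha]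
  refine (Finset.sum_le_sum fun e _ => h1 e).trans ?_
  rw [← Finset.card_filter]
  refine Finset.card_le_one.mpr ?_
  intro a ha b hb
  rw [Finset.mem_filter] at ha hb
  exact eq_of_proper hG.pr ha.2.2 hb.2.2 (by rw [← ha.2.1, ← hb.2.1])

theorem total (hG : MG s t φ) {μ : ℕ} (hμ : ∀ x y, x ≠ y → mult s t x y ≤ μ) {y z : V}
    (hyz : y ≠ z) :
    ∑ e, (τ5 s t φ y z e (s e) + τ5 s t φ y z e (t e)) ≤ μ * Fintype.card Q := by
  have h1 : ∀ e, (τ5 s t φ y z e (s e) + τ5 s t φ y z e (t e)) =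
      ((∑ p : E × E, if Inc s t p.2 y ∧ Inc s t p.2 z ∧ Inc s t p.1 y then
        ((if φ p.2 = φ e ∧ t e = oth s t p.1 y then 1 else 0) +
          (if φ p.2 = φ e ∧ s e = oth s t p.1 y then 1 else 0)) else 0 : ℕ) : ℝ) := by
    intro e
    unfold τ5
    rw [oth_s, oth_t hG.lp]
    norm_cast
    rw [Finset.card_filter, Finset.card_filter, ← Finset.sum_add_distrib]
    refine Finset.sum_congr rfl fun p _ => ?_
    by_cases ha : Inc s t p.2 y <;> by_cases hb : Inc s t p.2 z <;> by_cases hc : Inc s t p.1 y <;>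
      simp [ha, hb, hc]
  rw [Finset.sum_congr rfl fun e _ => h1 e]
  norm_cast
  rw [Finset.sum_comm]
  have h2 : ∀ p : E × E, (∑ e, if Inc s t p.2 y ∧ Inc s t p.2 z ∧ Inc s t p.1 y then
        ((if φ p.2 = φ e ∧ t e = oth s t p.1 y then 1 else 0) +
          (if φ p.2 = φ e ∧ s e = oth s t p.1 y then 1 else 0)) else 0 : ℕ) ≤
      if Inc s t p.2 y ∧ Inc s t p.2 z ∧ Inc s t p.1 y then 1 else 0 := by
    intro p
    by_cases ha : Inc s t p.2 y ∧ Inc s t p.2 z ∧ Inc s t p.1 y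
    · simp only [if_pos ha]
      exact one_le hG p.2 _
    · simp only [if_neg ha]
      simp
  refine (Finset.sum_le_sum fun p _ => h2 p).trans ?_
  rw [← Finset.card_filter]
  have h3 : (univ.filter fun p : E × E => Inc s t p.2 y ∧ Inc s t p.2 z ∧ Inc s t p.1 y) =
      (univ.filter fun g => Inc s t g y) ×ˢ (univ.filter fun h => Inc s t h y ∧ Inc s t h z) := by
    ext p
    simp only [Finset.mem_filter, Finset.mem_univ, true_and, Finset.mem_product]
    tauto
  rw [h3, Finset.card_product, mul_comm]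
  exact Nat.mul_le_mul (hμ y z hyz) (hG.dg y).le

theorem eval (hG : MG s t φ) (c : V → Q) (y z : V) :
    (∑ e, if Cf s t φ c e then τ5 s t φ y z e (cu s t φ c e) else 0 : ℝ) = P5 s t φ c y z := by
  have h1 : ∀ e, (if Cf s t φ c e then τ5 s t φ y z e (cu s t φ c e) else 0 : ℝ) =
      ((∑ p : E × E, if Cf s t φ c e ∧ Inc s t p.2 y ∧ Inc s t p.2 z ∧ φ p.2 = φ e ∧
        Inc s t p.1 y ∧ cv s t φ c e = oth s t p.1 y then 1 else 0 : ℕ) : ℝ) := by
    intro e
    by_cases hc : Cf s t φ c e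
    · rw [if_pos hc]
      unfold τ5
      rw [oth_cu hG.lp]
      norm_cast
      rw [Finset.card_filter]
      refine Finset.sum_congr rfl fun p _ => ?_
      simp [hc]
    · rw [if_neg hc]
      simp [hc]
  rw [Finset.sum_congr rfl fun e _ => h1 e]
  unfold P5
  norm_cast
  rw [Finset.card_filter, Fintype.sum_prod_type]

theorem near (hG : MG s t φ) {y z : V} (hyz : y ≠ z) {e : E} {u : V} (he : Inc s t e u)
    (h : τ5 s t φ y z e u ≠ 0) : y ∈ ball (SG s t) u 2 ∧ z ∈ ball (SG s t) u 3 := by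
  unfold τ5 at h
  have h' : (univ.filter fun p : E × E => Inc s t p.2 y ∧ Inc s t p.2 z ∧ φ p.2 = φ e ∧
    Inc s t p.1 y ∧ oth s t e u = oth s t p.1 y).card ≠ 0 := by exact_mod_cast h
  rw [Finset.card_ne_zero] at h'
  obtain ⟨⟨g, k⟩, hp⟩ := h'
  simp only [Finset.mem_filter, Finset.mem_univ, true_and] at hp
  obtain ⟨h1, h2, _, h4, h5⟩ := hp
  have a1 : oth s t e u ∈ CN (SG s t) u := mem_CN.mpr (Or.inr (adj_oth hG.lp he))
  have a2 : y ∈ CN (SG s t) (oth s t e u) := by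
    rw [h5]
    exact mem_CN.mpr (Or.inr (adj_oth hG.lp h4).symm)
  have a3 : z ∈ CN (SG s t) y := mem_CN.mpr (Or.inr ⟨hyz, k, h1, h2⟩)
  exact ⟨ball_step a1 1 (ball_step a2 0 (mem_ball_self _ y 0)),
    ball_step a1 2 (ball_step a2 1 (ball_step a3 0 (mem_ball_self _ z 0)))⟩

end

end FA5

theorem FA5_thm (h1 : S_WTG) : S_FA5 := by
  intro V E Q _ _ _ s t φ hG μ hμ y z hyz
  have hτ : ∀ e u, 0 ≤ τ5 s t φ y z e u := by
    intro e u
    unfold τ5
    exact Nat.cast_nonneg _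
  obtain ⟨w1, w2, w3, w4, w5⟩ := h1 V E Q s t φ hG.lp hG.pr (τ5 s t φ y z) hτ
  refine ⟨fun u β => ⟨w1 u β, w2 μ (Nat.cast_nonneg _) (fun e u _ => FA5.tau_le hG hμ y z e u) u β⟩,
    ?_, ?_, ?_⟩
  · rw [w3]
    exact FA5.total hG hμ hyz
  · intro c hc
    rw [w4 c hc]
    exact FA5.eval hG c y z
  · intro u β h
    obtain ⟨e, he, h'⟩ := w5 u β h
    exact FA5.near hG hyz he h'

end Pool.Agent.TCM
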