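import Pool.Agent.TCM.Defs
import Pool.Agent.Lib_helper19.TC.Defs

set_option autoImplicit false

/-!
# Total colouring of multigraphs with a constant additive error: statements of the modules
-/

namespace Pool.Agent.TCM

open Finset Classical TC19

/-! ### Part 1: vertex colourings -/

/-- MOV: the moves. -/
def S_MOV : Prop :=
  ∀ (V Q : Type) [Fintype V] [Fintype Q] (G : SimpleGraph V) (c : V → Q),
    (∀ v, (Nb G v).card < Fintype.card Q) → (∀ x y, G.Adj x y → c x ≠ c y) →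
    ∃ mv : V → (Q × Bool) → V → Option Q, Moves G c mv

/-- CMP: compatible moves can be made at the same time. -/
def S_CMP : Prop :=
  ∀ (V Q O : Type) [Fintype V] [Fintype Q] [Fintype O] (G : SimpleGraph V) (c : V → Q)
    (mv : V → O → V → Option Q), Moves G c mv → (∀ x y, G.Adj x y → c x ≠ c y) →
    ∀ σ : V → Option O, (∀ u u' o o', u ≠ u' → σ u = some o → σ u' = some o' →
      ¬ Incomp G mv (u, o) (u', o')) →
    ∃ c' : V → Q, (∀ x y, G.Adj x y → c' x ≠ c' y) ∧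
      ∀ ω : V → Q → ℝ, (∀ x β, 0 ≤ ω x β) → ∑ x, ω x (c' x) ≤ ∑ u, gain mv c ω u (σ u)

/-- CNT: the number of moves which are not compatible with a given move. -/
def S_CNT : Prop :=
  ∀ (V Q O : Type) [Fintype V] [Fintype Q] [Fintype O] (G : SimpleGraph V) (c : V → Q)
    (mv : V → O → V → Option Q), Moves G c mv → (∀ v, (Nb G v).card < Fintype.card Q) →
    ∀ p : V × O, (univ.filter fun p' => Incomp G mv p p').card ≤ 16 * Fintype.card Q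

/-- EXP: the expectation of the functional after the moves. -/
def S_EXP : Prop :=
  ∀ (V Q O : Type) [Fintype V] [Fintype Q] [Fintype O] (G : SimpleGraph V) (c : V → Q)
    (mv : V → O → V → Option Q), Moves G c mv → Fintype.card O = 2 * Fintype.card Q →
    2 ≤ Fintype.card Q → ∀ N : ℕ, 0 < N → ∀ ω : V → Q → ℝ, (∀ x β, 0 ≤ ω x β) →
    ∑ u, avg (fun w : Fin N × O => gain mv c ω u (opt w)) ≤
      (1 - ((Fintype.card Q : ℝ) - 1) / (2 * Fintype.card Q * N)) * ∑ u, ω u (c u) +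
        2 / (Fintype.card Q * N) * ∑ x, ∑ β, ω x β

/-- EXB: exponential moments of small functions. -/
def S_EXB : Prop :=
  ∀ (ι Ω : Type) [Fintype Ω] [Nonempty Ω] (Y : Finset ι) (g : ι → Ω → ℝ) (s δ φ : ℝ), 0 ≤ s →
    0 ≤ φ → δ ≤ 1 → (∀ i ∈ Y, ∀ ω, 0 ≤ g i ω ∧ s * g i ω ≤ δ) →
    ∏ i ∈ Y, (1 + φ * avg (fun ω => Real.exp (s * g i ω) - 1)) ≤
      Real.exp (φ * (1 + δ) * s * ∑ i ∈ Y, avg (g i))

/-- RND: one round of moves. -/
def S_RND : Prop :=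
  ∀ (V Q O J : Type) [Fintype V] [Fintype Q] [Fintype O] [Fintype J] (G : SimpleGraph V)
    (c : V → Q) (mv : V → O → V → Option Q), Moves G c mv →
    (∀ x y, G.Adj x y → c x ≠ c y) → (∀ v, (Nb G v).card < Fintype.card Q) →
    Fintype.card O = 2 * Fintype.card Q → 10 ^ 4 ≤ Fintype.card Q →
    ∀ (ω : J → V → Q → ℝ) (η M : ℝ) (N : ℕ), 0 < η → (∀ j x β, 0 ≤ ω j x β ∧ ω j x β ≤ η) →
    (∀ j, ∑ x, ∑ β, ω j x β ≤ Fintype.card Q) →
    (∀ u, (univ.filter fun j => ∃ x ∈ CN G u, ∃ β, ω j x β ≠ 0).card ≤ N) →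
    N * Real.exp (-(1 / 10 ^ 18 / η)) ≤ 1 / 10 ^ 11 → 41 / 10 ≤ M →
    (∀ j, ∑ u, ω j u (c u) ≤ M) →
    ∃ c' : V → Q, (∀ x y, G.Adj x y → c' x ≠ c' y) ∧ ∀ j, ∑ u, ω j u (c' u) ≤ M - 1 / 10 ^ 8

/-- PH1: a proper vertex colouring for which all the functionals are small. -/
def S_PH1 : Prop :=
  ∀ (V Q J : Type) [Fintype V] [Fintype Q] [Fintype J] (G : SimpleGraph V),
    (∀ v, (Nb G v).card < Fintype.card Q) → 10 ^ 4 ≤ Fintype.card Q →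
    ∀ (ω : J → V → Q → ℝ) (η : ℝ) (N : ℕ), 0 < η → (∀ j x β, 0 ≤ ω j x β ∧ ω j x β ≤ η) →
    (∀ j, ∑ x, ∑ β, ω j x β ≤ Fintype.card Q) →
    (∀ u, (univ.filter fun j => ∃ x ∈ CN G u, ∃ β, ω j x β ≠ 0).card ≤ N) →
    N * Real.exp (-(1 / 10 ^ 18 / η)) ≤ 1 / 10 ^ 11 →
    ∃ c : V → Q, (∀ x y, G.Adj x y → c x ≠ c y) ∧ ∀ j, ∑ u, ω j u (c u) ≤ 41 / 10

/-! ### The functionals

For `τ : E → V → ℝ` the functional is `∑_e [e at u, φ e = β] τ e u`. -/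

/-- the weight function given by `τ` -/
noncomputable def wt {V E Q : Type} [Fintype E] (s t : E → V) (φ : E → Q) (τ : E → V → ℝ) (u : V)
    (β : Q) : ℝ := ∑ e, if Inc s t e u ∧ φ e = β then τ e u else 0

/-- WTG: general properties of the functionals. -/
def S_WTG : Prop :=
  ∀ (V E Q : Type) [Fintype V] [Fintype E] [Fintype Q] (s t : E → V) (φ : E → Q),
    (∀ e, s e ≠ t e) → Proper s t Set.univ φ → ∀ τ : E → V → ℝ, (∀ e u, 0 ≤ τ e u) →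
    (∀ u β, 0 ≤ wt s t φ τ u β) ∧
    (∀ C : ℝ, 0 ≤ C → (∀ e u, Inc s t e u → τ e u ≤ C) → ∀ u β, wt s t φ τ u β ≤ C) ∧
    (∑ u, ∑ β, wt s t φ τ u β = ∑ e, (τ e (s e) + τ e (t e))) ∧
    (∀ c : V → Q, VC s t c → ∑ u, wt s t φ τ u (c u) =
      ∑ e, if Cf s t φ c e then τ e (cu s t φ c e) else 0) ∧
    (∀ u β, wt s t φ τ u β ≠ 0 → ∃ e, Inc s t e u ∧ τ e u ≠ 0)

/-- the weights for `P1 z` -/
noncomputable def τ1 {V E : Type} [Fintype E] (s t : E → V) (z : V) (e : E) (u : V) : ℝ :=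
  (univ.filter fun g => Inc s t g z ∧ oth s t e u = oth s t g z).card

/-- the weights for `P2 z` -/
noncomputable def τ2 {V E Q : Type} [Fintype E] (s t : E → V) (φ : E → Q) (z : V) (e : E)
    (u : V) : ℝ :=
  (univ.filter fun p : E × E => Inc s t p.2 z ∧ φ p.2 = φ e ∧ Inc s t p.1 (oth s t p.2 z) ∧
    oth s t e u = oth s t p.1 (oth s t p.2 z)).card

/-- the weights for `R v` -/
noncomputable def τ3 {V E : Type} (s t : E → V) (v : V) (e : E) (u : V) : ℝ :=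
  if oth s t e u = v then 1 else 0

/-- the weights for `P5 y z` -/
noncomputable def τ5 {V E Q : Type} [Fintype E] (s t : E → V) (φ : E → Q) (y z : V) (e : E)
    (u : V) : ℝ :=
  (univ.filter fun p : E × E => Inc s t p.2 y ∧ Inc s t p.2 z ∧ φ p.2 = φ e ∧ Inc s t p.1 y ∧
    oth s t e u = oth s t p.1 y).card

/-- the functional for `Em v a` -/
noncomputable def w4 {V E Q : Type} [Fintype E] (s t : E → V) (φ : E → Q) (v : V) (a : Q) (u : V)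
    (β : Q) : ℝ :=
  if β = a then
    ((univ.filter fun g => Inc s t g v ∧ oth s t g v = u).card : ℝ) +
      (univ.filter fun p : E × E => Inc s t p.1 v ∧ Inc s t p.2 (oth s t p.1 v) ∧ φ p.2 = a ∧
        oth s t p.2 (oth s t p.1 v) = u).card
  else 0

/-- FA1: the functional for `P1 z`. -/
def S_FA1 : Prop :=
  ∀ (V E Q : Type) [Fintype V] [Fintype E] [Fintype Q] (s t : E → V) (φ : E → Q), MG s t φ →
    ∀ μ : ℕ, (∀ x y, x ≠ y → mult s t x y ≤ μ) → ∀ z : V,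
    (∀ u β, 0 ≤ wt s t φ (τ1 s t z) u β ∧ wt s t φ (τ1 s t z) u β ≤ μ) ∧
    (∑ u, ∑ β, wt s t φ (τ1 s t z) u β ≤ (Fintype.card Q : ℝ) ^ 2) ∧
    (∀ c : V → Q, VC s t c → ∑ u, wt s t φ (τ1 s t z) u (c u) = P1 s t φ c z) ∧
    (∀ u β, wt s t φ (τ1 s t z) u β ≠ 0 → z ∈ ball (SG s t) u 2)

/-- FA2: the functional for `P2 z`. -/
def S_FA2 : Prop :=
  ∀ (V E Q : Type) [Fintype V] [Fintype E] [Fintype Q] (s t : E → V) (φ : E → Q), MG s t φ →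
    ∀ μ : ℕ, (∀ x y, x ≠ y → mult s t x y ≤ μ) → ∀ z : V,
    (∀ u β, 0 ≤ wt s t φ (τ2 s t φ z) u β ∧ wt s t φ (τ2 s t φ z) u β ≤ μ) ∧
    (∑ u, ∑ β, wt s t φ (τ2 s t φ z) u β ≤ (Fintype.card Q : ℝ) ^ 2) ∧
    (∀ c : V → Q, VC s t c → ∑ u, wt s t φ (τ2 s t φ z) u (c u) = P2 s t φ c z) ∧
    (∀ u β, wt s t φ (τ2 s t φ z) u β ≠ 0 → z ∈ ball (SG s t) u 3)

/-- FA3: the functional for `R v`. -/
def S_FA3 : Prop :=
  ∀ (V E Q : Type) [Fintype V] [Fintype E] [Fintype Q] (s t : E → V) (φ : E → Q), MG s t φ →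
    ∀ v : V,
    (∀ u β, 0 ≤ wt s t φ (τ3 s t v) u β ∧ wt s t φ (τ3 s t v) u β ≤ 1) ∧
    (∑ u, ∑ β, wt s t φ (τ3 s t v) u β ≤ Fintype.card Q) ∧
    (∀ c : V → Q, VC s t c → ∑ u, wt s t φ (τ3 s t v) u (c u) = R s t φ c v) ∧
    (∀ u β, wt s t φ (τ3 s t v) u β ≠ 0 → v ∈ ball (SG s t) u 1)

/-- FA4: the functional for `Em v a`. -/
def S_FA4 : Prop :=
  ∀ (V E Q : Type) [Fintype V] [Fintype E] [Fintype Q] (s t : E → V) (φ : E → Q), MG s t φ →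
    ∀ μ : ℕ, (∀ x y, x ≠ y → mult s t x y ≤ μ) → ∀ (v : V) (a : Q),
    (∀ u β, 0 ≤ w4 s t φ v a u β ∧ w4 s t φ v a u β ≤ 2 * μ) ∧
    (∑ u, ∑ β, w4 s t φ v a u β ≤ 2 * Fintype.card Q) ∧
    (∀ c : V → Q, ∑ u, w4 s t φ v a u (c u) = Em s t φ c v a) ∧
    (∀ u β, w4 s t φ v a u β ≠ 0 → v ∈ ball (SG s t) u 2)

/-- FA5: the functional for `P5 y z`. -/
def S_FA5 : Prop :=
  ∀ (V E Q : Type) [Fintype V] [Fintype E] [Fintype Q] (s t : E → V) (φ : E → Q), MG s t φ →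
    ∀ μ : ℕ, (∀ x y, x ≠ y → mult s t x y ≤ μ) → ∀ y z : V, y ≠ z →
    (∀ u β, 0 ≤ wt s t φ (τ5 s t φ y z) u β ∧ wt s t φ (τ5 s t φ y z) u β ≤ μ) ∧
    (∑ u, ∑ β, wt s t φ (τ5 s t φ y z) u β ≤ μ * Fintype.card Q) ∧
    (∀ c : V → Q, VC s t c → ∑ u, wt s t φ (τ5 s t φ y z) u (c u) = P5 s t φ c y z) ∧
    (∀ u β, wt s t φ (τ5 s t φ y z) u β ≠ 0 → y ∈ ball (SG s t) u 2 ∧ z ∈ ball (SG s t) u 3)

/-- the constant in the bounds -/
def Lam (q : ℕ) : ℕ := 10 ^ 20 * (Nat.log 2 q + 1)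

/-- VCO: the vertex colouring. -/
def S_VCO : Prop :=
  ∀ (V E Q : Type) [Fintype V] [Fintype E] [Fintype Q] (s t : E → V) (φ : E → Q), MG s t φ →
    10 ^ 4 ≤ Fintype.card Q → ∀ μ : ℕ, 1 ≤ μ → (∀ x y, x ≠ y → mult s t x y ≤ μ) →
    μ * Lam (Fintype.card Q) ≤ Fintype.card Q → ∃ c : V → Q, VC s t c ∧
      (∀ z, (P1 s t φ c z : ℝ) ≤ 41 / 10 * Fintype.card Q) ∧
      (∀ z, (P2 s t φ c z : ℝ) ≤ 41 / 10 * Fintype.card Q) ∧
      (∀ v, (R s t φ c v : ℝ) ≤ 41 / 10 * Lam (Fintype.card Q)) ∧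
      (∀ v a, (Em s t φ c v a : ℝ) ≤ 82 / 10 * (μ * Lam (Fintype.card Q))) ∧
      ∀ y z, y ≠ z → (P5 s t φ c y z : ℝ) ≤ 41 / 10 * (μ * Lam (Fintype.card Q))

/-! ### Part 2: the edge colouring -/

/-- FIX: the new edge colouring. -/
def S_FIX : Prop :=
  ∀ (V E Q : Type) [Fintype V] [Fintype E] [Fintype Q] (s t : E → V) (φ : E → Q), MG s t φ →
    ∀ c : V → Q, VC s t c → ∀ β : E → Q, (∀ e, Cf s t φ c e → Good s t φ c e (β e)) →
    (∀ e e', e ≠ e' → Cf s t φ c e → Cf s t φ c e' → ¬ Coll s t φ c e (β e) e' (β e')) →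
    ∃ ψ : E → Q, Proper s t {h | ¬ Unc s t φ c β h} ψ ∧
      ∀ h, ¬ Unc s t φ c β h → ∀ v, Inc s t h v → ψ h ≠ c v

/-- DGR: the degrees of the uncoloured edges. -/
def S_DGR : Prop :=
  ∀ (V E Q : Type) [Fintype V] [Fintype E] [Fintype Q] (s t : E → V) (φ : E → Q), MG s t φ →
    ∀ c : V → Q, VC s t c → ∀ β : E → Q, ∀ z : V,
    (univ.filter fun h => Unc s t φ c β h ∧ Inc s t h z).card ≤
      1 + (univ.filter fun e => Cf s t φ c e ∧ HA s t φ c z e (β e)).card +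
        (univ.filter fun e => Cf s t φ c e ∧ HB s t φ c z e (β e)).card

/-- MUL: the multiplicities of the uncoloured edges. -/
def S_MUL : Prop :=
  ∀ (V E Q : Type) [Fintype V] [Fintype E] [Fintype Q] (s t : E → V) (φ : E → Q), MG s t φ →
    ∀ c : V → Q, VC s t c → ∀ β : E → Q, ∀ y z : V, y ≠ z →
    (univ.filter fun h => Unc s t φ c β h ∧ Inc s t h y ∧ Inc s t h z).card ≤
      2 + (univ.filter fun e => Cf s t φ c e ∧ HC s t φ c y z e (β e)).card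

/-- BAD: the number of colours which are not good. -/
def S_BAD : Prop :=
  ∀ (V E Q : Type) [Fintype V] [Fintype E] [Fintype Q] (s t : E → V) (φ : E → Q), MG s t φ →
    ∀ c : V → Q, VC s t c → ∀ e, Cf s t φ c e →
    (univ.filter fun b => ¬ Good s t φ c e b).card ≤
      2 + R s t φ c (cu s t φ c e) + R s t φ c (cv s t φ c e) + Em s t φ c (cv s t φ c e) (φ e)

/-- COL: the number of changes which are not compatible with a given one. -/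
def S_COL : Prop :=
  ∀ (V E Q : Type) [Fintype V] [Fintype E] [Fintype Q] (s t : E → V) (φ : E → Q), MG s t φ →
    ∀ c : V → Q, VC s t c → ∀ R₀ E₀ : ℕ, (∀ v, R s t φ c v ≤ R₀) → (∀ v a, Em s t φ c v a ≤ E₀) →
    ∀ e b, Cf s t φ c e →
    (univ.filter fun p : E × Q => Cf s t φ c p.1 ∧ Coll s t φ c e b p.1 p.2).card ≤
      4 * (1 + 2 * R₀ + E₀)

/-- HTA: the first kind of hits. -/
def S_HTA : Prop :=
  ∀ (V E Q : Type) [Fintype V] [Fintype E] [Fintype Q] (s t : E → V) (φ : E → Q), MG s t φ →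
    ∀ c : V → Q, VC s t c →
    (∀ z, (univ.filter fun p : E × Q => Cf s t φ c p.1 ∧ HA s t φ c z p.1 p.2).card ≤
      dg s t univ z + P1 s t φ c z) ∧
    ∀ e b, Cf s t φ c e → (univ.filter fun z => HA s t φ c z e b).card ≤ 2

/-- HTB: the second kind of hits. -/
def S_HTB : Prop :=
  ∀ (V E Q : Type) [Fintype V] [Fintype E] [Fintype Q] (s t : E → V) (φ : E → Q), MG s t φ →
    ∀ c : V → Q, VC s t c →
    (∀ z, (univ.filter fun p : E × Q => Cf s t φ c p.1 ∧ HB s t φ c z p.1 p.2).card ≤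
      P2 s t φ c z) ∧
    ∀ e b, Cf s t φ c e → (univ.filter fun z => HB s t φ c z e b).card ≤ 1

/-- HTC: the third kind of hits. -/
def S_HTC : Prop :=
  ∀ (V E Q : Type) [Fintype V] [Fintype E] [Fintype Q] (s t : E → V) (φ : E → Q), MG s t φ →
    ∀ c : V → Q, VC s t c →
    (∀ y z, y ≠ z →
      (univ.filter fun p : E × Q => Cf s t φ c p.1 ∧ HC s t φ c y z p.1 p.2).card ≤
      P5 s t φ c y z + P5 s t φ c z y) ∧
    ∀ e b, Cf s t φ c e →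
      (univ.filter fun p : V × V => p.1 ≠ p.2 ∧ HC s t φ c p.1 p.2 e b).card ≤ 2

/-- TUP: the local lemma for incompatible pairs and for many hits. -/
def S_TUP : Prop :=
  ∀ (ι T : Type) [Fintype ι] [Fintype T] (r : ℕ), 0 < r → ∀ (col : ι × Fin r → ι × Fin r → Prop)
    (H : T → Finset (ι × Fin r)) (K : T → ℕ) (φ : ℝ), 1 ≤ φ → (∀ t, 1 ≤ K t) →
    (∀ p p', col p p' → col p' p) →
    (∀ i, 1 ≤ φ * (1 - (∑ j : Fin r,
      2 * ((univ.filter fun p' => p'.1 ≠ i ∧ col (i, j) p').card : ℝ) * (φ / r) ^ 2 +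
      ∑ t, ∑ j : Fin r, if (i, j) ∈ H t then
        (((H t).card.choose (K t - 1) : ℕ) : ℝ) * (φ / r) ^ K t else 0))) →
    ∃ x : ι → Fin r, (∀ i i', i ≠ i' → ¬ col (i, x i) (i', x i')) ∧
      ∀ t, (univ.filter fun i => (i, x i) ∈ H t).card < K t

/-- NUM: the numbers. -/
def S_NUM : Prop :=
  ∀ ρ : ℝ, 0 ≤ ρ → ρ ≤ 1001 / 1000 →
    1 ≤ (106 / 100 : ℝ) * (1 - (2 * (106 / 100) ^ 2 * (1 / 10 ^ 4 * ρ) +
      (2 * (106 / 100) * (106 / 100 * (51 / 10) * ρ) ^ 17 / (Nat.factorial 17 : ℝ) +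
      106 / 100 * (106 / 100 * (41 / 10) * ρ) ^ 13 / (Nat.factorial 13 : ℝ) +
      2 * (106 / 100) ^ 2 * (1 / 10 ^ 5 * ρ))))

/-- PH2: the choice of the new colours. -/
def S_PH2 : Prop :=
  ∀ (V E Q : Type) [Fintype V] [Fintype E] [Fintype Q] (s t : E → V) (φ : E → Q), MG s t φ →
    ∀ c : V → Q, VC s t c → ∀ X : ℝ, 1 ≤ X → 10 ^ 6 * X ≤ Fintype.card Q →
      (∀ z, (P1 s t φ c z : ℝ) ≤ 41 / 10 * Fintype.card Q) →
      (∀ z, (P2 s t φ c z : ℝ) ≤ 41 / 10 * Fintype.card Q) →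
      (∀ v, (R s t φ c v : ℝ) ≤ 41 / 10 * X) →
      (∀ v a, (Em s t φ c v a : ℝ) ≤ 82 / 10 * X) →
      (∀ y z, y ≠ z → (P5 s t φ c y z : ℝ) ≤ 41 / 10 * X) →
    ∃ β : E → Q, (∀ e, Cf s t φ c e → Good s t φ c e (β e)) ∧
      (∀ e e', e ≠ e' → Cf s t φ c e → Cf s t φ c e' → ¬ Coll s t φ c e (β e) e' (β e')) ∧
      (∀ z, (univ.filter fun e => Cf s t φ c e ∧ HA s t φ c z e (β e)).card ≤ 17) ∧
      (∀ z, (univ.filter fun e => Cf s t φ c e ∧ HB s t φ c z e (β e)).card ≤ 13) ∧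
      ∀ y z, y ≠ z →
        (univ.filter fun e => Cf s t φ c e ∧ HC s t φ c y z e (β e)).card ≤ 1

/-- LFT: the uncoloured edges get new colours. -/
def S_LFT : Prop :=
  ∀ (V E Q : Type) [Fintype V] [Fintype E] [Fintype Q] (s t : E → V) (c : V → Q) (U : Set E)
    (ψ : E → Q) (D m : ℕ), (∀ e, s e ≠ t e) → VC s t c → Proper s t {h | h ∉ U} ψ →
    (∀ h, h ∉ U → ∀ v, Inc s t h v → ψ h ≠ c v) →
    (∀ z, (univ.filter fun h => h ∈ U ∧ Inc s t h z).card ≤ D) →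
    (∀ y z, y ≠ z → (univ.filter fun h => h ∈ U ∧ Inc s t h y ∧ Inc s t h z).card ≤ m) →
    ∃ (c' : E → Q ⊕ Fin (D + m)) (g : V → Q ⊕ Fin (D + m)), TotalCol s t c' g

/-- THM: the main theorem for multigraphs with small multiplicities. -/
def S_THM : Prop :=
  ∀ (V E Q : Type) [Fintype V] [Fintype E] [Fintype Q] (s t : E → V) (φ : E → Q), MG s t φ →
    ∀ μ : ℕ, 1 ≤ μ → (∀ x y, x ≠ y → mult s t x y ≤ μ) →
    10 ^ 6 * (μ * Lam (Fintype.card Q)) ≤ Fintype.card Q →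
    ∃ (c' : E → Q ⊕ Fin 34) (g : V → Q ⊕ Fin 34), TotalCol s t c' g

/-- FIN: the final theorem. -/
def S_FIN : Prop :=
  ∃ K₀ : ℕ, ∀ (n m : ℕ) (src tgt : Fin m → Fin n), (∀ e, src e ≠ tgt e) → ∀ Δ μ k : ℕ,
    (∀ v, Deg src tgt v ≤ Δ) → (∀ u v, u ≠ v → Mult src tgt u v ≤ μ) →
    (Δ + μ ≤ k → TotCol src tgt (k + K₀)) ∧
    (K₀ ≤ k → (Δ + μ ≤ k ∨ (EdgeCol src tgt k ∧ Δ < k ∧ K₀ * (μ * (Nat.log 2 k + 1)) ≤ k)) →
      TotCol src tgt (k + 34))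

end Pool.Agent.TCM
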