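import Pool.Agent.TCM.Basic
import Pool.Agent.TCM.Stmts
import Pool.Agent.Lib_helper19.TC.Final3

set_option autoImplicit false

/-!
# FIN: the final theorem
-/

namespace Pool.Agent.TCM

open Finset Classical TC19

namespace FIN

variable {n m : ℕ} {src tgt : Fin m → Fin n}

theorem mono {k k' : ℕ} (h : TotCol src tgt k) (hk : k ≤ k') : TotCol src tgt k' := by
  obtain ⟨c, h1, h2, h3⟩ := h
  refine ⟨fun x => Fin.castLE hk (c x), ?_, ?_, ?_⟩
  · intro e h
    exact h1 e (Fin.castLE_injective hk h)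
  · intro e f hne v hv hv' h
    exact h2 e f hne v hv hv' (Fin.castLE_injective hk h)
  · intro e v hv h
    exact h3 e v hv (Fin.castLE_injective hk h)

theorem tc_map {V E K K' : Type} (s t : E → V) (f : K → K') (hf : Function.Injective f)
    {c : E → K} {g : V → K} (h : TotalCol s t c g) :
    TotalCol s t (fun e => f (c e)) (fun v => f (g v)) := by
  obtain ⟨h1, h2, h3⟩ := h
  refine ⟨?_, ?_, ?_⟩
  · intro e he e' he' hne v hv hv' h
    exact h1 e he e' he' hne v hv hv' (hf h)
  · intro v e he hv h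
    exact h2 v e he hv (hf h)
  · intro u v huv h
    exact h3 u v huv (hf h)

/-- greedy colouring -/
theorem greedy {V K : Type} [Fintype V] [Fintype K] (G : SimpleGraph V)
    (hD : ∀ v, (Nb G v).card < Fintype.card K) (hK : Nonempty (V → K)) :
    ∃ g : V → K, ∀ u w, G.Adj u w → g u ≠ g w := by
  have key : ∀ X : Finset V, ∃ g : V → K, ∀ u ∈ X, ∀ w ∈ X, G.Adj u w → g u ≠ g w := by
    intro X
    induction X using Finset.induction_on with
    | empty => exact ⟨hK.some, fun u hu => absurd hu (Finset.notMem_empty _)⟩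
    | insert v X hv ih =>
      obtain ⟨g, hg⟩ := ih
      have h1 : ((Nb G v).image g).card < Fintype.card K :=
        lt_of_le_of_lt Finset.card_image_le (hD v)
      obtain ⟨a, ha⟩ : ∃ a : K, a ∉ (Nb G v).image g := by
        by_contra hcon
        push Not at hcon
        have : (Nb G v).image g = univ := Finset.eq_univ_iff_forall.mpr hcon
        rw [this, Finset.card_univ] at h1
        exact lt_irrefl _ h1
      have ha' : ∀ u, G.Adj v u → g u ≠ a := by
        intro u hu h
        refine ha (Finset.mem_image.mpr ⟨u, ?_, h⟩)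
        simp only [Nb, mem_filter, mem_univ, true_and]
        exact hu
      refine ⟨Function.update g v a, ?_⟩
      intro u hu w hw hadj
      by_cases huv : u = v
      · subst huv
        rw [Function.update_self, Function.update_of_ne hadj.ne']
        exact (ha' w hadj).symm
      · by_cases hwv : w = v
        · subst hwv
          rw [Function.update_self, Function.update_of_ne huv]
          exact ha' u hadj.symm
        · rw [Function.update_of_ne huv, Function.update_of_ne hwv]
          exact hg u (Finset.mem_of_mem_insert_of_ne hu huv) w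
            (Finset.mem_of_mem_insert_of_ne hw hwv) hadj
  obtain ⟨g, hg⟩ := key univ
  exact ⟨g, fun u w h => hg u (mem_univ _) w (mem_univ _) h⟩

theorem nb_card (v : Fin n) : (Nb (SG src tgt) v).card ≤ Deg src tgt v := by
  have h := nbrs_le_deg src tgt univ v
  rw [← nb_eq] at h
  exact h

/-- small `k` -/
theorem small {Δ μ k K : ℕ} (hst : ∀ e, src e ≠ tgt e) (hΔ : ∀ v, Deg src tgt v ≤ Δ)
    (hμ : ∀ u v, u ≠ v → Mult src tgt u v ≤ μ) (hk : Δ + μ ≤ k) (hK : k < K) :
    TotCol src tgt (k + K) := by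
  obtain ⟨c, hc⟩ := edgeCol_of hst hΔ hμ (Or.inr hk)
  obtain ⟨g, hg⟩ := greedy (K := Fin K) (SG src tgt) (fun v => by
    rw [Fintype.card_fin]
    have h1 := nb_card (src := src) (tgt := tgt) v
    have h2 := hΔ v
    omega) ⟨fun _ => ⟨0, by omega⟩⟩
  apply totCol_of hst
  refine ⟨fun e => Fin.castAdd K (c e), fun v => Fin.natAdd k (g v), ?_, ?_, ?_⟩
  · intro e he f hf hne v hv hv' h
    exact hc e he f hf hne v hv hv' (Fin.castAdd_injective k K h)
  · intro v e _ _ h
    have h1 := congrArg Fin.val h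
    simp only [Fin.val_castAdd, Fin.val_natAdd] at h1
    have h2 := (c e).isLt
    omega
  · intro u v huv h
    exact hg u v huv (Fin.natAdd_injective K k h)

theorem growth (C : ℕ) : ∃ N : ℕ, ∀ k : ℕ, N ≤ k →
    (C + 1) * (10 ^ 26 * (Nat.log 2 k + 1)) ^ 6 ≤ k := by
  have h := tendsto_pow_const_div_const_pow_of_one_lt 6 (r := (2 : ℝ)) (by norm_num)
  set ε : ℝ := 1 / (2 * ((C : ℝ) + 1) * (10 ^ 26) ^ 6) with hε
  have hε0 : 0 < ε := by positivity
  have h2 := h.eventually (gt_mem_nhds hε0)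
  obtain ⟨N, hN⟩ := Filter.eventually_atTop.1 h2
  refine ⟨2 ^ N, fun k hk => ?_⟩
  have hk0 : k ≠ 0 := by
    have : 0 < 2 ^ N := by positivity
    omega
  have hl : N ≤ Nat.log 2 k := Nat.le_log_of_pow_le (by norm_num) hk
  have h3 := hN (Nat.log 2 k + 1) (by omega)
  have h4 : 2 ^ Nat.log 2 k ≤ k := Nat.pow_log_le_self 2 hk0
  have h4' : (2 : ℝ) ^ Nat.log 2 k ≤ k := by exact_mod_cast h4
  rw [div_lt_iff₀ (by positivity)] at h3
  push_cast at h3
  have h5 : ((C : ℝ) + 1) * (10 ^ 26 * ((Nat.log 2 k : ℝ) + 1)) ^ 6 ≤ k := by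
    have h6 : ε * 2 ^ (Nat.log 2 k + 1) * (((C : ℝ) + 1) * (10 ^ 26) ^ 6) =
        2 ^ Nat.log 2 k := by
      rw [hε]
      field_simp
      ring
    have h7 : 0 < ((C : ℝ) + 1) * (10 ^ 26) ^ 6 := by positivity
    calc ((C : ℝ) + 1) * (10 ^ 26 * ((Nat.log 2 k : ℝ) + 1)) ^ 6
        = ((Nat.log 2 k : ℝ) + 1) ^ 6 * (((C : ℝ) + 1) * (10 ^ 26) ^ 6) := by ring
      _ ≤ ε * 2 ^ (Nat.log 2 k + 1) * (((C : ℝ) + 1) * (10 ^ 26) ^ 6) :=
          mul_le_mul_of_nonneg_right h3.le h7.le
      _ = 2 ^ Nat.log 2 k := h6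
      _ ≤ k := h4'
  exact_mod_cast h5

theorem deg_lt {Δ μ k : ℕ} (hΔ : ∀ v, Deg src tgt v ≤ Δ)
    (hst : ∀ e, src e ≠ tgt e)
    (hμ : ∀ u v, u ≠ v → Mult src tgt u v ≤ μ) (hk0 : 0 < k) (hk : Δ + μ ≤ k ∨ Δ < k) (v : Fin n) :
    dg src tgt univ v < k := by
  rcases hk with hk | hk
  · rcases Nat.eq_zero_or_pos m with hm | hm
    · subst hm
      unfold dg
      have : (univ.filter fun e : Fin 0 => Inc src tgt e v) = ∅ := by
        ext e
        exact e.elim0
      rw [this, card_empty]
      exact hk0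
    · have e : Fin m := ⟨0, hm⟩
      have h1 := hμ (src e) (tgt e) (hst e)
      rw [← mult_eq (hst e)] at h1
      have h2 : 0 < mult src tgt (src e) (tgt e) := by
        unfold mult
        refine card_pos.2 ⟨e, ?_⟩
        simp only [mem_filter, mem_univ, true_and]
        exact ⟨Or.inl rfl, Or.inr rfl⟩
      rw [dg_eq]
      have h3 := hΔ v
      omega
  · rw [dg_eq]
    exact lt_of_le_of_lt (hΔ v) hk

end FIN

open FIN in
theorem FIN_thm (h1 : S_THM) : S_FIN := by
  obtain ⟨C, hC⟩ := cor_thick3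
  obtain ⟨N, hN⟩ := growth C
  set K₁ : ℕ := N + 10 ^ 26 with hK₁
  have main : ∀ (n m : ℕ) (src tgt : Fin m → Fin n), (∀ e, src e ≠ tgt e) → ∀ Δ μ k : ℕ,
      (∀ v, Deg src tgt v ≤ Δ) → (∀ u v, u ≠ v → Mult src tgt u v ≤ μ) → K₁ ≤ k →
      (Δ + μ ≤ k ∨ (EdgeCol src tgt k ∧ Δ < k ∧ K₁ * (μ * (Nat.log 2 k + 1)) ≤ k)) →
      TotCol src tgt (k + 34) := by
    intro n m src tgt hst Δ μ k hΔ hμ hk hor
    have hgr := hN k (by omega)
    set L : ℕ := 10 ^ 26 * (Nat.log 2 k + 1) with hL
    have hL1 : 1 ≤ L := by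
      rw [hL]
      have : 1 ≤ Nat.log 2 k + 1 := by omega
      nlinarith
    have hL6 : L ≤ L ^ 6 := by
      calc L = L ^ 1 := (pow_one L).symm
        _ ≤ L ^ 6 := Nat.pow_le_pow_right hL1 (by norm_num)
    have hk0 : 0 < k := by
      have : 0 < K₁ := by positivity
      omega
    by_cases hcase : 10 ^ 6 * ((max μ 1) * Lam k) ≤ k
    · -- the main theorem
      obtain ⟨φ, hφ⟩ := edgeCol_of (k := k) hst hΔ hμ (by
        rcases hor with h | h
        · exact Or.inr h
        · exact Or.inl h.1)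
      have hMG : MG src tgt φ := by
        refine ⟨hst, hφ, ?_⟩
        intro v
        rw [Fintype.card_fin]
        exact deg_lt hΔ hst hμ hk0 (by
          rcases hor with h | h
          · exact Or.inl h
          · exact Or.inr h.2.1) v
      obtain ⟨c', g, hcg⟩ := h1 (Fin n) (Fin m) (Fin k) src tgt φ hMG (max μ 1) (le_max_right _ _)
        (fun x y hxy => by
          rw [mult_eq hxy]
          exact (hμ x y hxy).trans (le_max_left _ _)) (by
          rw [Fintype.card_fin]
          exact hcase)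
      apply totCol_of hst
      exact ⟨_, _, tc_map src tgt finSumFinEquiv finSumFinEquiv.injective hcg⟩
    · push Not at hcase
      have e1 : 10 ^ 6 * ((max μ 1) * Lam k) = (max μ 1) * L := by
        rw [hL, Lam]
        ring
      rw [e1] at hcase
      have hμ2 : 1 < μ := by
        by_contra hcon
        have : max μ 1 = 1 := by omega
        rw [this, one_mul] at hcase
        have h3 : L ^ 6 ≤ (C + 1) * L ^ 6 := Nat.le_mul_of_pos_left _ (by omega)
        omega
      have hmax : max μ 1 = μ := by omega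
      rw [hmax] at hcase
      have hΔμ : Δ + μ ≤ k := by
        rcases hor with h | ⟨-, -, h⟩
        · exact h
        · exfalso
          have h3 : μ * L ≤ K₁ * (μ * (Nat.log 2 k + 1)) := by
            calc μ * L = 10 ^ 26 * (μ * (Nat.log 2 k + 1)) := by
                  rw [hL]
                  ring
              _ ≤ K₁ * (μ * (Nat.log 2 k + 1)) := Nat.mul_le_mul_right _ (by omega)
          omega
      -- thick case
      have hμk : μ ≤ k := by omega
      have h6 : C * k ^ 5 ≤ μ ^ 6 := by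
        have h7 : k ^ 6 ≤ (μ * L) ^ 6 := Nat.pow_le_pow_left hcase.le 6
        have h8 : (C * k ^ 5) * L ^ 6 ≤ μ ^ 6 * L ^ 6 := by
          calc (C * k ^ 5) * L ^ 6 = (C * L ^ 6) * k ^ 5 := by ring
            _ ≤ ((C + 1) * L ^ 6) * k ^ 5 :=
                Nat.mul_le_mul_right _ (Nat.mul_le_mul_right _ (by omega))
            _ ≤ k * k ^ 5 := Nat.mul_le_mul_right _ hgr
            _ = k ^ 6 := by ring
            _ ≤ (μ * L) ^ 6 := h7
            _ = μ ^ 6 * L ^ 6 := by ring
        exact Nat.le_of_mul_le_mul_right h8 (by positivity)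
      have hCμ : C ≤ μ := by
        by_contra hcon
        push Not at hcon
        have h7 : μ * L ≤ (C + 1) * L ^ 6 := Nat.mul_le_mul (by omega) hL6
        omega
      refine mono (hC n m src tgt hst Δ μ k hΔ hμ (Or.inr hΔμ) (by omega) ?_) (by omega)
      calc C * Δ ^ 5 ≤ C * k ^ 5 := Nat.mul_le_mul_left _ (Nat.pow_le_pow_left (by omega) 5)
        _ ≤ μ ^ 6 := h6
        _ ≤ (k - Δ) ^ 6 := Nat.pow_le_pow_left (by omega) 6
  refine ⟨K₁ + 34, ?_⟩
  intro n m src tgt hst Δ μ k hΔ hμ
  constructor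
  · intro hk
    by_cases hkK : K₁ ≤ k
    · exact mono (main n m src tgt hst Δ μ k hΔ hμ hkK (Or.inl hk)) (by omega)
    · exact mono (small hst hΔ hμ hk (not_le.1 hkK)) (by omega)
  · intro hk hor
    refine main n m src tgt hst Δ μ k hΔ hμ (by omega) ?_
    rcases hor with h | ⟨h2, h3, h4⟩
    · exact Or.inl h
    · refine Or.inr ⟨h2, h3, le_trans (Nat.mul_le_mul_right _ (by omega)) h4⟩

end Pool.Agent.TCM
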