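import Pool.Agent.TCM.Basic

set_option autoImplicit false

/-!
# FIX: the new edge colouring
-/

namespace Pool.Agent.TCM

open Finset Classical TC19

namespace FIX

variable {V E Q : Type} {s t : E → V} {φ : E → Q} {c : V → Q} {β : E → Q}

/-- `h` is the edge of colour `β e` at `cv e` -/
def IsG (s t : E → V) (φ : E → Q) (c : V → Q) (β : E → Q) (h e : E) : Prop :=
  Cf s t φ c e ∧ Inc s t h (cv s t φ c e) ∧ φ h = β e

/-- the new colouring -/
noncomputable def psi (s t : E → V) (φ : E → Q) (c : V → Q) (β : E → Q) (h : E) : Q :=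
  if Cf s t φ c h then β h else if hG : ∃ e, IsG s t φ c β h e then φ hG.choose else φ h

/-- the three types of edges -/
theorem types (h : E) : (Cf s t φ c h ∧ psi s t φ c β h = β h) ∨
    (¬ Cf s t φ c h ∧ ∃ e, IsG s t φ c β h e ∧ psi s t φ c β h = φ e) ∨
    (¬ Cf s t φ c h ∧ (¬ ∃ e, IsG s t φ c β h e) ∧ psi s t φ c β h = φ h) := by
  by_cases h1 : Cf s t φ c h
  · exact Or.inl ⟨h1, if_pos h1⟩
  · by_cases h2 : ∃ e, IsG s t φ c β h e
    · refine Or.inr (Or.inl ⟨h1, h2.choose, h2.choose_spec, ?_⟩)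
      unfold psi
      rw [if_neg h1, dif_pos h2]
    · refine Or.inr (Or.inr ⟨h1, h2, ?_⟩)
      unfold psi
      rw [if_neg h1, dif_neg h2]

theorem inc_ends (hst : ∀ e, s e ≠ t e) {e : E} {z : V} (h : Inc s t e z) :
    z = cu s t φ c e ∨ z = cv s t φ c e := by
  rcases (inc_iff (inc_cu (φ := φ) (c := c) e) z).1 h with h1 | h1
  · exact Or.inl h1
  · rw [oth_cu hst] at h1
    exact Or.inr h1

/-- a conflict edge and an edge of the third type -/
theorem cn (hst : ∀ e, s e ≠ t e) {e h : E} {z : V} (he : Cf s t φ c e) (hez : Inc s t e z)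
    (hhz : Inc s t h z) (hU : ¬ Unc s t φ c β h) (hG : ¬ ∃ e, IsG s t φ c β h e)
    (heq : β e = φ h) : False := by
  rcases inc_ends (φ := φ) (c := c) hst hez with hz | hz
  · exact hU ⟨e, he, Or.inl ⟨hz ▸ hhz, heq.symm⟩⟩
  · exact hG ⟨e, he, hz ▸ hhz, heq.symm⟩

/-- an edge of the second type and an edge of the third type -/
theorem gn (hp : Proper s t Set.univ φ) {g e h : E} {z : V} (hg : IsG s t φ c β g e)
    (hgz : Inc s t g z) (hhz : Inc s t h z) (hU : ¬ Unc s t φ c β h) (hC : ¬ Cf s t φ c h)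
    (heq : φ e = φ h) : False := by
  obtain ⟨h1, h2, h3⟩ := hg
  rcases (inc_iff h2 z).1 hgz with hz | hz
  · subst hz
    exact hC (eq_of_proper hp (inc_cv e) hhz heq ▸ h1)
  · exact hU ⟨e, h1, Or.inr ⟨g, h2, h3, hz ▸ hhz, heq.symm⟩⟩

/-- two conflict edges -/
theorem cc (hst : ∀ e, s e ≠ t e)
    (hK : ∀ e e', e ≠ e' → Cf s t φ c e → Cf s t φ c e' → ¬ Coll s t φ c e (β e) e' (β e'))
    {e e' : E} {z : V} (hne : e ≠ e') (he : Cf s t φ c e) (he' : Cf s t φ c e')
    (hez : Inc s t e z) (hez' : Inc s t e' z) (heq : β e = β e') : False :=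
  hK e e' hne he he' ⟨z, β e, Or.inl ⟨rfl, inc_ends hst hez⟩, Or.inl ⟨heq, inc_ends hst hez'⟩⟩

/-- a conflict edge and an edge of the second type -/
theorem cg (hst : ∀ e, s e ≠ t e) (hB : ∀ e, Cf s t φ c e → Good s t φ c e (β e))
    (hK : ∀ e e', e ≠ e' → Cf s t φ c e → Cf s t φ c e' → ¬ Coll s t φ c e (β e) e' (β e'))
    {e' g e : E} {z : V} (he' : Cf s t φ c e') (hg : IsG s t φ c β g e)
    (hez : Inc s t e' z) (hgz : Inc s t g z) (heq : β e' = φ e) : False := by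
  obtain ⟨h1, h2, h3⟩ := hg
  by_cases hne : e' = e
  · subst hne
    exact (hB e' he').ne heq
  · rcases (inc_iff h2 z).1 hgz with hz | hz
    · have hee : Inc s t e z := hz ▸ inc_cv e
      rcases inc_ends (φ := φ) (c := c) hst hez with hz' | hz'
      · exact (hB e' he').f e (hz' ▸ hee) heq.symm h1
      · exact (hB e' he').g e (hz' ▸ hee) heq.symm h1
    · exact hK e' e hne he' h1 ⟨z, β e', Or.inl ⟨rfl, inc_ends hst hez⟩,
        Or.inr ⟨g, h2, h3, hz, Or.inr heq⟩⟩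

/-- two edges of the second type -/
theorem gg (hp : Proper s t Set.univ φ) (hB : ∀ e, Cf s t φ c e → Good s t φ c e (β e))
    (hK : ∀ e e', e ≠ e' → Cf s t φ c e → Cf s t φ c e' → ¬ Coll s t φ c e (β e) e' (β e'))
    {g g' e e' : E} {z : V} (hne : g ≠ g') (hg : IsG s t φ c β g e) (hg' : IsG s t φ c β g' e')
    (hgz : Inc s t g z) (hgz' : Inc s t g' z) (heq : φ e = φ e') : False := by
  obtain ⟨h1, h2, h3⟩ := hg
  obtain ⟨k1, k2, k3⟩ := hg'
  by_cases hee : e = e'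
  · subst hee
    exact hne (eq_of_proper hp h2 k2 (h3.trans k3.symm))
  · rcases (inc_iff h2 z).1 hgz with hz | hz
    · rcases (inc_iff k2 z).1 hgz' with hz' | hz'
      · exact hee (cv_inj hp (hz.symm.trans hz') heq)
      · have hi : Inc s t e (oth s t g' (cv s t φ c e')) := by
          rw [← hz', hz]
          exact inc_cv e
        exact (hB e' k1).h g' e k2 k3 hi heq h1
    · rcases (inc_iff k2 z).1 hgz' with hz' | hz'
      · have hi : Inc s t e' (oth s t g (cv s t φ c e)) := by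
          rw [← hz, hz']
          exact inc_cv e'
        exact (hB e h1).h g e' h2 h3 hi heq.symm k1
      · exact hK e e' hee h1 k1 ⟨z, φ e, Or.inr ⟨g, h2, h3, hz, Or.inr rfl⟩,
          Or.inr ⟨g', k2, k3, hz', Or.inr heq⟩⟩

end FIX

/-- **FIX**: the new edge colouring. -/
theorem FIX_thm : S_FIX := by
  intro V E Q _ _ _ s t φ hM c hc β hB hK
  refine ⟨FIX.psi s t φ c β, ?_, ?_⟩
  · intro h hh h' hh' hne z hz hz' heq
    have hU : ¬ Unc s t φ c β h := hh
    have hU' : ¬ Unc s t φ c β h' := hh'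
    rcases FIX.types (s := s) (t := t) (φ := φ) (c := c) (β := β) h with
      ⟨a1, a2⟩ | ⟨a1, e, a2, a3⟩ | ⟨a1, a2, a3⟩
    · rcases FIX.types (s := s) (t := t) (φ := φ) (c := c) (β := β) h' with
        ⟨b1, b2⟩ | ⟨b1, e', b2, b3⟩ | ⟨b1, b2, b3⟩
      · exact FIX.cc hM.lp hK hne a1 b1 hz hz' (by rw [← a2, heq, b2])
      · exact FIX.cg hM.lp hB hK a1 b2 hz hz' (by rw [← a2, heq, b3])
      · exact FIX.cn hM.lp a1 hz hz' hU' b2 (by rw [← a2, heq, b3])
    · rcases FIX.types (s := s) (t := t) (φ := φ) (c := c) (β := β) h' with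
        ⟨b1, b2⟩ | ⟨b1, e', b2, b3⟩ | ⟨b1, b2, b3⟩
      · exact FIX.cg hM.lp hB hK b1 a2 hz' hz (by rw [← b2, ← heq, a3])
      · exact FIX.gg hM.pr hB hK hne a2 b2 hz hz' (by rw [← a3, heq, b3])
      · exact FIX.gn hM.pr a2 hz hz' hU' b1 (by rw [← a3, heq, b3])
    · rcases FIX.types (s := s) (t := t) (φ := φ) (c := c) (β := β) h' with
        ⟨b1, b2⟩ | ⟨b1, e', b2, b3⟩ | ⟨b1, b2, b3⟩
      · exact FIX.cn hM.lp b1 hz' hz hU a2 (by rw [← b2, ← heq, a3])
      · exact FIX.gn hM.pr b2 hz' hz hU a1 (by rw [← b3, ← heq, a3])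
      · exact hM.pr h trivial h' trivial hne z hz hz' (by rw [← a3, heq, b3])
  · intro h _ v hv
    rcases FIX.types (s := s) (t := t) (φ := φ) (c := c) (β := β) h with
      ⟨a1, a2⟩ | ⟨a1, e, ⟨a2, a4, a5⟩, a3⟩ | ⟨a1, a2, a3⟩
    · rw [a2]
      rcases FIX.inc_ends (φ := φ) (c := c) hM.lp hv with hz | hz
      · rw [hz, c_cu a1]
        exact (hB h a1).ne
      · rw [hz]
        exact (hB h a1).nv
    · rw [a3]
      rcases (inc_iff a4 v).1 hv with hz | hz
      · rw [hz]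
        exact (c_cv hM.lp hc a2).symm
      · rw [hz]
        exact ((hB e a2).x h a4 a5).symm
    · rw [a3]
      exact fun h' => a1 (cf_of hv h')

end Pool.Agent.TCM
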