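import Pool.Agent.TCM.Basic

set_option autoImplicit false

/-!
# Total colouring of multigraphs: the first kind of hits
-/

namespace Pool.Agent.TCM

open Finset Classical TC19

namespace HTA

variable {V E Q : Type} [Fintype V] [Fintype E] [Fintype Q] {s t : E → V} {φ : E → Q} {c : V → Q}

/-- hits at the end of the edge of colour `b` at `cu e` -/
def H1 (s t : E → V) (φ : E → Q) (c : V → Q) (z : V) (e : E) (b : Q) : Prop :=
  ∃ f, Inc s t f (cu s t φ c e) ∧ φ f = b ∧ z = oth s t f (cu s t φ c e)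

/-- hits at the end of the edge of colour `b` at `cv e` -/
def H2 (s t : E → V) (φ : E → Q) (c : V → Q) (z : V) (e : E) (b : Q) : Prop :=
  ∃ g, Inc s t g (cv s t φ c e) ∧ φ g = b ∧ z = oth s t g (cv s t φ c e)

omit [Fintype V] in
theorem first (h : ∀ e, s e ≠ t e) (hp : Proper s t Set.univ φ) (z : V) :
    (univ.filter fun p : E × Q => Cf s t φ c p.1 ∧ H1 s t φ c z p.1 p.2).card ≤
      dg s t univ z := by
  have hch : ∀ p : E × Q, ∃ f : E, (Cf s t φ c p.1 ∧ H1 s t φ c z p.1 p.2) →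
      Inc s t f (cu s t φ c p.1) ∧ φ f = p.2 ∧ z = oth s t f (cu s t φ c p.1) := by
    intro p
    by_cases hp : Cf s t φ c p.1 ∧ H1 s t φ c z p.1 p.2
    · obtain ⟨f, hf⟩ := hp.2
      exact ⟨f, fun _ => hf⟩
    · exact ⟨p.1, fun h => absurd h hp⟩
  choose F hF using hch
  unfold dg
  refine Finset.card_le_card_of_injOn F ?_ ?_
  · intro p hp
    rw [Finset.mem_coe, Finset.mem_filter] at hp
    obtain ⟨h1, h2, h3⟩ := hF p hp.2
    rw [Finset.mem_coe, Finset.mem_filter]
    refine ⟨Finset.mem_univ _, ?_⟩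
    rw [h3]
    exact inc_oth _ _
  · intro p hp' p' hp'' heq
    rw [Finset.mem_coe, Finset.mem_filter] at hp' hp''
    obtain ⟨h1, h2, h3⟩ := hF p hp'.2
    obtain ⟨h1', h2', h3'⟩ := hF p' hp''.2
    have e1 : cu s t φ c p.1 = oth s t (F p) z := by
      rw [h3, oth_oth h h1]
    have e2 : cu s t φ c p'.1 = oth s t (F p') z := by
      rw [h3', oth_oth h h1']
    have e3 : p.1 = p'.1 := cu_inj hp hp'.2.1 hp''.2.1 (by rw [e1, e2, heq])
    exact Prod.ext e3 (by rw [← h2, ← h2', heq])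

omit [Fintype V] in
theorem second (h : ∀ e, s e ≠ t e) (z : V) :
    (univ.filter fun p : E × Q => Cf s t φ c p.1 ∧ H2 s t φ c z p.1 p.2).card ≤
      P1 s t φ c z := by
  have hch : ∀ p : E × Q, ∃ f : E, (Cf s t φ c p.1 ∧ H2 s t φ c z p.1 p.2) →
      Inc s t f (cv s t φ c p.1) ∧ φ f = p.2 ∧ z = oth s t f (cv s t φ c p.1) := by
    intro p
    by_cases hp : Cf s t φ c p.1 ∧ H2 s t φ c z p.1 p.2
    · obtain ⟨f, hf⟩ := hp.2
      exact ⟨f, fun _ => hf⟩
    · exact ⟨p.1, fun h => absurd h hp⟩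
  choose F hF using hch
  unfold P1
  refine Finset.card_le_card_of_injOn (fun p => (p.1, F p)) ?_ ?_
  · intro p hp
    rw [Finset.mem_coe, Finset.mem_filter] at hp
    obtain ⟨h1, h2, h3⟩ := hF p hp.2
    rw [Finset.mem_coe, Finset.mem_filter]
    refine ⟨Finset.mem_univ _, hp.2.1, ?_, ?_⟩
    · change Inc s t (F p) z
      rw [h3]
      exact inc_oth _ _
    · change cv s t φ c p.1 = oth s t (F p) z
      rw [h3, oth_oth h h1]
  · intro p hp' p' hp'' heq
    rw [Finset.mem_coe, Finset.mem_filter] at hp' hp''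
    obtain ⟨h1, h2, h3⟩ := hF p hp'.2
    obtain ⟨h1', h2', h3'⟩ := hF p' hp''.2
    obtain ⟨e1, e2⟩ := Prod.ext_iff.mp heq
    exact Prod.ext e1 (by rw [← h2, ← h2']; exact congrArg φ e2)

omit [Fintype Q] in
theorem one (hp : Proper s t Set.univ φ) (v : V) (b : Q) :
    (univ.filter fun z => ∃ f, Inc s t f v ∧ φ f = b ∧ z = oth s t f v).card ≤ 1 := by
  rw [Finset.card_le_one]
  intro x hx y hy
  rw [Finset.mem_filter] at hx hy
  obtain ⟨-, f, h1, h2, h3⟩ := hx
  obtain ⟨-, g, h4, h5, h6⟩ := hy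
  have : f = g := eq_of_proper hp h1 h4 (h2.trans h5.symm)
  subst this
  rw [h3, h6]

end HTA

theorem HTA_thm : S_HTA := by
  intro V E Q _ _ _ s t φ hM c _
  refine ⟨fun z => ?_, fun e b _ => ?_⟩
  · have h1 := HTA.first (c := c) hM.lp hM.pr z
    have h2 := HTA.second (φ := φ) (c := c) hM.lp z
    refine le_trans (le_trans (Finset.card_le_card ?_) (Finset.card_union_le _ _))
      (Nat.add_le_add h1 h2)
    intro p hp
    rw [Finset.mem_filter] at hp
    rw [Finset.mem_union, Finset.mem_filter, Finset.mem_filter]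
    rcases hp.2.2 with h | h
    · exact Or.inl ⟨hp.1, hp.2.1, h⟩
    · exact Or.inr ⟨hp.1, hp.2.1, h⟩
  · have h1 := HTA.one hM.pr (cu s t φ c e) b
    have h2 := HTA.one hM.pr (cv s t φ c e) b
    refine le_trans (le_trans (Finset.card_le_card ?_) (Finset.card_union_le _ _))
      (Nat.add_le_add h1 h2)
    intro z hz
    rw [Finset.mem_filter] at hz
    rw [Finset.mem_union, Finset.mem_filter, Finset.mem_filter]
    rcases hz.2 with h | h
    · exact Or.inl ⟨hz.1, h⟩
    · exact Or.inr ⟨hz.1, h⟩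

end Pool.Agent.TCM
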