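import Pool.Agent.TCM.Basic

set_option autoImplicit false

/-!
# Total colouring of multigraphs: the second kind of hits
-/

namespace Pool.Agent.TCM

open Finset Classical TC19

namespace HTB

variable {V E Q : Type} [Fintype V] [Fintype E] [Fintype Q] {s t : E → V} {φ : E → Q} {c : V → Q}

omit [Fintype V] in
theorem first (h : ∀ e, s e ≠ t e) (z : V) :
    (univ.filter fun p : E × Q => Cf s t φ c p.1 ∧ HB s t φ c z p.1 p.2).card ≤
      P2 s t φ c z := by
  have hch : ∀ p : E × Q, ∃ f : E × E, (Cf s t φ c p.1 ∧ HB s t φ c z p.1 p.2) →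
      Inc s t f.1 (cv s t φ c p.1) ∧ φ f.1 = p.2 ∧ Inc s t f.2 (oth s t f.1 (cv s t φ c p.1)) ∧
        φ f.2 = φ p.1 ∧ z = oth s t f.2 (oth s t f.1 (cv s t φ c p.1)) := by
    intro p
    by_cases hp : Cf s t φ c p.1 ∧ HB s t φ c z p.1 p.2
    · obtain ⟨g, h, hf⟩ := hp.2
      exact ⟨(g, h), fun _ => hf⟩
    · exact ⟨(p.1, p.1), fun h => absurd h hp⟩
  choose F hF using hch
  unfold P2
  refine Finset.card_le_card_of_injOn (fun p => (p.1, F p)) ?_ ?_
  · intro p hp
    rw [Finset.mem_coe, Finset.mem_filter] at hp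
    obtain ⟨h1, h2, h3, h4, h5⟩ := hF p hp.2
    have e1 : oth s t (F p).2 z = oth s t (F p).1 (cv s t φ c p.1) := by
      rw [h5, oth_oth h h3]
    rw [Finset.mem_coe, Finset.mem_filter]
    refine ⟨Finset.mem_univ _, hp.2.1, ?_, h4, ?_, ?_⟩
    · change Inc s t (F p).2 z
      rw [h5]
      exact inc_oth _ _
    · change Inc s t (F p).1 (oth s t (F p).2 z)
      rw [e1]
      exact inc_oth _ _
    · change cv s t φ c p.1 = oth s t (F p).1 (oth s t (F p).2 z)
      rw [e1, oth_oth h h1]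
  · intro p hp' p' hp'' heq
    rw [Finset.mem_coe, Finset.mem_filter] at hp' hp''
    obtain ⟨-, h2, -⟩ := hF p hp'.2
    obtain ⟨-, h2', -⟩ := hF p' hp''.2
    obtain ⟨e1, e2⟩ := Prod.ext_iff.mp heq
    refine Prod.ext e1 ?_
    rw [← h2, ← h2']
    exact congrArg (fun x : E × E => φ x.1) e2

end HTB

/-- HTB: the second kind of hits. -/
theorem HTB_thm : S_HTB := by
  intro V E Q _ _ _ s t φ hM c _
  refine ⟨fun z => HTB.first hM.lp z, fun e b _ => ?_⟩
  rw [Finset.card_le_one]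
  intro x hx y hy
  rw [Finset.mem_filter] at hx hy
  obtain ⟨-, g, h, a1, a2, a3, a4, a5⟩ := hx
  obtain ⟨-, g', h', b1, b2, b3, b4, b5⟩ := hy
  have hg : g = g' := eq_of_proper hM.pr a1 b1 (a2.trans b2.symm)
  subst hg
  have hh : h = h' := eq_of_proper hM.pr a3 b3 (a4.trans b4.symm)
  subst hh
  rw [a5, b5]

end Pool.Agent.TCM
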