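import Pool.Agent.TCM.Basic

set_option autoImplicit false

/-!
# HTC: the third kind of hits
-/

namespace Pool.Agent.TCM

open Finset Classical TC19

namespace HTC

section

variable {V E Q : Type} {s t : E → V} {φ : E → Q} {c : V → Q}

/-- two different vertices of an edge are its ends, in one of the two orders -/
theorem pair_cases {h : E} {y z : V} (hy : Inc s t h y) (hz : Inc s t h z) (hne : y ≠ z) :
    (y = s h ∧ z = t h) ∨ (y = t h ∧ z = s h) := by
  rcases hy with hy | hy <;> rcases hz with hz | hz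
  · exact absurd (hy.symm.trans hz) hne
  · exact Or.inl ⟨hy.symm, hz.symm⟩
  · exact Or.inr ⟨hy.symm, hz.symm⟩
  · exact absurd (hy.symm.trans hz) hne

/-- the second uncoloured edge is determined by `e` and `b` -/
theorem HE_unique (hp : Proper s t Set.univ φ) {h h' e : E} {b : Q} (h1 : HE s t φ c h e b)
    (h2 : HE s t φ c h' e b) : h = h' := by
  obtain ⟨g, a1, a2, a3, a4⟩ := h1
  obtain ⟨g', b1, b2, b3, b4⟩ := h2
  have hg : g = g' := eq_of_proper hp a1 b1 (a2.trans b2.symm)
  subst hg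
  exact eq_of_proper hp a3 b3 (a4.trans b4.symm)

/-- the triples counted by `P5` -/
theorem mem_P5 (hst : ∀ e, s e ≠ t e) {e g h : E} {y z : V} (hy : Inc s t h y)
    (hz : Inc s t h z) (h1 : φ h = φ e) (h2 : Inc s t g (cv s t φ c e))
    (h3 : oth s t g (cv s t φ c e) = y) :
    Inc s t h y ∧ Inc s t h z ∧ φ h = φ e ∧ Inc s t g y ∧ cv s t φ c e = oth s t g y := by
  refine ⟨hy, hz, h1, ?_, ?_⟩
  · rw [← h3]
    exact inc_oth g _
  · rw [← h3]
    exact (oth_oth hst h2).symm

end

end HTC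

/-- HTC: the third kind of hits. -/
theorem HTC_thm : S_HTC := by
  intro V E Q _ _ _ s t φ hM c _
  refine ⟨fun y z hyz => ?_, fun e b _ => ?_⟩
  · have hsub : (univ.filter fun p : E × Q => Cf s t φ c p.1 ∧ HC s t φ c y z p.1 p.2) ⊆
        ((univ.filter fun p : E × E × E => Cf s t φ c p.1 ∧ Inc s t p.2.2 y ∧ Inc s t p.2.2 z ∧
          φ p.2.2 = φ p.1 ∧ Inc s t p.2.1 y ∧ cv s t φ c p.1 = oth s t p.2.1 y).image
            fun p => (p.1, φ p.2.1)) ∪
        ((univ.filter fun p : E × E × E => Cf s t φ c p.1 ∧ Inc s t p.2.2 z ∧ Inc s t p.2.2 y ∧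
          φ p.2.2 = φ p.1 ∧ Inc s t p.2.1 z ∧ cv s t φ c p.1 = oth s t p.2.1 z).image
            fun p => (p.1, φ p.2.1)) := by
      rintro ⟨e, b⟩ hp
      obtain ⟨hCf, h, ⟨g, h1, h2, h3, h4⟩, hy, hz⟩ := (Finset.mem_filter.mp hp).2
      simp only at hCf h1 h2 h3 h4
      rw [Finset.mem_union]
      have hx : oth s t g (cv s t φ c e) = y ∨ oth s t g (cv s t φ c e) = z := by
        rcases (inc_iff hy (oth s t g (cv s t φ c e))).mp h3 with h5 | h5
        · exact Or.inl h5
        · exact Or.inr (h5.trans (oth_of_inc hy hz hyz.symm).symm)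
      rcases hx with hx | hx
      · refine Or.inl (Finset.mem_image.mpr ⟨(e, g, h), ?_, ?_⟩)
        · exact Finset.mem_filter.mpr ⟨Finset.mem_univ _, hCf, HTC.mem_P5 hM.lp hy hz h4 h1 hx⟩
        · rw [← h2]
      · refine Or.inr (Finset.mem_image.mpr ⟨(e, g, h), ?_, ?_⟩)
        · exact Finset.mem_filter.mpr ⟨Finset.mem_univ _, hCf, HTC.mem_P5 hM.lp hz hy h4 h1 hx⟩
        · rw [← h2]
    refine (Finset.card_le_card hsub).trans ((Finset.card_union_le _ _).trans ?_)
    exact Nat.add_le_add Finset.card_image_le Finset.card_image_le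
  · by_cases hex : ∃ h, HE s t φ c h e b
    · obtain ⟨h₀, hh₀⟩ := hex
      have hsub : (univ.filter fun p : V × V => p.1 ≠ p.2 ∧ HC s t φ c p.1 p.2 e b) ⊆
          {(s h₀, t h₀), (t h₀, s h₀)} := by
        rintro ⟨y, z⟩ hp
        obtain ⟨hne, h, hh, hy, hz⟩ := (Finset.mem_filter.mp hp).2
        have heq : h = h₀ := HTC.HE_unique hM.pr hh hh₀
        subst heq
        rw [Finset.mem_insert, Finset.mem_singleton]
        rcases HTC.pair_cases hy hz hne with ⟨h1, h2⟩ | ⟨h1, h2⟩
        · exact Or.inl (Prod.ext h1 h2)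
        · exact Or.inr (Prod.ext h1 h2)
      exact (Finset.card_le_card hsub).trans Finset.card_le_two
    · have hemp : (univ.filter fun p : V × V => p.1 ≠ p.2 ∧ HC s t φ c p.1 p.2 e b) = ∅ := by
        refine Finset.filter_eq_empty_iff.mpr ?_
        rintro ⟨y, z⟩ _ ⟨_, h, hh, _⟩
        exact hex ⟨h, hh⟩
      rw [hemp, Finset.card_empty]
      exact Nat.zero_le _

end Pool.Agent.TCM
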