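import Pool.Agent.TCM.Basic

set_option autoImplicit false

/-!
# LFT: the uncoloured edges get new colours
-/

namespace Pool.Agent.TCM

open Finset Classical TC19

namespace LFT

variable {E : Type} [Fintype E]

theorem card_sub (U : Set E) (p : E → Prop) [DecidablePred fun e : {e // e ∈ U} => p e.1]
    [DecidablePred fun h => h ∈ U ∧ p h] [Fintype {e // e ∈ U}] :
    (univ.filter fun e : {e // e ∈ U} => p e.1).card = (univ.filter fun h => h ∈ U ∧ p h).card := by
  refine Finset.card_bij (fun e _ => e.1) ?_ ?_ ?_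
  · intro e he
    simp only [mem_filter, mem_univ, true_and] at he ⊢
    exact ⟨e.2, he⟩
  · intro e _ e' _ h
    exact Subtype.ext h
  · intro h hh
    simp only [mem_filter, mem_univ, true_and] at hh
    exact ⟨⟨h, hh.1⟩, by simp only [mem_filter, mem_univ, true_and]; exact hh.2, rfl⟩

end LFT

theorem LFT_thm : S_LFT := by
  intro V E Q _ _ _ s t c U ψ D m hst hc hψ hψc hD hm
  obtain ⟨χ, hχ⟩ := vizing (K := Fin (D + m)) (s := fun e : {e // e ∈ U} => s e.1)
    (t := fun e : {e // e ∈ U} => t e.1) (fun e => hst e.1) (Δ := D) (μ := m)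
    (fun v => by
      refine le_trans (le_of_eq ?_) (hD v)
      exact LFT.card_sub U (fun e => Inc s t e v))
    (fun u v huv => by
      refine le_trans (le_of_eq ?_) (hm u v huv)
      exact LFT.card_sub U (fun e => Inc s t e u ∧ Inc s t e v))
    (by rw [Fintype.card_fin])
  let c' : E → Q ⊕ Fin (D + m) := fun e => if h : e ∈ U then Sum.inr (χ ⟨e, h⟩) else Sum.inl (ψ e)
  have hin : ∀ e (h : e ∈ U), c' e = Sum.inr (χ ⟨e, h⟩) := fun e h => dif_pos h
  have hout : ∀ e, e ∉ U → c' e = Sum.inl (ψ e) := fun e h => dif_neg h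
  refine ⟨c', fun v => Sum.inl (c v), ?_, ?_, ?_⟩
  · intro e _ f _ hef v he hf
    by_cases h1 : e ∈ U
    · by_cases h2 : f ∈ U
      · rw [hin e h1, hin f h2]
        intro h
        exact hχ ⟨e, h1⟩ trivial ⟨f, h2⟩ trivial (fun h' => hef (congrArg Subtype.val h')) v he hf
          (Sum.inr_injective h)
      · rw [hin e h1, hout f h2]
        exact Sum.inr_ne_inl
    · by_cases h2 : f ∈ U
      · rw [hout e h1, hin f h2]
        exact Sum.inl_ne_inr
      · rw [hout e h1, hout f h2]
        intro h
        exact hψ e h1 f h2 hef v he hf (Sum.inl_injective h)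
  · intro v e _ he
    by_cases h1 : e ∈ U
    · rw [hin e h1]
      exact Sum.inr_ne_inl
    · rw [hout e h1]
      intro h
      exact hψc e h1 v he (Sum.inl_injective h)
  · intro u v huv h
    exact hc u v huv (Sum.inl_injective h)

end Pool.Agent.TCM
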