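import Pool.Agent.TCM.Basic

set_option autoImplicit false

/-!
# Total colouring of multigraphs: the multiplicities of the uncoloured edges
-/

namespace Pool.Agent.TCM

open Finset Classical TC19

namespace MUL

variable {V E Q : Type} {s t : E → V} {φ : E → Q} {c : V → Q}

/-- the second uncoloured edge is determined by the conflict edge -/
theorem he_unique (hp : Proper s t Set.univ φ) {e h h' : E} {b : Q}
    (h1 : HE s t φ c h e b) (h2 : HE s t φ c h' e b) : h = h' := by
  obtain ⟨g, hg, hgb, hh, hhe⟩ := h1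
  obtain ⟨g', hg', hgb', hh', hhe'⟩ := h2
  have hgg : g = g' := eq_of_proper hp hg hg' (hgb.trans hgb'.symm)
  subst hgg
  exact eq_of_proper hp hh hh' (hhe.trans hhe'.symm)

/-- the edges of the first kind at `w` -/
theorem first_card [Fintype E] (hp : Proper s t Set.univ φ) (β : E → Q) (w : V) :
    (univ.filter fun h => ∃ e, Cf s t φ c e ∧ cu s t φ c e = w ∧ Inc s t h w ∧
      φ h = β e).card ≤ 1 := by
  refine Finset.card_le_one.mpr fun h hh h' hh' => ?_
  obtain ⟨e, he, hew, hi, hφ⟩ := (Finset.mem_filter.mp hh).2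
  obtain ⟨e', he', hew', hi', hφ'⟩ := (Finset.mem_filter.mp hh').2
  have hee : e = e' := cu_inj hp he he' (hew.trans hew'.symm)
  subst hee
  exact eq_of_proper hp hi hi' (hφ.trans hφ'.symm)

end MUL

theorem MUL_thm : S_MUL := by
  intro V E Q _ _ _ s t φ hM c _ β y z hyz
  have hsub : (univ.filter fun h => Unc s t φ c β h ∧ Inc s t h y ∧ Inc s t h z) ⊆
      ((univ.filter fun h => ∃ e, Cf s t φ c e ∧ cu s t φ c e = y ∧ Inc s t h y ∧ φ h = β e) ∪
        (univ.filter fun h => ∃ e, Cf s t φ c e ∧ cu s t φ c e = z ∧ Inc s t h z ∧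
          φ h = β e)) ∪
      (univ.filter fun h => ∃ e, Cf s t φ c e ∧ HE s t φ c h e (β e) ∧ Inc s t h y ∧
        Inc s t h z) := by
    intro h hh
    obtain ⟨⟨e, he, h1⟩, hy, hz⟩ := (Finset.mem_filter.mp hh).2
    rcases h1 with ⟨hi, hφ⟩ | ⟨g, hg, hgb, hi, hφ⟩
    · refine Finset.mem_union_left _ ?_
      have h2 : cu s t φ c e = y ∨ cu s t φ c e = z := by
        rcases (inc_iff hy _).mp hi with h3 | h3
        · exact Or.inl h3
        · refine Or.inr ?_
          rw [h3]
          exact (oth_of_inc hy hz (Ne.symm hyz)).symm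
      rcases h2 with h2 | h2
      · exact Finset.mem_union_left _
          (Finset.mem_filter.mpr ⟨Finset.mem_univ _, e, he, h2, hy, hφ⟩)
      · exact Finset.mem_union_right _
          (Finset.mem_filter.mpr ⟨Finset.mem_univ _, e, he, h2, hz, hφ⟩)
    · exact Finset.mem_union_right _ (Finset.mem_filter.mpr
        ⟨Finset.mem_univ _, e, he, ⟨g, hg, hgb, hi, hφ⟩, hy, hz⟩)
  have hB : (univ.filter fun h => ∃ e, Cf s t φ c e ∧ HE s t φ c h e (β e) ∧ Inc s t h y ∧
        Inc s t h z).card ≤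
      (univ.filter fun e => Cf s t φ c e ∧ HC s t φ c y z e (β e)).card := by
    have hch : ∀ h : E, ∃ e : E, (∃ e, Cf s t φ c e ∧ HE s t φ c h e (β e) ∧ Inc s t h y ∧
        Inc s t h z) → Cf s t φ c e ∧ HE s t φ c h e (β e) ∧ Inc s t h y ∧ Inc s t h z := by
      intro h
      by_cases hx : ∃ e, Cf s t φ c e ∧ HE s t φ c h e (β e) ∧ Inc s t h y ∧ Inc s t h z
      · obtain ⟨e, he⟩ := hx
        exact ⟨e, fun _ => he⟩
      · exact ⟨h, fun h' => absurd h' hx⟩
    choose k hk using hch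
    refine Finset.card_le_card_of_injOn k ?_ ?_
    · intro h hh
      obtain ⟨h1, h2, h3, h4⟩ := hk h (Finset.mem_filter.mp (Finset.mem_coe.mp hh)).2
      exact Finset.mem_coe.mpr (Finset.mem_filter.mpr ⟨Finset.mem_univ _, h1, h, h2, h3, h4⟩)
    · intro h hh h' hh' hkk
      obtain ⟨_, h2, _, _⟩ := hk h (Finset.mem_filter.mp (Finset.mem_coe.mp hh)).2
      obtain ⟨_, h2', _, _⟩ := hk h' (Finset.mem_filter.mp (Finset.mem_coe.mp hh')).2
      have hkk' : k h = k h' := hkk
      rw [← hkk'] at h2'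
      exact MUL.he_unique hM.pr h2 h2'
  have h1 := (Finset.card_le_card hsub).trans (Finset.card_union_le _ _)
  have h2 := Finset.card_union_le
    (univ.filter fun h => ∃ e, Cf s t φ c e ∧ cu s t φ c e = y ∧ Inc s t h y ∧ φ h = β e)
    (univ.filter fun h => ∃ e, Cf s t φ c e ∧ cu s t φ c e = z ∧ Inc s t h z ∧ φ h = β e)
  have h3 := MUL.first_card (c := c) hM.pr β y
  have h4 := MUL.first_card (c := c) hM.pr β z
  omega

end Pool.Agent.TCM
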