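import Pool.Agent.TCM.Basic

set_option autoImplicit false

/-!
# Total colouring of multigraphs with a constant additive error: the numbers
-/

namespace Pool.Agent.TCM

open Finset Classical TC19

theorem NUM_thm : S_NUM := by
  intro ρ h0 h1
  have ha : (106 / 100 * (51 / 10) * ρ : ℝ) ^ 17 ≤ (106 / 100 * (51 / 10) * (1001 / 1000)) ^ 17 := by
    gcongr
  have hb : (106 / 100 * (41 / 10) * ρ : ℝ) ^ 13 ≤ (106 / 100 * (41 / 10) * (1001 / 1000)) ^ 13 := by
    gcongr
  have e1 : (Nat.factorial 17 : ℝ) = 355687428096000 := by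
    norm_num [Nat.factorial]
  have e2 : (Nat.factorial 13 : ℝ) = 6227020800 := by
    norm_num [Nat.factorial]
  rw [e1, e2]
  have hc : 2 * (106 / 100) * (106 / 100 * (51 / 10) * ρ) ^ 17 / (355687428096000 : ℝ) ≤
      2 * (106 / 100) * (106 / 100 * (51 / 10) * (1001 / 1000)) ^ 17 / 355687428096000 := by
    apply div_le_div_of_nonneg_right _ (by norm_num)
    exact mul_le_mul_of_nonneg_left ha (by norm_num)
  have hd : 106 / 100 * (106 / 100 * (41 / 10) * ρ) ^ 13 / (6227020800 : ℝ) ≤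
      106 / 100 * (106 / 100 * (41 / 10) * (1001 / 1000)) ^ 13 / 6227020800 := by
    apply div_le_div_of_nonneg_right _ (by norm_num)
    exact mul_le_mul_of_nonneg_left hb (by norm_num)
  have he : (1 : ℝ) ≤ 106 / 100 * (1 - (2 * (106 / 100) ^ 2 * (1 / 10 ^ 4 * (1001 / 1000)) +
      (2 * (106 / 100) * (106 / 100 * (51 / 10) * (1001 / 1000)) ^ 17 / 355687428096000 +
      106 / 100 * (106 / 100 * (41 / 10) * (1001 / 1000)) ^ 13 / 6227020800 +
      2 * (106 / 100) ^ 2 * (1 / 10 ^ 5 * (1001 / 1000))))) := by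
    norm_num
  refine he.trans ?_
  apply mul_le_mul_of_nonneg_left _ (by norm_num)
  have hf : 2 * (106 / 100) ^ 2 * (1 / 10 ^ 4 * ρ) ≤
      2 * (106 / 100) ^ 2 * (1 / 10 ^ 4 * (1001 / 1000)) := by
    gcongr
  have hg : 2 * (106 / 100) ^ 2 * (1 / 10 ^ 5 * ρ) ≤
      2 * (106 / 100) ^ 2 * (1 / 10 ^ 5 * (1001 / 1000)) := by
    gcongr
  linarith

end Pool.Agent.TCM
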