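import Pool.Agent.TCM.Basic

set_option autoImplicit false

/-!
# Total colouring of multigraphs with a constant additive error: PH1

Starting with a greedy vertex colouring, the rounds of moves (RND) are repeated until all the
functionals are at most `41 / 10`.
-/

namespace Pool.Agent.TCM

open Finset Classical TC19

namespace PH1

/-- the greedy algorithm -/
theorem greedy {V K : Type} [Fintype V] [Fintype K] (G : SimpleGraph V)
    (hD : ∀ v, (Nb G v).card < Fintype.card K)
    (X : Finset V) (g : V → K) (hg : ∀ u w, u ∉ X → w ∉ X → G.Adj u w → g u ≠ g w) :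
    ∃ g' : V → K, ∀ u w, G.Adj u w → g' u ≠ g' w := by
  induction X using Finset.induction_on generalizing g with
  | empty =>
    exact ⟨g, fun u w h => hg u w (Finset.notMem_empty _) (Finset.notMem_empty _) h⟩
  | insert v X hv ih =>
    have h1 : ((Nb G v).image g).card < Fintype.card K :=
      lt_of_le_of_lt Finset.card_image_le (hD v)
    obtain ⟨a, ha⟩ : ∃ a : K, a ∉ (Nb G v).image g := by
      by_contra hcon
      have h2 : (Nb G v).image g = univ := by
        refine Finset.eq_univ_iff_forall.mpr fun a => ?_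
        by_contra h3
        exact hcon ⟨a, h3⟩
      rw [h2, Finset.card_univ] at h1
      exact lt_irrefl _ h1
    have ha' : ∀ u, G.Adj v u → g u ≠ a := by
      intro u hu h
      exact ha (Finset.mem_image.mpr ⟨u, mem_Nb'.mpr hu, h⟩)
    refine ih (Function.update g v a) ?_
    intro u w hu hw hadj
    by_cases huv : u = v
    · subst huv
      have hwu : w ≠ u := hadj.ne'
      rw [Function.update_self, Function.update_of_ne hwu]
      exact (ha' w hadj).symm
    · by_cases hwv : w = v
      · subst hwv
        rw [Function.update_self, Function.update_of_ne huv]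
        exact ha' u hadj.symm
      · rw [Function.update_of_ne huv, Function.update_of_ne hwv]
        exact hg u w (by simp [huv, hu]) (by simp [hwv, hw]) hadj

end PH1

theorem PH1_thm (h1 : S_MOV) (h2 : S_RND) : S_PH1 := by
  intro V Q J _ _ _ G hG hq ω η N hη hω htot hN hexp
  have hne : Nonempty Q := by
    rw [← Fintype.card_pos_iff]
    omega
  obtain ⟨c₀, hc₀⟩ : ∃ c : V → Q, ∀ x y, G.Adj x y → c x ≠ c y :=
    PH1.greedy G hG univ (fun _ => Classical.arbitrary Q)
      (fun u _ hu => absurd (Finset.mem_univ u) hu)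
  have key : ∀ n : ℕ, ∃ c : V → Q, (∀ x y, G.Adj x y → c x ≠ c y) ∧
      ∀ j, ∑ u, ω j u (c u) ≤ max (41 / 10) ((Fintype.card Q : ℝ) - n * (1 / 10 ^ 8)) := by
    intro n
    induction n with
    | zero =>
      refine ⟨c₀, hc₀, fun j => ?_⟩
      refine le_trans ?_ (le_max_right _ _)
      have h3 : ∑ u, ω j u (c₀ u) ≤ ∑ x, ∑ β, ω j x β :=
        Finset.sum_le_sum fun u _ =>
          Finset.single_le_sum (f := fun β => ω j u β) (fun β _ => (hω j u β).1)
            (Finset.mem_univ (c₀ u))
      have h4 := htot j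
      simp only [Nat.cast_zero, zero_mul, sub_zero]
      exact h3.trans h4
    | succ n ih =>
      obtain ⟨c, hc, hcM⟩ := ih
      obtain ⟨mv, hmv⟩ := h1 V Q G c hG hc
      obtain ⟨c', hc', hcM'⟩ := h2 V Q (Q × Bool) J G c mv hmv hc hG
        (by rw [Fintype.card_prod, Fintype.card_bool, Nat.mul_comm]) hq ω η
        (max (41 / 10) ((Fintype.card Q : ℝ) - n * (1 / 10 ^ 8))) N hη hω htot hN hexp
        (le_max_left _ _) hcM
      refine ⟨c', hc', fun j => (hcM' j).trans ?_⟩
      rw [sub_le_iff_le_add, max_le_iff]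
      have h5 := le_max_left (41 / 10 : ℝ)
        ((Fintype.card Q : ℝ) - ((n + 1 : ℕ) : ℝ) * (1 / 10 ^ 8))
      have h6 := le_max_right (41 / 10 : ℝ)
        ((Fintype.card Q : ℝ) - ((n + 1 : ℕ) : ℝ) * (1 / 10 ^ 8))
      push_cast at h5 h6 ⊢
      constructor
      · linarith
      · linarith
  obtain ⟨n, hn⟩ := exists_nat_ge ((Fintype.card Q : ℝ) * 10 ^ 8)
  obtain ⟨c, hc, hcM⟩ := key n
  refine ⟨c, hc, fun j => (hcM j).trans ?_⟩
  rw [max_le_iff]
  refine ⟨le_refl _, ?_⟩
  linarith

end Pool.Agent.TCM
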