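import Pool.Agent.TCM.Basic

set_option autoImplicit false

/-!
# PH2: the choice of the new colours
-/

namespace Pool.Agent.TCM

open Finset Classical TC19

namespace PH2

theorem Coll_symm {V E Q : Type} {s t : E → V} {φ : E → Q} {c : V → Q} {e e' : E} {b b' : Q}
    (h : Coll s t φ c e b e' b') : Coll s t φ c e' b' e b := by
  obtain ⟨z, γ, h1, h2⟩ := h
  exact ⟨z, γ, h2, h1⟩

theorem part {W ι : Type} [Fintype W] {r : ℕ} (H : W → Finset (ι × Fin r)) (i : ι) (k m : ℕ)
    (B θ : ℝ) (hB : ∀ z, (((H z).card.choose k : ℕ) : ℝ) ≤ B) (hθ : 0 ≤ θ) (hB0 : 0 ≤ B)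
    (hm : ∀ j, ∀ S : Finset W, (∀ z ∈ S, (i, j) ∈ H z) → S.card ≤ m) :
    ∑ z, ∑ j : Fin r, (if (i, j) ∈ H z then (((H z).card.choose k : ℕ) : ℝ) * θ else 0) ≤
      r * (m * (B * θ)) := by
  rw [Finset.sum_comm]
  have h1 : ∀ j : Fin r, ∑ z, (if (i, j) ∈ H z then (((H z).card.choose k : ℕ) : ℝ) * θ else 0) ≤
      m * (B * θ) := by
    intro j
    calc ∑ z, (if (i, j) ∈ H z then (((H z).card.choose k : ℕ) : ℝ) * θ else 0)
        ≤ ∑ z, (if (i, j) ∈ H z then B * θ else 0) := by
          refine Finset.sum_le_sum fun z _ => ?_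
          split_ifs
          · exact mul_le_mul_of_nonneg_right (hB z) hθ
          · exact le_rfl
      _ = ((univ.filter fun z => (i, j) ∈ H z).card : ℝ) * (B * θ) := by
          rw [← Finset.sum_filter, Finset.sum_const, nsmul_eq_mul]
      _ ≤ m * (B * θ) :=
          mul_le_mul_of_nonneg_right (by
            exact_mod_cast hm j _ fun z hz => (mem_filter.1 hz).2) (mul_nonneg hB0 hθ)
  calc ∑ j : Fin r, ∑ z, (if (i, j) ∈ H z then (((H z).card.choose k : ℕ) : ℝ) * θ else 0)
      ≤ ∑ j : Fin r, (m * (B * θ) : ℝ) := Finset.sum_le_sum fun j _ => h1 j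
    _ = r * (m * (B * θ)) := by
        rw [Finset.sum_const, Finset.card_univ, Fintype.card_fin, nsmul_eq_mul]

theorem alg (r q α ψ F m : ℝ) (k : ℕ) (hr : r ≠ 0) :
    r * (m * ((α * q) ^ k / F * (ψ / r) ^ (k + 1))) = m * ψ * (ψ * α * (q / r)) ^ k / F := by
  have h1 : r * (ψ / r) = ψ := by field_simp
  have h2 : (α * q) ^ k * (ψ / r) ^ k = (ψ * α * (q / r)) ^ k := by
    rw [← mul_pow]
    congr 1
    ring
  calc r * (m * ((α * q) ^ k / F * (ψ / r) ^ (k + 1)))
      = m * (r * (ψ / r)) * ((α * q) ^ k * (ψ / r) ^ k) / F := by rw [pow_succ]; ring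
    _ = _ := by rw [h1, h2]

/-- transfer of cardinalities -/
theorem card_sub {E ι : Type} [Fintype E] [Fintype ι] (ε : ι → E) (A : E → Prop) (B : ι → Prop)
    [DecidablePred A] [DecidablePred B] (h : ∀ e, A e → ∃ i, ε i = e ∧ B i) :
    (univ.filter fun e => A e).card ≤ (univ.filter fun i => B i).card := by
  have h1 : (univ.filter fun e => A e) ⊆ (univ.filter fun i => B i).image ε := by
    intro e he
    rw [mem_filter] at he
    rw [mem_image]
    obtain ⟨i, h2, h3⟩ := h e he.2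
    exact ⟨i, by rw [mem_filter]; exact ⟨mem_univ _, h3⟩, h2⟩
  exact (card_le_card h1).trans card_image_le

theorem core (h2 : S_COL) (h3 : S_HTA) (h4 : S_HTB) (h5 : S_HTC) (h6 : S_TUP)
    (h7 : S_NUM) {V E Q ι : Type} [Fintype V] [Fintype E] [Fintype Q] [Fintype ι] (s t : E → V)
    (φ : E → Q) (hG : MG s t φ) (c : V → Q) (hc : VC s t c) (X : ℝ) (hX : 1 ≤ X) (q : ℕ)
    (hqd : q = Fintype.card Q) (hq : 10 ^ 6 * X ≤ q)
    (hP1 : ∀ z, (P1 s t φ c z : ℝ) ≤ 41 / 10 * q) (hP2 : ∀ z, (P2 s t φ c z : ℝ) ≤ 41 / 10 * q)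
    (hR : ∀ v, (R s t φ c v : ℝ) ≤ 41 / 10 * X) (hEm : ∀ v a, (Em s t φ c v a : ℝ) ≤ 82 / 10 * X)
    (hP5 : ∀ y z, y ≠ z → (P5 s t φ c y z : ℝ) ≤ 41 / 10 * X)
    (r : ℕ) (hr0 : 0 < r) (hρ : (q : ℝ) / r ≤ 1001 / 1000) (ε : ι → E)
    (hε : Function.Injective ε) (hCf : ∀ i, Cf s t φ c (ε i)) (ab : ι × Fin r → Q)
    (hab : ∀ i j j', ab (i, j) = ab (i, j') → j = j') :
    ∃ x : ι → Fin r,
      (∀ i i', i ≠ i' → ¬ Coll s t φ c (ε i) (ab (i, x i)) (ε i') (ab (i', x i'))) ∧
      (∀ z, (univ.filter fun i => HA s t φ c z (ε i) (ab (i, x i))).card < 18) ∧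
      (∀ z, (univ.filter fun i => HB s t φ c z (ε i) (ab (i, x i))).card < 14) ∧
      ∀ y z, y ≠ z → (univ.filter fun i => HC s t φ c y z (ε i) (ab (i, x i))).card < 2 := by
  let im : ι × Fin r → E × Q := fun p => (ε p.1, ab p)
  have him : Function.Injective im := by
    rintro ⟨e, j⟩ ⟨e', j'⟩ h
    have h8 : e = e' := hε (congrArg Prod.fst h)
    subst h8
    have h9 : ab (e, j) = ab (e, j') := congrArg Prod.snd h
    rw [hab e j j' h9]
  have hcmp : ∀ A : E → Q → Prop, (univ.filter fun p : ι × Fin r => A (ε p.1) (ab p)).card ≤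
      (univ.filter fun p : E × Q => Cf s t φ c p.1 ∧ A p.1 p.2).card := by
    intro A
    rw [← card_image_of_injective _ him]
    apply card_le_card
    intro p hp
    obtain ⟨p', hp', rfl⟩ := mem_image.1 hp
    rw [mem_filter] at hp' ⊢
    exact ⟨mem_univ _, hCf p'.1, hp'.2⟩
  let HHa : V → Finset (ι × Fin r) := fun z => univ.filter fun p => HA s t φ c z (ε p.1) (ab p)
  let HHb : V → Finset (ι × Fin r) := fun z => univ.filter fun p => HB s t φ c z (ε p.1) (ab p)
  let HHc : {p : V × V // p.1 ≠ p.2} → Finset (ι × Fin r) := fun w =>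
    univ.filter fun p => HC s t φ c w.1.1 w.1.2 (ε p.1) (ab p)
  let K : V ⊕ (V ⊕ {p : V × V // p.1 ≠ p.2}) → ℕ :=
    Sum.elim (fun _ => 18) (Sum.elim (fun _ => 14) (fun _ => 2))
  have hrR : (0 : ℝ) < r := by exact_mod_cast hr0
  have hρ0 : (0 : ℝ) ≤ (q : ℝ) / r := by positivity
  obtain ⟨x, hx1, hx2⟩ := h6 ι (V ⊕ (V ⊕ {p : V × V // p.1 ≠ p.2})) r hr0
    (fun p p' => Coll s t φ c (ε p.1) (ab p) (ε p'.1) (ab p')) (Sum.elim HHa (Sum.elim HHb HHc)) K
    (106 / 100) (by norm_num) (by rintro (z | z | z) <;> simp [K])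
    (fun p p' h => PH2.Coll_symm h) (by
      intro i
      -- pairs
      have s1 : ∑ j : Fin r, 2 * ((univ.filter fun p' : ι × Fin r => p'.1 ≠ i ∧
          Coll s t φ c (ε i) (ab (i, j)) (ε p'.1) (ab p')).card : ℝ) * ((106 / 100 : ℝ) / r) ^ 2 ≤
          2 * (106 / 100) ^ 2 * (1 / 10 ^ 4 * ((q : ℝ) / r)) := by
        have b1 : ∀ j : Fin r, ((univ.filter fun p' : ι × Fin r => p'.1 ≠ i ∧
            Coll s t φ c (ε i) (ab (i, j)) (ε p'.1) (ab p')).card : ℝ) ≤ 1 / 10 ^ 4 * q := by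
          intro j
          have c1 : (univ.filter fun p' : ι × Fin r => p'.1 ≠ i ∧
              Coll s t φ c (ε i) (ab (i, j)) (ε p'.1) (ab p')).card ≤
              (univ.filter fun p' : ι × Fin r =>
                Coll s t φ c (ε i) (ab (i, j)) (ε p'.1) (ab p')).card := by
            apply card_le_card
            intro p hp
            rw [mem_filter] at hp ⊢
            exact ⟨hp.1, hp.2.2⟩
          have c2 := hcmp (fun e b => Coll s t φ c (ε i) (ab (i, j)) e b)
          have c3 := h2 V E Q s t φ hG c hc ⌊41 / 10 * X⌋₊ ⌊82 / 10 * X⌋₊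
            (fun v => Nat.le_floor (hR v)) (fun v a => Nat.le_floor (hEm v a)) (ε i) (ab (i, j)) (hCf i)
          have c4 := (c1.trans c2).trans c3
          have c5 : ((univ.filter fun p' : ι × Fin r => p'.1 ≠ i ∧
              Coll s t φ c (ε i) (ab (i, j)) (ε p'.1) (ab p')).card : ℝ) ≤
              4 * (1 + 2 * (⌊41 / 10 * X⌋₊ : ℝ) + (⌊82 / 10 * X⌋₊ : ℝ)) := by exact_mod_cast c4
          have c6 : (⌊41 / 10 * X⌋₊ : ℝ) ≤ 41 / 10 * X := Nat.floor_le (by positivity)
          have c7 : (⌊82 / 10 * X⌋₊ : ℝ) ≤ 82 / 10 * X := Nat.floor_le (by positivity)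
          have c8 : (10 : ℝ) ^ 6 * X ≤ q := hq
          linarith
        calc ∑ j : Fin r, 2 * ((univ.filter fun p' : ι × Fin r => p'.1 ≠ i ∧
              Coll s t φ c (ε i) (ab (i, j)) (ε p'.1) (ab p')).card : ℝ) * ((106 / 100 : ℝ) / r) ^ 2
            ≤ ∑ j : Fin r, 2 * (1 / 10 ^ 4 * (q : ℝ)) * ((106 / 100 : ℝ) / r) ^ 2 := by
              refine Finset.sum_le_sum fun j _ => ?_
              refine mul_le_mul_of_nonneg_right ?_ (by positivity)
              linarith [b1 j]
          _ = r * (2 * (1 / 10 ^ 4 * (q : ℝ)) * ((106 / 100 : ℝ) / r) ^ 2) := by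
              rw [Finset.sum_const, Finset.card_univ, Fintype.card_fin, nsmul_eq_mul]
          _ = _ := by
              field_simp
      -- first kind
      have s2 := PH2.part HHa i 17 2 ((51 / 10 * (q : ℝ)) ^ 17 / (Nat.factorial 17 : ℝ))
        (((106 / 100 : ℝ) / r) ^ 18) (by
          intro z
          have d1 : ((HHa z).card : ℝ) ≤ 51 / 10 * q := by
            have e1 := (hcmp (fun e b => HA s t φ c z e b)).trans ((h3 V E Q s t φ hG c hc).1 z)
            have e2 : ((HHa z).card : ℝ) ≤ dg s t univ z + P1 s t φ c z := by exact_mod_cast e1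
            have e3 := hP1 z
            have e4 : (dg s t univ z : ℝ) ≤ q := by exact_mod_cast (hqd ▸ (hG.dg z).le)
            linarith
          refine (Nat.choose_le_pow_div 17 _).trans ?_
          gcongr) (by positivity) (by positivity) (by
          intro j S hS
          have e1 := (h3 V E Q s t φ hG c hc).2 (ε i) (ab (i, j)) (hCf i)
          refine le_trans (card_le_card ?_) e1
          intro z hz
          have := hS z hz
          simpa [HHa] using this)
      -- second kind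
      have s3 := PH2.part HHb i 13 1 ((41 / 10 * (q : ℝ)) ^ 13 / (Nat.factorial 13 : ℝ))
        (((106 / 100 : ℝ) / r) ^ 14) (by
          intro z
          have d1 : ((HHb z).card : ℝ) ≤ 41 / 10 * q := by
            have e1 := (hcmp (fun e b => HB s t φ c z e b)).trans ((h4 V E Q s t φ hG c hc).1 z)
            have e2 : ((HHb z).card : ℝ) ≤ P2 s t φ c z := by exact_mod_cast e1
            exact e2.trans (hP2 z)
          refine (Nat.choose_le_pow_div 13 _).trans ?_
          gcongr) (by positivity) (by positivity) (by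
          intro j S hS
          have e1 := (h4 V E Q s t φ hG c hc).2 (ε i) (ab (i, j)) (hCf i)
          refine le_trans (card_le_card ?_) e1
          intro z hz
          have := hS z hz
          simpa [HHb] using this)
      -- third kind
      have s4 := PH2.part HHc i 1 2 (1 / 10 ^ 5 * (q : ℝ)) (((106 / 100 : ℝ) / r) ^ 2) (by
          intro w
          rw [Nat.choose_one_right]
          have e1 := (hcmp (fun e b => HC s t φ c w.1.1 w.1.2 e b)).trans
            ((h5 V E Q s t φ hG c hc).1 w.1.1 w.1.2 w.2)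
          have e2 : ((HHc w).card : ℝ) ≤ P5 s t φ c w.1.1 w.1.2 + P5 s t φ c w.1.2 w.1.1 := by
            exact_mod_cast e1
          have e3 := hP5 _ _ w.2
          have e4 := hP5 _ _ w.2.symm
          have e5 : (10 : ℝ) ^ 6 * X ≤ q := hq
          linarith) (by positivity) (by positivity) (by
          intro j S hS
          have e1 := (h5 V E Q s t φ hG c hc).2 (ε i) (ab (i, j)) (hCf i)
          refine le_trans ?_ e1
          refine card_le_card_of_injOn (fun w => w.1) ?_ (fun w _ w' _ h => Subtype.ext h)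
          intro w hw
          have := hS w hw
          rw [mem_coe, mem_filter]
          refine ⟨mem_univ _, w.2, ?_⟩
          simpa [HHc] using this)
      rw [PH2.alg _ _ _ _ _ _ 17 hrR.ne'] at s2
      rw [PH2.alg _ _ _ _ _ _ 13 hrR.ne'] at s3
      have s4' : (r : ℝ) * ((2 : ℕ) * (1 / 10 ^ 5 * (q : ℝ) * ((106 / 100 : ℝ) / r) ^ 2)) =
          2 * (106 / 100) ^ 2 * (1 / 10 ^ 5 * ((q : ℝ) / r)) := by
        push_cast
        field_simp
      rw [s4'] at s4
      have hnum := h7 ((q : ℝ) / r) hρ0 hρ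
      rw [Fintype.sum_sum_type, Fintype.sum_sum_type]
      simp only [Sum.elim_inl, Sum.elim_inr, K]
      simp only [show (18 - 1 : ℕ) = 17 from rfl, show (14 - 1 : ℕ) = 13 from rfl,
        show (2 - 1 : ℕ) = 1 from rfl]
      simp only [Nat.cast_ofNat, Nat.cast_one, one_mul] at s2 s3
      refine hnum.trans ?_
      refine mul_le_mul_of_nonneg_left ?_ (by norm_num)
      linarith)
  refine ⟨x, hx1, fun z => ?_, fun z => ?_, fun y z hyz => ?_⟩
  · have e1 := hx2 (Sum.inl z)
    simpa [HHa, K] using e1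
  · have e1 := hx2 (Sum.inr (Sum.inl z))
    simpa [HHb, K] using e1
  · have e1 := hx2 (Sum.inr (Sum.inr ⟨(y, z), hyz⟩))
    simpa [HHc, K] using e1

end PH2

theorem PH2_thm (h1 : S_BAD) (h2 : S_COL) (h3 : S_HTA) (h4 : S_HTB) (h5 : S_HTC) (h6 : S_TUP)
    (h7 : S_NUM) : S_PH2 := by
  intro V E Q _ _ _ s t φ hG c hc X hX hq hP1 hP2 hR hEm hP5
  set q := Fintype.card Q with hqd
  have hqR : (10 : ℝ) ^ 6 ≤ q := by nlinarith
  have hq6 : 10 ^ 6 ≤ q := by exact_mod_cast hqR
  -- the number of colours which are not good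
  have hbad : ∀ e, Cf s t φ c e → (univ.filter fun b => ¬ Good s t φ c e b).card ≤ q / 2000 := by
    intro e he
    rw [Nat.le_div_iff_mul_le (by norm_num)]
    have a1 := h1 V E Q s t φ hG c hc e he
    have a2 := hR (cu s t φ c e)
    have a3 := hR (cv s t φ c e)
    have a4 := hEm (cv s t φ c e) (φ e)
    have a5 : (((univ.filter fun b => ¬ Good s t φ c e b).card : ℕ) : ℝ) ≤
        2 + R s t φ c (cu s t φ c e) + R s t φ c (cv s t φ c e) + Em s t φ c (cv s t φ c e) (φ e) := by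
      exact_mod_cast a1
    have a6 : (((univ.filter fun b => ¬ Good s t φ c e b).card : ℕ) : ℝ) * 2000 ≤ q := by
      nlinarith
    exact_mod_cast a6
  obtain ⟨r, hr⟩ : ∃ r, r = q - q / 2000 := ⟨_, rfl⟩
  have hr0 : 0 < r := by omega
  have hgood : ∀ e, Cf s t φ c e → r ≤ Fintype.card {b // Good s t φ c e b} := by
    intro e he
    rw [Fintype.card_subtype]
    have a1 := hbad e he
    have a2 := Finset.card_filter_add_card_filter_not (s := (univ : Finset Q))
      (fun b => Good s t φ c e b)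
    rw [Finset.card_univ, ← hqd] at a2
    omega
  let ι : Type := {e // Cf s t φ c e}
  have hemb : ∀ e : ι, Nonempty (Fin r ↪ {b // Good s t φ c e.1 b}) := by
    intro e
    refine Function.Embedding.nonempty_of_card_le ?_
    rw [Fintype.card_fin]
    exact hgood e.1 e.2
  let a : ∀ e : ι, Fin r ↪ {b // Good s t φ c e.1 b} := fun e => Classical.choice (hemb e)
  let ab : ι × Fin r → Q := fun p => (a p.1 p.2).1
  have hrR : (0 : ℝ) < r := by exact_mod_cast hr0
  have hρ : (q : ℝ) / r ≤ 1001 / 1000 := by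
    rw [div_le_iff₀ hrR]
    have e1 : 1999 * q ≤ 2000 * r := by omega
    have e2 : (1999 : ℝ) * q ≤ 2000 * r := by exact_mod_cast e1
    linarith
  obtain ⟨x, hx1, hx2, hx3, hx4⟩ := PH2.core h2 h3 h4 h5 h6 h7 s t φ hG c hc X hX q hqd hq hP1 hP2
    hR hEm hP5 r hr0 hρ (fun i : ι => i.1) Subtype.val_injective (fun i => i.2) ab
    (fun i j j' h => (a i).injective (Subtype.ext h))
  let β : E → Q := fun e => if h : Cf s t φ c e then ab (⟨e, h⟩, x ⟨e, h⟩) else φ e
  have hβ : ∀ e (h : Cf s t φ c e), β e = ab (⟨e, h⟩, x ⟨e, h⟩) := fun e h => dif_pos h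
  refine ⟨β, ?_, ?_, ?_, ?_, ?_⟩
  · intro e he
    rw [hβ e he]
    exact (a ⟨e, he⟩ (x ⟨e, he⟩)).2
  · intro e e' hne he he' hcol
    rw [hβ e he, hβ e' he'] at hcol
    exact hx1 ⟨e, he⟩ ⟨e', he'⟩ (fun h => hne (congrArg Subtype.val h)) hcol
  · intro z
    have e1 := hx2 z
    have e2 := PH2.card_sub (fun i : ι => i.1) (fun e => Cf s t φ c e ∧ HA s t φ c z e (β e))
      (fun i => HA s t φ c z i.1 (ab (i, x i)))
      (fun e he => ⟨⟨e, he.1⟩, rfl, by rw [← hβ e he.1]; exact he.2⟩)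
    omega
  · intro z
    have e1 := hx3 z
    have e2 := PH2.card_sub (fun i : ι => i.1) (fun e => Cf s t φ c e ∧ HB s t φ c z e (β e))
      (fun i => HB s t φ c z i.1 (ab (i, x i)))
      (fun e he => ⟨⟨e, he.1⟩, rfl, by rw [← hβ e he.1]; exact he.2⟩)
    omega
  · intro y z hyz
    have e1 := hx4 y z hyz
    have e2 := PH2.card_sub (fun i : ι => i.1) (fun e => Cf s t φ c e ∧ HC s t φ c y z e (β e))
      (fun i => HC s t φ c y z i.1 (ab (i, x i)))
      (fun e he => ⟨⟨e, he.1⟩, rfl, by rw [← hβ e he.1]; exact he.2⟩)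
    omega

end Pool.Agent.TCM
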