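import Pool.Agent.TCM.Basic

set_option autoImplicit false

/-!
# One round of moves
-/

namespace Pool.Agent.TCM

open Finset Classical TC19

namespace RND

variable {V Q O : Type} [Fintype V] [Fintype Q] [Fintype O]

omit [Fintype Q] [Fintype O] in
theorem gain_nonneg {mv : V → O → V → Option Q} {c : V → Q} {ω : V → Q → ℝ}
    (hω : ∀ x β, 0 ≤ ω x β) (u : V) (s : Option O) : 0 ≤ gain mv c ω u s := by
  cases s with
  | none => exact hω _ _
  | some o =>
    simp only [gain]
    split_ifs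
    · exact hω _ _
    · refine Finset.sum_nonneg fun x _ => ?_
      cases h : mv u o x with
      | none => simp
      | some β => simpa using hω x β

theorem gain_le {G : SimpleGraph V} {mv : V → O → V → Option Q} {c : V → Q} {ω : V → Q → ℝ}
    {η : ℝ} (hmv : Moves G c mv) (hω : ∀ x β, 0 ≤ ω x β ∧ ω x β ≤ η) (u : V) (s : Option O) :
    gain mv c ω u s ≤ 2 * η := by
  have hη : 0 ≤ η := (hω u (c u)).1.trans (hω u (c u)).2
  cases s with
  | none =>
    have := (hω u (c u)).2
    simp only [gain]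
    linarith
  | some o =>
    simp only [gain]
    split_ifs
    · have := (hω u (c u)).2
      linarith
    · calc ∑ x, (mv u o x).elim 0 (ω x) ≤ ∑ x, if mv u o x ≠ none then η else 0 := by
            refine Finset.sum_le_sum fun x _ => ?_
            cases h : mv u o x with
            | none => simp
            | some β => simpa using (hω x β).2
        _ = ((univ.filter fun x => mv u o x ≠ none).card : ℝ) * η := by
            rw [← Finset.sum_filter, Finset.sum_const, nsmul_eq_mul]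
        _ ≤ 2 * η := by
            refine mul_le_mul_of_nonneg_right ?_ hη
            exact_mod_cast hmv.two u o

theorem gain_zero {G : SimpleGraph V} {mv : V → O → V → Option Q} {c : V → Q} {ω : V → Q → ℝ}
    (hmv : Moves G c mv) {u : V} (h0 : ∀ x ∈ CN G u, ∀ β, ω x β = 0) (s : Option O) :
    gain mv c ω u s = 0 := by
  have hu : u ∈ CN G u := mem_CN.mpr (Or.inl rfl)
  cases s with
  | none => exact h0 u hu _
  | some o =>
    simp only [gain]
    split_ifs
    · exact h0 u hu _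
    · refine Finset.sum_eq_zero fun x _ => ?_
      cases h : mv u o x with
      | none => simp
      | some β =>
        have h1 : x ∈ CN G u := mem_CN.mpr (hmv.loc u o x (by rw [h]; simp))
        simpa using h0 x h1 β

omit [Fintype Q] in
/-- the number of pairs of incompatible moves, one of which is made by `i` -/
theorem card_pairs {G : SimpleGraph V} {mv : V → O → V → Option Q} {A B : ℕ}
    (hA : Fintype.card O = A)
    (hB : ∀ p : V × O, (univ.filter fun p' => Incomp G mv p p').card ≤ B) (i : V) :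
    (univ.filter fun p : (V × O) × (V × O) => p.1.1 = i ∧ Incomp G mv p.1 p.2).card ≤ A * B := by
  have h1 : (univ.filter fun p : (V × O) × (V × O) => p.1.1 = i ∧ Incomp G mv p.1 p.2) ⊆
      (univ : Finset O).biUnion fun o =>
        (univ.filter fun p' => Incomp G mv (i, o) p').image fun p' => ((i, o), p') := by
    intro p hp
    obtain ⟨⟨u, o⟩, p'⟩ := p
    simp only [Finset.mem_filter, Finset.mem_univ, true_and] at hp
    obtain ⟨rfl, hp⟩ := hp
    refine Finset.mem_biUnion.mpr ⟨o, Finset.mem_univ _, Finset.mem_image.mpr ⟨p', ?_, rfl⟩⟩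
    simpa using hp
  refine (Finset.card_le_card h1).trans ?_
  rw [← hA, ← Finset.card_univ]
  refine Finset.card_biUnion_le_card_mul _ _ _ fun o _ => ?_
  exact Finset.card_image_le.trans (hB (i, o))

omit [Fintype Q] in
theorem card_events {G : SimpleGraph V} {mv : V → O → V → Option Q} {A B : ℕ}
    (hA : Fintype.card O = A)
    (hB : ∀ p : V × O, (univ.filter fun p' => Incomp G mv p p').card ≤ B) (i : V) :
    (univ.filter fun j : {p : (V × O) × (V × O) // p.1.1 ≠ p.2.1 ∧ Incomp G mv p.1 p.2} =>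
      i ∈ ({j.1.1.1, j.1.2.1} : Finset V)).card ≤ 2 * (A * B) := by
  have h1 := card_pairs (G := G) (mv := mv) hA hB i
  have h2 : (univ.filter fun p : (V × O) × (V × O) => p.2.1 = i ∧ Incomp G mv p.1 p.2).card ≤
      A * B := by
    refine le_trans ?_ h1
    refine Finset.card_le_card_of_injOn (fun p => (p.2, p.1)) ?_ ?_
    · intro p hp
      simp only [Finset.coe_filter, Finset.mem_univ, true_and, Set.mem_ofPred_eq] at hp ⊢
      exact ⟨hp.1, hp.2.symm⟩
    · intro p _ p' _ h
      simp only [Prod.mk.injEq] at h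
      exact Prod.ext h.2 h.1
  have h3 : (univ.filter fun j : {p : (V × O) × (V × O) // p.1.1 ≠ p.2.1 ∧
      Incomp G mv p.1 p.2} => i ∈ ({j.1.1.1, j.1.2.1} : Finset V)).card ≤
      ((univ.filter fun p : (V × O) × (V × O) => p.1.1 = i ∧ Incomp G mv p.1 p.2) ∪
        (univ.filter fun p : (V × O) × (V × O) => p.2.1 = i ∧ Incomp G mv p.1 p.2)).card := by
    refine Finset.card_le_card_of_injOn (fun j => j.1) ?_ ?_
    · intro j hj
      simp only [Finset.coe_filter, Finset.mem_univ, true_and, Set.mem_ofPred_eq,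
        Finset.mem_insert, Finset.mem_singleton] at hj
      rw [Finset.mem_coe, Finset.mem_union, Finset.mem_filter, Finset.mem_filter]
      rcases hj with hj | hj
      · exact Or.inl ⟨Finset.mem_univ _, hj.symm, j.2.2⟩
      · exact Or.inr ⟨Finset.mem_univ _, hj.symm, j.2.2⟩
    · intro p _ p' _ h
      exact Subtype.ext h
  have h4 := Finset.card_union_le
    (univ.filter fun p : (V × O) × (V × O) => p.1.1 = i ∧ Incomp G mv p.1 p.2)
    (univ.filter fun p : (V × O) × (V × O) => p.2.1 = i ∧ Incomp G mv p.1 p.2)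
  omega

/-- the numbers -/
theorem numbers {q M X η : ℝ} (hq : 10 ^ 4 ≤ q) (hη : 0 < η) (hM : 41 / 10 ≤ M)
    (hX : X ≤ (1 - (q - 1) / (2 * q * 10 ^ 6)) * M + 2 / (q * 10 ^ 6) * q) :
    -(1 / 10 ^ 10 / (2 * η) * (M - 1 / 10 ^ 8)) +
      (1 + 1 / 10 ^ 10) * (1 + 1 / 10 ^ 10) * (1 / 10 ^ 10 / (2 * η)) * X ≤
      -(1 / 10 ^ 18 / η) := by
  have hq0 : 0 < q := by linarith
  have e1 : (49995 : ℝ) / 10 ^ 11 ≤ (q - 1) / (2 * q * 10 ^ 6) := by
    rw [div_le_div_iff₀ (by norm_num) (by positivity)]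
    nlinarith
  have e2 : 2 / (q * 10 ^ 6) * q = 2 / 10 ^ 6 := by
    field_simp
  have e3 : (1 - (q - 1) / (2 * q * 10 ^ 6)) * M ≤ (1 - 49995 / 10 ^ 11) * M := by
    refine mul_le_mul_of_nonneg_right ?_ (by linarith)
    linarith
  have e4 : X ≤ (1 - 49995 / 10 ^ 11) * M + 2 / 10 ^ 6 := by
    rw [e2] at hX
    linarith
  have e5 : (1 + 1 / 10 ^ 10) * (1 + 1 / 10 ^ 10) * X ≤
      (1 + 1 / 10 ^ 10) * (1 + 1 / 10 ^ 10) * ((1 - 49995 / 10 ^ 11) * M + 2 / 10 ^ 6) :=
    mul_le_mul_of_nonneg_left e4 (by norm_num)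
  have e6 : (1 + 1 / 10 ^ 10) * (1 + 1 / 10 ^ 10) * ((1 - 49995 / 10 ^ 11) * M + 2 / 10 ^ 6) ≤
      M - 3 / 10 ^ 8 := by
    nlinarith
  have e7 : -(M - 1 / 10 ^ 8) + (1 + 1 / 10 ^ 10) * (1 + 1 / 10 ^ 10) * X ≤ -(2 / 10 ^ 8) := by
    linarith
  have e8 : 0 ≤ 1 / 10 ^ 10 / (2 * η) := by positivity
  calc -(1 / 10 ^ 10 / (2 * η) * (M - 1 / 10 ^ 8)) +
      (1 + 1 / 10 ^ 10) * (1 + 1 / 10 ^ 10) * (1 / 10 ^ 10 / (2 * η)) * X
      = 1 / 10 ^ 10 / (2 * η) *
        (-(M - 1 / 10 ^ 8) + (1 + 1 / 10 ^ 10) * (1 + 1 / 10 ^ 10) * X) := by ring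
    _ ≤ 1 / 10 ^ 10 / (2 * η) * (-(2 / 10 ^ 8)) := mul_le_mul_of_nonneg_left e7 e8
    _ = -(1 / 10 ^ 18 / η) := by
        field_simp

end RND

open RND in
theorem RND_thm (h1 : S_CMP) (h2 : S_CNT) (h3 : S_EXP) (h4 : S_EXB) : S_RND := by
  intro V Q O J _ _ _ _ G c mv hmv hc hnb hO hQ ω η M N hη hω htot hN hNe hM hMc
  obtain ⟨q, hq⟩ : ∃ q : ℝ, q = (Fintype.card Q : ℝ) := ⟨_, rfl⟩
  have hqR : (10 ^ 4 : ℝ) ≤ q := by
    rw [hq]
    exact_mod_cast hQ
  have hq0 : 0 < q := by linarith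
  obtain ⟨N₀, hN₀⟩ : ∃ N₀ : ℕ, (N₀ : ℝ) = 10 ^ 6 := ⟨10 ^ 6, by norm_num⟩
  have hN₀p : 0 < N₀ := by
    have : (0 : ℝ) < N₀ := by rw [hN₀]; norm_num
    exact_mod_cast this
  have hOne : Nonempty O := Fintype.card_pos_iff.mp (by omega)
  have hΩne : Nonempty (Fin N₀ × O) := ⟨(⟨0, hN₀p⟩, hOne.some)⟩
  have hcardΩ : (Fintype.card (Fin N₀ × O) : ℝ) = 10 ^ 6 * (2 * q) := by
    rw [Fintype.card_prod, Fintype.card_fin, hO, hq]
    push_cast
    rw [hN₀]
  have hcnt := h2 V Q O G c mv hmv hnb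
  obtain ⟨x, hxA, hxB⟩ := lllc (ι := V) (Ω := Fin N₀ × O)
    (JA := {p : (V × O) × (V × O) // p.1.1 ≠ p.2.1 ∧ Incomp G mv p.1 p.2}) (JB := J)
    (fun p => {p.1.1.1, p.1.2.1})
    (fun p i => if i = p.1.1.1 then {(⟨0, hN₀p⟩, p.1.1.2)} else {(⟨0, hN₀p⟩, p.1.2.2)})
    (fun j => univ.filter fun u => ∃ x ∈ CN G u, ∃ β, ω j x β ≠ 0)
    (fun j u w => gain mv c (ω j) u (opt w))
    (fun j i w => gain_nonneg (fun x β => (hω j x β).1) i _)
    (fun _ => M - 1 / 10 ^ 8) (fun _ => 1 / 10 ^ 10 / (2 * η)) (fun _ => by positivity)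
    (fun _ => ((1 + 1 / 10 ^ 10) / (10 ^ 6 * (2 * q))) ^ 2) (fun _ => by positivity)
    (fun _ => by
      have e1 : (1 + 1 / 10 ^ 10) / (10 ^ 6 * (2 * q)) < 1 := by
        rw [div_lt_one (by positivity)]
        nlinarith
      have e2 : 0 ≤ (1 + 1 / 10 ^ 10) / (10 ^ 6 * (2 * q)) := by positivity
      exact pow_lt_one₀ e2 e1 (by norm_num))
    (fun _ => Real.exp (-(1 / 10 ^ 18 / η))) (fun _ => (Real.exp_pos _).le)
    (fun _ => by
      rw [Real.exp_lt_one_iff]
      have : 0 < 1 / 10 ^ 18 / η := by positivity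
      linarith)
    (1 + 1 / 10 ^ 10) (by norm_num)
    (by
      intro i
      have e1 : ∑ j ∈ univ.filter (fun j : {p : (V × O) × (V × O) //
          p.1.1 ≠ p.2.1 ∧ Incomp G mv p.1 p.2} => i ∈ ({j.1.1.1, j.1.2.1} : Finset V)),
          ((1 + 1 / 10 ^ 10) / (10 ^ 6 * (2 * q))) ^ 2 ≤ 17 / 10 ^ 12 := by
        rw [Finset.sum_const, nsmul_eq_mul]
        have e2 : ((univ.filter (fun j : {p : (V × O) × (V × O) //
            p.1.1 ≠ p.2.1 ∧ Incomp G mv p.1 p.2} =>
              i ∈ ({j.1.1.1, j.1.2.1} : Finset V))).card : ℝ) ≤ 64 * q ^ 2 := by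
          have e3 := card_events (G := G) (mv := mv) hO hcnt i
          have e4 : ((univ.filter (fun j : {p : (V × O) × (V × O) //
            p.1.1 ≠ p.2.1 ∧ Incomp G mv p.1 p.2} =>
              i ∈ ({j.1.1.1, j.1.2.1} : Finset V))).card : ℝ) ≤
              ((2 * (2 * Fintype.card Q * (16 * Fintype.card Q)) : ℕ) : ℝ) := by
            exact_mod_cast e3
          refine e4.trans (le_of_eq ?_)
          rw [hq]
          push_cast
          ring
        calc _ ≤ 64 * q ^ 2 * ((1 + 1 / 10 ^ 10) / (10 ^ 6 * (2 * q))) ^ 2 :=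
              mul_le_mul_of_nonneg_right e2 (by positivity)
          _ = 16 * (1 + 1 / 10 ^ 10) ^ 2 / 10 ^ 12 := by
              field_simp
              norm_num
          _ ≤ 17 / 10 ^ 12 := by norm_num
      have e5 : ∑ j ∈ univ.filter (fun j : J => i ∈ univ.filter fun u =>
          ∃ x ∈ CN G u, ∃ β, ω j x β ≠ 0), Real.exp (-(1 / 10 ^ 18 / η)) ≤ 1 / 10 ^ 11 := by
        rw [Finset.sum_const, nsmul_eq_mul]
        refine le_trans (mul_le_mul_of_nonneg_right ?_ (Real.exp_pos _).le) hNe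
        have e6 := hN i
        have e7 : (univ.filter (fun j : J => i ∈ univ.filter fun u =>
          ∃ x ∈ CN G u, ∃ β, ω j x β ≠ 0)) =
            univ.filter fun j => ∃ x ∈ CN G i, ∃ β, ω j x β ≠ 0 := by
          ext j
          simp
        rw [e7]
        exact_mod_cast e6
      have e8 : (1 : ℝ) ≤ (1 + 1 / 10 ^ 10) * (1 - (17 / 10 ^ 12 + 1 / 10 ^ 11)) := by norm_num
      refine e8.trans (mul_le_mul_of_nonneg_left ?_ (by norm_num))
      linarith)
    (by
      intro p
      obtain ⟨⟨⟨u, o⟩, ⟨u', o'⟩⟩, hne, hp⟩ := p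
      simp only at hne ⊢
      rw [Finset.prod_pair hne, if_pos rfl, if_neg (Ne.symm hne), Finset.card_singleton,
        Finset.card_singleton, hcardΩ]
      apply le_of_eq
      push_cast
      ring)
    (by
      intro j
      have e1 := h4 V (Fin N₀ × O) (univ.filter fun u => ∃ x ∈ CN G u, ∃ β, ω j x β ≠ 0)
        (fun u w => gain mv c (ω j) u (opt w)) (1 / 10 ^ 10 / (2 * η)) (1 / 10 ^ 10)
        (1 + 1 / 10 ^ 10) (by positivity) (by norm_num) (by norm_num)
        (fun i _ w => ⟨gain_nonneg (fun x β => (hω j x β).1) i _, by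
          have e2 := gain_le hmv (hω j) i (opt w)
          calc 1 / 10 ^ 10 / (2 * η) * gain mv c (ω j) i (opt w) ≤
              1 / 10 ^ 10 / (2 * η) * (2 * η) := mul_le_mul_of_nonneg_left e2 (by positivity)
            _ = 1 / 10 ^ 10 := by field_simp⟩)
      have e3 := h3 V Q O G c mv hmv hO (by omega) N₀ hN₀p (ω j) (fun x β => (hω j x β).1)
      have e4 : ∑ u ∈ univ.filter (fun u => ∃ x ∈ CN G u, ∃ β, ω j x β ≠ 0),
          avg (fun w : Fin N₀ × O => gain mv c (ω j) u (opt w)) ≤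
          ∑ u, avg (fun w : Fin N₀ × O => gain mv c (ω j) u (opt w)) := by
        refine Finset.sum_le_sum_of_subset_of_nonneg (Finset.filter_subset _ _) fun u _ _ => ?_
        unfold avg
        refine div_nonneg (Finset.sum_nonneg fun w _ => ?_) (by positivity)
        exact gain_nonneg (fun x β => (hω j x β).1) u _
      have e5 : ∑ u ∈ univ.filter (fun u => ∃ x ∈ CN G u, ∃ β, ω j x β ≠ 0),
          avg (fun w : Fin N₀ × O => gain mv c (ω j) u (opt w)) ≤
          (1 - (q - 1) / (2 * q * 10 ^ 6)) * M + 2 / (q * 10 ^ 6) * q := by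
        refine (e4.trans e3).trans ?_
        rw [← hq, hN₀]
        have e6 : 0 ≤ 1 - (q - 1) / (2 * q * 10 ^ 6) := by
          have : (q - 1) / (2 * q * 10 ^ 6) ≤ 1 := by
            rw [div_le_one (by positivity)]
            nlinarith
          linarith
        have e7 := mul_le_mul_of_nonneg_left (hMc j) e6
        have e8 : ∑ x, ∑ β, ω j x β ≤ q := by
          rw [hq]
          exact htot j
        have e9 : 0 ≤ 2 / (q * 10 ^ 6) := by positivity
        have e10 := mul_le_mul_of_nonneg_left e8 e9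
        linarith
      have e11 := numbers hqR hη hM e5
      refine (mul_le_mul_of_nonneg_left e1 (Real.exp_pos _).le).trans ?_
      rw [← Real.exp_add]
      exact Real.exp_le_exp.mpr e11)
  obtain ⟨c', hc', hω'⟩ := h1 V Q O G c mv hmv hc (fun u => opt (x u)) (by
    intro u u' o o' hne ho ho' hinc
    have key : ∀ (v : V) (a : O), opt (x v) = some a → x v = (⟨0, hN₀p⟩, a) := by
      intro v a hv
      unfold opt at hv
      split_ifs at hv with h0
      rw [Option.some.injEq] at hv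
      exact Prod.ext (Fin.ext h0) hv
    obtain ⟨i, hi, hxi⟩ := hxA ⟨((u, o), (u', o')), hne, hinc⟩
    simp only [Finset.mem_insert, Finset.mem_singleton] at hi
    rcases hi with rfl | rfl
    · apply hxi
      rw [if_pos rfl, key _ _ ho]
      exact Finset.mem_singleton_self _
    · apply hxi
      rw [if_neg (Ne.symm hne), key _ _ ho']
      exact Finset.mem_singleton_self _)
  refine ⟨c', hc', fun j => ?_⟩
  refine (hω' (ω j) fun x β => (hω j x β).1).trans ?_
  refine le_trans (le_of_eq ?_) (hxB j)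
  refine (Finset.sum_subset (Finset.subset_univ _) fun u _ hu => ?_).symm
  refine gain_zero hmv (fun y hy β => ?_) _
  by_contra hne
  exact hu (Finset.mem_filter.mpr ⟨Finset.mem_univ _, y, hy, β, hne⟩)

end Pool.Agent.TCM
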