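import Pool.Agent.TCM.Basic

set_option autoImplicit false

/-!
# Total colouring of multigraphs with a constant additive error: the main theorem for multigraphs
with small multiplicities
-/

namespace Pool.Agent.TCM

open Finset Classical TC19

theorem THM_thm (h1 : S_VCO) (h2 : S_FIX) (h3 : S_DGR) (h4 : S_MUL) (h5 : S_PH2) (h6 : S_LFT) :
    S_THM := by
  intro V E Q _ _ _ s t φ hG μ hμ hmult hq
  obtain ⟨q, hqdef⟩ : ∃ q, q = Fintype.card Q := ⟨_, rfl⟩
  have h1' := h1 V E Q s t φ hG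
  have h5' := h5 V E Q s t φ hG
  rw [← hqdef] at hq h1' h5'
  have hLam : 10 ^ 20 ≤ Lam q := by
    unfold Lam
    nlinarith [Nat.zero_le (Nat.log 2 q)]
  have hμL : 10 ^ 20 ≤ μ * Lam q := by
    calc 10 ^ 20 = 1 * 10 ^ 20 := by norm_num
      _ ≤ μ * Lam q := Nat.mul_le_mul hμ hLam
  obtain ⟨c, hc, hP1, hP2, hR, hEm, hP5⟩ := h1' (by omega) μ hμ hmult (by omega)
  obtain ⟨X, hX⟩ : ∃ X : ℝ, X = ((μ * Lam q : ℕ) : ℝ) := ⟨_, rfl⟩
  have hXe : X = (μ : ℝ) * (Lam q : ℝ) := by rw [hX]; push_cast; rfl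
  have hX1 : 1 ≤ X := by
    have : 1 ≤ μ * Lam q := by omega
    rw [hX]
    exact_mod_cast this
  have hX2 : 10 ^ 6 * X ≤ (q : ℝ) := by
    rw [hX]
    exact_mod_cast hq
  have hLX : (Lam q : ℝ) ≤ X := by
    have : Lam q ≤ μ * Lam q := Nat.le_mul_of_pos_left _ (by omega)
    rw [hX]
    exact_mod_cast this
  obtain ⟨β, hgood, hcoll, hA, hB, hC⟩ := h5' c hc X hX1 hX2 hP1 hP2
    (fun v => (hR v).trans (mul_le_mul_of_nonneg_left hLX (by norm_num)))
    (fun v a => by rw [hXe]; exact hEm v a) (fun y z hyz => by rw [hXe]; exact hP5 y z hyz)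
  obtain ⟨ψ, hψ1, hψ2⟩ := h2 V E Q s t φ hG c hc β hgood hcoll
  exact h6 V E Q s t c {h | Unc s t φ c β h} ψ 31 3 hG.lp hc hψ1 hψ2
    (fun z => by
      have e1 := h3 V E Q s t φ hG c hc β z
      have e2 := hA z
      have e3 := hB z
      simp only [Set.mem_setOf_eq]
      omega)
    (fun y z hyz => by
      have e1 := h4 V E Q s t φ hG c hc β y z hyz
      have e2 := hC y z hyz
      simp only [Set.mem_setOf_eq]
      omega)

end Pool.Agent.TCM
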