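import Pool.Agent.TCM.Basic

set_option autoImplicit false

/-!
# TUP: the local lemma for incompatible pairs and for many hits
-/

namespace Pool.Agent.TCM

open Finset Classical TC19

namespace TUP

variable {ι T : Type} [Fintype ι] [Fintype T] {r : ℕ}

/-- the pairs which are not allowed -/
abbrev Pr (col : ι × Fin r → ι × Fin r → Prop) : Type :=
  {p : (ι × Fin r) × (ι × Fin r) // p.1.1 ≠ p.2.1 ∧ col p.1 p.2}

/-- the tuples which are not allowed -/
abbrev Tu (H : T → Finset (ι × Fin r)) (K : T → ℕ) (t : T) : Type :=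
  {S : Finset (ι × Fin r) // S ⊆ H t ∧ S.card = K t ∧ Set.InjOn Prod.fst (S : Set (ι × Fin r))}

omit [Fintype T] in
theorem cnt_pairs (col : ι × Fin r → ι × Fin r → Prop) (hc : ∀ p p', col p p' → col p' p)
    (i : ι) : (univ.filter fun p : Pr col => i ∈ ({p.1.1.1, p.1.2.1} : Finset ι)).card ≤
      ∑ j : Fin r, 2 * (univ.filter fun p' => p'.1 ≠ i ∧ col (i, j) p').card := by
  have h1 : (univ.filter fun p : Pr col => i ∈ ({p.1.1.1, p.1.2.1} : Finset ι)).image
      (fun p => p.1) ⊆
      (univ.biUnion fun j : Fin r => ((univ.filter fun p' => p'.1 ≠ i ∧ col (i, j) p').image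
        fun p' => ((i, j), p'))) ∪
      (univ.biUnion fun j : Fin r => ((univ.filter fun p' => p'.1 ≠ i ∧ col (i, j) p').image
        fun p' => (p', (i, j)))) := by
    intro q hq
    obtain ⟨⟨⟨⟨a, b⟩, ⟨a', b'⟩⟩, h2, h3⟩, h4, rfl⟩ := Finset.mem_image.mp hq
    have h5 : i = a ∨ i = a' := by simpa using (Finset.mem_filter.mp h4).2
    rw [Finset.mem_union]
    rcases h5 with rfl | rfl
    · left
      refine Finset.mem_biUnion.mpr ⟨b, Finset.mem_univ _, Finset.mem_image.mpr
        ⟨(a', b'), Finset.mem_filter.mpr ⟨Finset.mem_univ _, ?_, h3⟩, rfl⟩⟩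
      exact fun h => h2 h.symm
    · right
      refine Finset.mem_biUnion.mpr ⟨b', Finset.mem_univ _, Finset.mem_image.mpr
        ⟨(a, b), Finset.mem_filter.mpr ⟨Finset.mem_univ _, ?_, hc _ _ h3⟩, rfl⟩⟩
      exact fun h => h2 h
  rw [← Finset.card_image_of_injective _ Subtype.val_injective, ← Finset.mul_sum, two_mul]
  refine (Finset.card_le_card h1).trans ((Finset.card_union_le _ _).trans
    (Nat.add_le_add ?_ ?_))
  · exact Finset.card_biUnion_le.trans (Finset.sum_le_sum fun j _ => Finset.card_image_le)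
  · exact Finset.card_biUnion_le.trans (Finset.sum_le_sum fun j _ => Finset.card_image_le)

omit [Fintype T] in
theorem cnt_tuples (H : T → Finset (ι × Fin r)) (K : T → ℕ) (t : T) (i : ι) :
    (univ.filter fun S : Tu H K t => i ∈ S.1.image Prod.fst).card ≤
      ∑ j : Fin r, if (i, j) ∈ H t then (H t).card.choose (K t - 1) else 0 := by
  have h1 : (univ.filter fun S : Tu H K t => i ∈ S.1.image Prod.fst).image (fun S => S.1) ⊆
      univ.biUnion fun j : Fin r => if (i, j) ∈ H t then
        ((H t).powersetCard (K t - 1)).image (fun S => insert (i, j) S) else ∅ := by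
    intro q hq
    obtain ⟨⟨S, h2, h3, h4⟩, h5, rfl⟩ := Finset.mem_image.mp hq
    obtain ⟨⟨a, j⟩, h6, h7⟩ := Finset.mem_image.mp (Finset.mem_filter.mp h5).2
    change a = i at h7
    subst h7
    change (a, j) ∈ S at h6
    refine Finset.mem_biUnion.mpr ⟨j, Finset.mem_univ _, ?_⟩
    rw [if_pos (h2 h6)]
    refine Finset.mem_image.mpr ⟨S.erase (a, j), Finset.mem_powersetCard.mpr ⟨?_, ?_⟩,
      Finset.insert_erase h6⟩
    · exact (Finset.erase_subset _ _).trans h2
    · rw [Finset.card_erase_of_mem h6, h3]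
  rw [← Finset.card_image_of_injective _ Subtype.val_injective]
  refine (Finset.card_le_card h1).trans (Finset.card_biUnion_le.trans
    (Finset.sum_le_sum fun j _ => ?_))
  split_ifs
  · exact Finset.card_image_le.trans (Finset.card_powersetCard _ _).le
  · simp

end TUP

theorem TUP_thm : S_TUP := by
  intro ι T _ _ r hr col H K φ hφ hK hc hi
  haveI : Nonempty (Fin r) := ⟨⟨0, hr⟩⟩
  have hr' : (0 : ℝ) < r := by exact_mod_cast hr
  have hφ0 : 0 < φ := by linarith
  have hd : 0 ≤ φ / r := by positivity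
  -- the sums are smaller than one
  have hlt : ∀ i, (∑ j : Fin r,
      2 * ((univ.filter fun p' => p'.1 ≠ i ∧ col (i, j) p').card : ℝ) * (φ / r) ^ 2 +
      ∑ t, ∑ j : Fin r, if (i, j) ∈ H t then
        (((H t).card.choose (K t - 1) : ℕ) : ℝ) * (φ / r) ^ K t else 0) < 1 := by
    intro i
    by_contra h
    push Not at h
    have h1 := hi i
    have h2 := mul_nonneg hφ0.le (sub_nonneg.mpr h)
    nlinarith
  have hn1 : ∀ i, 0 ≤ ∑ j : Fin r,
      2 * ((univ.filter fun p' => p'.1 ≠ i ∧ col (i, j) p').card : ℝ) * (φ / r) ^ 2 := by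
    intro i
    exact Finset.sum_nonneg fun j _ => by positivity
  have hn3 : ∀ (i : ι) (t : T) (j : Fin r), 0 ≤ (if (i, j) ∈ H t then
        (((H t).card.choose (K t - 1) : ℕ) : ℝ) * (φ / r) ^ K t else 0) := by
    intro i t j
    split_ifs
    · positivity
    · exact le_rfl
  have hn2 : ∀ i, 0 ≤ ∑ t, ∑ j : Fin r, (if (i, j) ∈ H t then
        (((H t).card.choose (K t - 1) : ℕ) : ℝ) * (φ / r) ^ K t else 0) := by
    intro i
    exact Finset.sum_nonneg fun t _ => Finset.sum_nonneg fun j _ => hn3 i t j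
  let YA : TUP.Pr col ⊕ (Σ t : T, TUP.Tu H K t) → Finset ι := Sum.elim
    (fun p => {p.1.1.1, p.1.2.1}) (fun S => S.2.1.image Prod.fst)
  let PA : TUP.Pr col ⊕ (Σ t : T, TUP.Tu H K t) → ι → Finset (Fin r) := Sum.elim
    (fun p i => univ.filter fun j => (i, j) = p.1.1 ∨ (i, j) = p.1.2)
    (fun S i => univ.filter fun j => (i, j) ∈ S.2.1)
  let qA : TUP.Pr col ⊕ (Σ t : T, TUP.Tu H K t) → ℝ := Sum.elim
    (fun _ => (φ / r) ^ 2) (fun S => (φ / r) ^ K S.1)
  have hone : ∀ a i, i ∈ YA a → (PA a i).card ≤ 1 := by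
    rintro (⟨⟨⟨a, b⟩, ⟨a', b'⟩⟩, h1, h2⟩ | ⟨t, S, h1, h2, h3⟩) i hi
    · rw [Finset.card_le_one]
      intro x hx y hy
      have hx' : (i, x) = (a, b) ∨ (i, x) = (a', b') := (Finset.mem_filter.mp hx).2
      have hy' : (i, y) = (a, b) ∨ (i, y) = (a', b') := (Finset.mem_filter.mp hy).2
      change a ≠ a' at h1
      simp only [Prod.mk.injEq] at hx' hy'
      rcases hx' with ⟨h3, h4⟩ | ⟨h3, h4⟩ <;> rcases hy' with ⟨h5, h6⟩ | ⟨h5, h6⟩
      · rw [h4, h6]
      · exact absurd (h3.symm.trans h5) h1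
      · exact absurd (h5.symm.trans h3) h1
      · rw [h4, h6]
    · rw [Finset.card_le_one]
      intro x hx y hy
      have hx' : (i, x) ∈ S := (Finset.mem_filter.mp hx).2
      have hy' : (i, y) ∈ S := (Finset.mem_filter.mp hy).2
      have h4 := h3 (Finset.mem_coe.mpr hx') (Finset.mem_coe.mpr hy') rfl
      exact congrArg Prod.snd h4
  have hfac : ∀ a i, i ∈ YA a →
      φ * (((PA a i).card : ℝ) / (Fintype.card (Fin r) : ℕ)) ≤ φ / r := by
    intro a i hi
    have h1 : ((PA a i).card : ℝ) ≤ 1 := by exact_mod_cast hone a i hi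
    rw [Fintype.card_fin, ← mul_div_assoc]
    exact div_le_div_of_nonneg_right (by nlinarith) hr'.le
  have hprod : ∀ a, ∏ i ∈ YA a, (φ * (((PA a i).card : ℝ) / (Fintype.card (Fin r) : ℕ))) ≤
      (φ / r) ^ (YA a).card := by
    intro a
    rw [← Finset.prod_const]
    refine Finset.prod_le_prod (fun i _ => by positivity) fun i hi => hfac a i hi
  obtain ⟨x, hx, -⟩ := lllc (ι := ι) (Ω := Fin r) (JB := Empty) YA PA (fun e => e.elim)
    (fun e => e.elim) (fun e => e.elim) (fun e => e.elim) (fun e => e.elim) (fun e => e.elim)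
    qA (by
      rintro (p | S)
      · exact pow_nonneg hd _
      · exact pow_nonneg hd _) (by
      rintro (⟨⟨⟨a, b⟩, ⟨a', b'⟩⟩, h1, h2⟩ | ⟨t, S, h1, h2, h3⟩)
      · change (φ / r) ^ 2 < 1
        refine lt_of_le_of_lt ?_ (hlt a)
        have h3 : (φ / r) ^ 2 ≤ ∑ j : Fin r,
            2 * ((univ.filter fun p' => p'.1 ≠ a ∧ col (a, j) p').card : ℝ) * (φ / r) ^ 2 := by
          have h4 : 1 ≤ (univ.filter fun p' => p'.1 ≠ a ∧ col (a, b) p').card := by
            refine Finset.card_pos.mpr ⟨(a', b'), Finset.mem_filter.mpr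
              ⟨Finset.mem_univ _, fun h => h1 h.symm, h2⟩⟩
          have h5 : (1 : ℝ) ≤ ((univ.filter fun p' => p'.1 ≠ a ∧ col (a, b) p').card : ℝ) := by
            exact_mod_cast h4
          refine le_trans ?_ (Finset.single_le_sum (f := fun j : Fin r =>
            2 * ((univ.filter fun p' => p'.1 ≠ a ∧ col (a, j) p').card : ℝ) * (φ / r) ^ 2)
            (fun j _ => by positivity) (Finset.mem_univ b))
          have h6 : 0 ≤ (φ / r) ^ 2 := pow_nonneg hd _
          change (φ / r) ^ 2 ≤
            2 * ((univ.filter fun p' => p'.1 ≠ a ∧ col (a, b) p').card : ℝ) * (φ / r) ^ 2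
          nlinarith
        linarith [hn2 a]
      · change (φ / r) ^ K t < 1
        have h4 : 0 < S.card := by
          rw [h2]
          exact hK t
        obtain ⟨⟨a, b⟩, h5⟩ := Finset.card_pos.mp h4
        refine lt_of_le_of_lt ?_ (hlt a)
        have h6 : (φ / r) ^ K t ≤ ∑ t, ∑ j : Fin r, (if (a, j) ∈ H t then
            (((H t).card.choose (K t - 1) : ℕ) : ℝ) * (φ / r) ^ K t else 0) := by
          have h7 : 1 ≤ (H t).card.choose (K t - 1) := by
            refine Nat.choose_pos ?_
            have := Finset.card_le_card h1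
            omega
          have h8 : (1 : ℝ) ≤ (((H t).card.choose (K t - 1) : ℕ) : ℝ) := by exact_mod_cast h7
          refine le_trans ?_ (Finset.single_le_sum (f := fun t : T => ∑ j : Fin r,
            (if (a, j) ∈ H t then
            (((H t).card.choose (K t - 1) : ℕ) : ℝ) * (φ / r) ^ K t else 0))
            (fun t _ => Finset.sum_nonneg fun j _ => hn3 a t j) (Finset.mem_univ t))
          refine le_trans ?_ (Finset.single_le_sum (f := fun j : Fin r =>
            (if (a, j) ∈ H t then
            (((H t).card.choose (K t - 1) : ℕ) : ℝ) * (φ / r) ^ K t else 0))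
            (fun j _ => hn3 a t j) (Finset.mem_univ b))
          change (φ / r) ^ K t ≤ (if (a, b) ∈ H t then
            (((H t).card.choose (K t - 1) : ℕ) : ℝ) * (φ / r) ^ K t else 0)
          rw [if_pos (h1 h5)]
          have h9 : 0 ≤ (φ / r) ^ K t := pow_nonneg hd _
          nlinarith
        linarith [hn1 a])
    (fun e => e.elim) (fun e => e.elim) (fun e => e.elim) φ hφ (by
      intro i
      refine (hi i).trans ?_
      have h0 : ∑ j ∈ (univ : Finset Empty).filter (fun j => i ∈ (fun e : Empty =>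
          (e.elim : Finset ι)) j), (fun e : Empty => (e.elim : ℝ)) j = 0 := by
        refine Finset.sum_eq_zero fun e _ => e.elim
      have h1 : ∑ j ∈ univ.filter (fun j => i ∈ YA j), qA j ≤ (∑ j : Fin r,
        2 * ((univ.filter fun p' => p'.1 ≠ i ∧ col (i, j) p').card : ℝ) * (φ / r) ^ 2 +
        ∑ t, ∑ j : Fin r, if (i, j) ∈ H t then
          (((H t).card.choose (K t - 1) : ℕ) : ℝ) * (φ / r) ^ K t else 0) := by
        rw [Finset.sum_filter, Fintype.sum_sum_type]
        refine add_le_add ?_ ?_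
        · change ∑ p : TUP.Pr col, (if i ∈ ({p.1.1.1, p.1.2.1} : Finset ι) then (φ / r) ^ 2
            else 0) ≤ _
          rw [← Finset.sum_filter, Finset.sum_const, nsmul_eq_mul, ← Finset.sum_mul]
          refine mul_le_mul_of_nonneg_right ?_ (pow_nonneg hd _)
          have h2 := TUP.cnt_pairs col hc i
          exact_mod_cast h2
        · rw [Fintype.sum_sigma]
          refine Finset.sum_le_sum fun t _ => ?_
          change ∑ S : TUP.Tu H K t, (if i ∈ S.1.image Prod.fst then (φ / r) ^ K t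
            else 0) ≤ _
          have h2 := TUP.cnt_tuples H K t i
          have h3 : (∑ j : Fin r, if (i, j) ∈ H t then
              (((H t).card.choose (K t - 1) : ℕ) : ℝ) * (φ / r) ^ K t else 0) =
              ((∑ j : Fin r, if (i, j) ∈ H t then (H t).card.choose (K t - 1) else 0 : ℕ) : ℝ) *
                (φ / r) ^ K t := by
            rw [Nat.cast_sum, Finset.sum_mul]
            refine Finset.sum_congr rfl fun j _ => ?_
            split_ifs
            · rfl
            · simp
          rw [← Finset.sum_filter, Finset.sum_const, nsmul_eq_mul, h3]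
          refine mul_le_mul_of_nonneg_right ?_ (pow_nonneg hd _)
          exact_mod_cast h2
      have h2 : (∑ j ∈ univ.filter (fun j => i ∈ YA j), qA j) +
          (∑ j ∈ (univ : Finset Empty).filter (fun j => i ∈ (fun e : Empty =>
          (e.elim : Finset ι)) j), (fun e : Empty => (e.elim : ℝ)) j) ≤ (∑ j : Fin r,
        2 * ((univ.filter fun p' => p'.1 ≠ i ∧ col (i, j) p').card : ℝ) * (φ / r) ^ 2 +
        ∑ t, ∑ j : Fin r, if (i, j) ∈ H t then
          (((H t).card.choose (K t - 1) : ℕ) : ℝ) * (φ / r) ^ K t else 0) := by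
        rw [h0, add_zero]
        exact h1
      exact mul_le_mul_of_nonneg_left (sub_le_sub_left h2 _) hφ0.le) (by
      intro a
      refine (hprod a).trans ?_
      rcases a with ⟨⟨⟨a, b⟩, ⟨a', b'⟩⟩, h1, h2⟩ | ⟨t, S, h1, h2, h3⟩
      · change (φ / r) ^ (({a, a'} : Finset ι).card) ≤ (φ / r) ^ 2
        rw [Finset.card_pair h1]
      · change (φ / r) ^ ((S.image Prod.fst).card) ≤ (φ / r) ^ K t
        rw [Finset.card_image_of_injOn h3, h2])
    (fun e => e.elim)
  refine ⟨x, ?_, ?_⟩
  · intro i i' hne h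
    obtain ⟨k, h1, h2⟩ := hx (Sum.inl ⟨((i, x i), (i', x i')), hne, h⟩)
    refine h2 (Finset.mem_filter.mpr ⟨Finset.mem_univ _, ?_⟩)
    have h3 : k = i ∨ k = i' := by simpa [YA] using h1
    rcases h3 with rfl | rfl
    · exact Or.inl rfl
    · exact Or.inr rfl
  · intro t
    by_contra h
    push Not at h
    obtain ⟨D, h1, h2⟩ := Finset.exists_subset_card_eq h
    have hinj : Function.Injective fun i : ι => (i, x i) := fun a b hab => congrArg Prod.fst hab
    have hmem : ∀ i ∈ D, (i, x i) ∈ H t := fun i hi => (Finset.mem_filter.mp (h1 hi)).2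
    obtain ⟨k, h3, h4⟩ := hx (Sum.inr ⟨t, D.image fun i => (i, x i), by
      intro q hq
      obtain ⟨i, hi, rfl⟩ := Finset.mem_image.mp hq
      exact hmem i hi, by rw [Finset.card_image_of_injective _ hinj, h2], by
      intro p hp q hq hpq
      obtain ⟨i, -, rfl⟩ := Finset.mem_image.mp (Finset.mem_coe.mp hp)
      obtain ⟨j, -, rfl⟩ := Finset.mem_image.mp (Finset.mem_coe.mp hq)
      change i = j at hpq
      rw [hpq]⟩)
    refine h4 (Finset.mem_filter.mpr ⟨Finset.mem_univ _, ?_⟩)
    obtain ⟨⟨a, b⟩, h5, h6⟩ := Finset.mem_image.mp h3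
    change a = k at h6
    subst h6
    obtain ⟨i, hi, h7⟩ := Finset.mem_image.mp h5
    simp only [Prod.mk.injEq] at h7
    obtain ⟨rfl, rfl⟩ := h7
    exact h5

end Pool.Agent.TCM
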