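import Pool.Agent.TCM.Basic

set_option autoImplicit false

/-!
# The vertex colouring
-/

namespace Pool.Agent.TCM

open Finset Classical TC19

namespace VCO

theorem split {A B : Type} (P : A ⊕ B → Prop) {a b : ℕ}
    (hA : ∀ S : Finset A, (∀ x ∈ S, P (Sum.inl x)) → S.card ≤ a)
    (hB : ∀ S : Finset B, (∀ x ∈ S, P (Sum.inr x)) → S.card ≤ b) :
    ∀ S : Finset (A ⊕ B), (∀ x ∈ S, P x) → S.card ≤ a + b := by
  intro S hS
  rw [← Finset.card_toLeft_add_card_toRight (u := S)]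
  exact Nat.add_le_add (hA _ fun x hx => hS _ (Finset.mem_toLeft.mp hx))
    (hB _ fun x hx => hS _ (Finset.mem_toRight.mp hx))

/-- the index set -/
abbrev J (V Q : Type) : Type := V ⊕ V ⊕ V ⊕ (V × Q) ⊕ {p : V × V // p.1 ≠ p.2}

section

variable {V E Q : Type} [Fintype V] [Fintype E] [Fintype Q] (s t : E → V) (φ : E → Q)
  (q l m : ℝ)

/-- the functionals -/
noncomputable def om : J V Q → V → Q → ℝ
  | Sum.inl z => fun u β => wt s t φ (τ1 s t z) u β / q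
  | Sum.inr (Sum.inl z) => fun u β => wt s t φ (τ2 s t φ z) u β / q
  | Sum.inr (Sum.inr (Sum.inl v)) => fun u β => wt s t φ (τ3 s t v) u β / l
  | Sum.inr (Sum.inr (Sum.inr (Sum.inl p))) => fun u β => w4 s t φ p.1 p.2 u β / (2 * (m * l))
  | Sum.inr (Sum.inr (Sum.inr (Sum.inr p))) =>
      fun u β => wt s t φ (τ5 s t φ p.1.1 p.1.2) u β / (m * l)

end

theorem bd {x C a η : ℝ} (ha : 0 < a) (h : 0 ≤ x ∧ x ≤ C) (hC : C ≤ a * η) :
    0 ≤ x / a ∧ x / a ≤ η := by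
  refine ⟨div_nonneg h.1 ha.le, ?_⟩
  rw [div_le_iff₀ ha]
  linarith [h.2, mul_comm a η]

theorem sumdiv {V Q : Type} [Fintype V] [Fintype Q] (w : V → Q → ℝ) {a C b : ℝ} (ha : 0 < a)
    (h : ∑ u, ∑ β, w u β ≤ C) (hC : C ≤ a * b) : ∑ u, ∑ β, w u β / a ≤ b := by
  have h1 : ∑ u, ∑ β, w u β / a = (∑ u, ∑ β, w u β) / a := by
    rw [Finset.sum_div]
    refine Finset.sum_congr rfl fun u _ => ?_
    rw [Finset.sum_div]
  rw [h1, div_le_iff₀ ha]
  linarith [mul_comm a b]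

theorem near {V Q : Type} {G : SimpleGraph V} [Fintype V] {w : V → Q → ℝ} {a : ℝ} {u z : V}
    {k : ℕ} (hk : ∀ x β, w x β ≠ 0 → z ∈ ball G x k)
    (h : ∃ x ∈ CN G u, ∃ β, w x β / a ≠ 0) : z ∈ ball G u (k + 1) := by
  obtain ⟨x, hx, β, hβ⟩ := h
  refine ball_step hx k (hk x β fun h0 => hβ ?_)
  rw [h0, zero_div]

/-- the numerical condition -/
theorem num (q : ℕ) (hq : 10 ^ 4 ≤ q) :
    ((q ^ 8 : ℕ) : ℝ) * Real.exp (-(1 / 10 ^ 18 / (1 / (Lam q : ℝ)))) ≤ 1 / 10 ^ 11 := by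
  have hqR : (10 : ℝ) ^ 4 ≤ q := by exact_mod_cast hq
  have hq0 : (0 : ℝ) < q := by linarith [show (0 : ℝ) < 10 ^ 4 by norm_num]
  have h1 : 1 / 10 ^ 18 / (1 / (Lam q : ℝ)) = ((100 : ℕ) : ℝ) * ((Nat.log 2 q : ℝ) + 1) := by
    rw [Lam]
    push_cast
    rw [div_div_eq_mul_div, div_one]
    ring
  rw [h1, ← mul_neg, Real.exp_nat_mul]
  have h2 : Real.exp (-((Nat.log 2 q : ℝ) + 1)) ≤ 1 / q := by
    rw [Real.exp_neg, ← one_div]
    apply one_div_le_one_div_of_le hq0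
    have h3 : q < 2 ^ (Nat.log 2 q + 1) := Nat.lt_pow_succ_log_self (by norm_num) q
    have h4 : (q : ℝ) ≤ 2 ^ (Nat.log 2 q + 1) := by exact_mod_cast h3.le
    have h5 : (2 : ℝ) ≤ Real.exp 1 := by
      have := Real.add_one_le_exp (1 : ℝ)
      linarith
    have h6 : Real.exp ((Nat.log 2 q : ℝ) + 1) = Real.exp 1 ^ (Nat.log 2 q + 1) := by
      rw [← Real.exp_nat_mul]
      push_cast
      ring_nf
    rw [h6]
    exact h4.trans (pow_le_pow_left₀ (by norm_num) h5 _)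
  have h7 : Real.exp (-((Nat.log 2 q : ℝ) + 1)) ^ 100 ≤ (1 / q) ^ 100 :=
    pow_le_pow_left₀ (Real.exp_pos _).le h2 100
  push_cast
  calc (q : ℝ) ^ 8 * Real.exp (-((Nat.log 2 q : ℝ) + 1)) ^ 100
      ≤ (q : ℝ) ^ 8 * (1 / q) ^ 100 := mul_le_mul_of_nonneg_left h7 (by positivity)
    _ = (1 / q) ^ 92 := by
        field_simp
    _ ≤ (1 / 10 ^ 4) ^ 92 := by
        apply pow_le_pow_left₀ (by positivity)
        exact one_div_le_one_div_of_le (by norm_num) hqR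
    _ ≤ 1 / 10 ^ 11 := by norm_num

end VCO

open VCO in
theorem VCO_thm (h1 : S_PH1) (h2 : S_FA1) (h3 : S_FA2) (h4 : S_FA3) (h5 : S_FA4) (h6 : S_FA5) :
    S_VCO := by
  intro V E Q _ _ _ s t φ hMG hq μ hμ hmult hμL
  set q : ℕ := Fintype.card Q with hqdef
  have hL1 : 1 ≤ Lam q := by
    unfold Lam
    have : 1 ≤ 10 ^ 20 * (Nat.log 2 q + 1) := Nat.mul_pos (by norm_num) (Nat.succ_pos _)
    exact this
  have hL0 : (0 : ℝ) < (Lam q : ℝ) := by exact_mod_cast hL1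
  have hL1R : (1 : ℝ) ≤ (Lam q : ℝ) := by exact_mod_cast hL1
  have hq0 : (0 : ℝ) < (q : ℝ) := by
    have : 0 < q := lt_of_lt_of_le (by norm_num) hq
    exact_mod_cast this
  have hm0 : (0 : ℝ) < (μ : ℝ) := by exact_mod_cast hμ
  have hm1 : (1 : ℝ) ≤ (μ : ℝ) := by exact_mod_cast hμ
  have hmL : (μ : ℝ) * (Lam q : ℝ) ≤ (q : ℝ) := by exact_mod_cast hμL
  have hmL0 : (0 : ℝ) < (μ : ℝ) * (Lam q : ℝ) := mul_pos hm0 hL0
  have hmL1 : (1 : ℝ) ≤ (μ : ℝ) * (Lam q : ℝ) := by nlinarith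
  have hmL2 : (0 : ℝ) < 2 * ((μ : ℝ) * (Lam q : ℝ)) := by linarith
  have hη : (0 : ℝ) < 1 / (Lam q : ℝ) := by positivity
  have hηq : (μ : ℝ) ≤ (q : ℝ) * (1 / (Lam q : ℝ)) := by
    rw [mul_one_div, le_div_iff₀ hL0]
    exact hmL
  have hNb := Nb_card_lt hMG
  have hballs : ∀ u k, (ball (SG s t) u k).card ≤ q ^ k := fun u k => ball_card hNb u k
  obtain ⟨c, hc, hcj⟩ := h1 V Q (J V Q) (SG s t) hNb hq
    (om s t φ (q : ℝ) (Lam q : ℝ) (μ : ℝ)) (1 / (Lam q : ℝ)) (q ^ 8) hη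
    (by
      rintro (z | z | v | p | p) u β
      · exact bd hq0 ((h2 V E Q s t φ hMG μ hmult z).1 u β) hηq
      · exact bd hq0 ((h3 V E Q s t φ hMG μ hmult z).1 u β) hηq
      · refine bd hL0 ((h4 V E Q s t φ hMG v).1 u β) ?_
        rw [mul_one_div, div_self hL0.ne']
      · refine bd hmL2 ((h5 V E Q s t φ hMG μ hmult p.1 p.2).1 u β) ?_
        have : 2 * ((μ : ℝ) * (Lam q : ℝ)) * (1 / (Lam q : ℝ)) = 2 * μ := by
          field_simp
        rw [this]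
      · refine bd hmL0 ((h6 V E Q s t φ hMG μ hmult p.1.1 p.1.2 p.2).1 u β) ?_
        have : ((μ : ℝ) * (Lam q : ℝ)) * (1 / (Lam q : ℝ)) = μ := by
          field_simp
        rw [this])
    (by
      rintro (z | z | v | p | p)
      · exact sumdiv _ hq0 (h2 V E Q s t φ hMG μ hmult z).2.1 (le_of_eq (by ring))
      · exact sumdiv _ hq0 (h3 V E Q s t φ hMG μ hmult z).2.1 (le_of_eq (by ring))
      · refine sumdiv _ hL0 (h4 V E Q s t φ hMG v).2.1 ?_
        nlinarith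
      · refine sumdiv _ hmL2 (h5 V E Q s t φ hMG μ hmult p.1 p.2).2.1 ?_
        nlinarith
      · refine sumdiv _ hmL0 (h6 V E Q s t φ hMG μ hmult p.1.1 p.1.2 p.2).2.1 ?_
        have : (μ : ℝ) * (q : ℝ) ≤ μ * Lam q * q := by
          have h7 : 0 ≤ (μ : ℝ) * q * (Lam q - 1) :=
            mul_nonneg (mul_nonneg hm0.le hq0.le) (by linarith)
          nlinarith
        exact this)
    (by
      intro u
      have a1 : ∀ S : Finset V, (∀ z ∈ S, ∃ x ∈ CN (SG s t) u, ∃ β,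
          om s t φ (q : ℝ) (Lam q : ℝ) (μ : ℝ) (Sum.inl z) x β ≠ 0) → S.card ≤ q ^ 3 := by
        intro S hS
        refine (Finset.card_le_card ?_).trans (hballs u 3)
        intro z hz
        exact near (h2 V E Q s t φ hMG μ hmult z).2.2.2 (hS z hz)
      have a2 : ∀ S : Finset V, (∀ z ∈ S, ∃ x ∈ CN (SG s t) u, ∃ β,
          om s t φ (q : ℝ) (Lam q : ℝ) (μ : ℝ) (Sum.inr (Sum.inl z)) x β ≠ 0) →
            S.card ≤ q ^ 4 := by
        intro S hS
        refine (Finset.card_le_card ?_).trans (hballs u 4)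
        intro z hz
        exact near (h3 V E Q s t φ hMG μ hmult z).2.2.2 (hS z hz)
      have a3 : ∀ S : Finset V, (∀ z ∈ S, ∃ x ∈ CN (SG s t) u, ∃ β,
          om s t φ (q : ℝ) (Lam q : ℝ) (μ : ℝ) (Sum.inr (Sum.inr (Sum.inl z))) x β ≠ 0) →
            S.card ≤ q ^ 2 := by
        intro S hS
        refine (Finset.card_le_card ?_).trans (hballs u 2)
        intro z hz
        exact near (h4 V E Q s t φ hMG z).2.2.2 (hS z hz)
      have a4 : ∀ S : Finset (V × Q), (∀ p ∈ S, ∃ x ∈ CN (SG s t) u, ∃ β,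
          om s t φ (q : ℝ) (Lam q : ℝ) (μ : ℝ) (Sum.inr (Sum.inr (Sum.inr (Sum.inl p)))) x β ≠
            0) → S.card ≤ q ^ 3 * q := by
        intro S hS
        refine (Finset.card_le_card (t := ball (SG s t) u 3 ×ˢ univ) ?_).trans ?_
        · intro p hp
          rw [Finset.mem_product]
          exact ⟨near (h5 V E Q s t φ hMG μ hmult p.1 p.2).2.2.2 (hS p hp),
            Finset.mem_univ _⟩
        · rw [Finset.card_product]
          exact Nat.mul_le_mul_right _ (hballs u 3)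
      have a5 : ∀ S : Finset {p : V × V // p.1 ≠ p.2}, (∀ p ∈ S, ∃ x ∈ CN (SG s t) u, ∃ β,
          om s t φ (q : ℝ) (Lam q : ℝ) (μ : ℝ) (Sum.inr (Sum.inr (Sum.inr (Sum.inr p)))) x β ≠
            0) → S.card ≤ q ^ 3 * q ^ 4 := by
        intro S hS
        refine (Finset.card_le_card_of_injOn (t := ball (SG s t) u 3 ×ˢ ball (SG s t) u 4)
          (fun p => p.1) ?_ ?_).trans ?_
        · intro p hp
          have hp' := hS p hp
          have h7 := (h6 V E Q s t φ hMG μ hmult p.1.1 p.1.2 p.2).2.2.2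
          rw [Finset.mem_coe, Finset.mem_product]
          exact ⟨near (fun x β h => (h7 x β h).1) hp', near (fun x β h => (h7 x β h).2) hp'⟩
        · intro p _ p' _ h
          exact Subtype.ext h
        · rw [Finset.card_product]
          exact Nat.mul_le_mul (hballs u 3) (hballs u 4)
      have a6 : q ^ 3 + (q ^ 4 + (q ^ 2 + (q ^ 3 * q + q ^ 3 * q ^ 4))) ≤ q ^ 8 := by
        have hq1 : 1 ≤ q := le_trans (by norm_num) hq
        have b1 : q ^ 3 ≤ q ^ 7 := Nat.pow_le_pow_right hq1 (by norm_num)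
        have b2 : q ^ 4 ≤ q ^ 7 := Nat.pow_le_pow_right hq1 (by norm_num)
        have b3 : q ^ 2 ≤ q ^ 7 := Nat.pow_le_pow_right hq1 (by norm_num)
        have b4 : q ^ 3 * q = q ^ 4 := by ring
        have b5 : q ^ 3 * q ^ 4 = q ^ 7 := by ring
        have b6 : q ^ 8 = q ^ 7 * q := by ring
        have b7 : q ^ 7 * 5 ≤ q ^ 7 * q := Nat.mul_le_mul_left _ (by omega)
        rw [b4, b5, b6]
        omega
      refine le_trans ?_ a6
      exact split (fun j => ∃ x ∈ CN (SG s t) u, ∃ β,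
          om s t φ (q : ℝ) (Lam q : ℝ) (μ : ℝ) j x β ≠ 0) a1 (split _ a2 (split _ a3
            (split _ a4 a5))) _ (fun j hj => (Finset.mem_filter.mp hj).2))
    (num q hq)
  have key : ∀ (w : V → Q → ℝ) (a b P : ℝ), 0 < a → ∑ u, w u (c u) = P →
      ∑ u, w u (c u) / a ≤ 41 / 10 → P ≤ 41 / 10 * a := by
    intro w a b P ha hP h
    rw [← Finset.sum_div, hP, div_le_iff₀ ha] at h
    exact h
  refine ⟨c, hc, ?_, ?_, ?_, ?_, ?_⟩
  · intro z
    exact key _ _ 0 _ hq0 ((h2 V E Q s t φ hMG μ hmult z).2.2.1 c hc) (hcj (Sum.inl z))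
  · intro z
    exact key _ _ 0 _ hq0 ((h3 V E Q s t φ hMG μ hmult z).2.2.1 c hc) (hcj (Sum.inr (Sum.inl z)))
  · intro v
    exact key _ _ 0 _ hL0 ((h4 V E Q s t φ hMG v).2.2.1 c hc)
      (hcj (Sum.inr (Sum.inr (Sum.inl v))))
  · intro v a
    have h7 := key _ _ 0 _ hmL2 ((h5 V E Q s t φ hMG μ hmult v a).2.2.1 c)
      (hcj (Sum.inr (Sum.inr (Sum.inr (Sum.inl (v, a))))))
    linarith
  · intro y z hyz
    exact key _ _ 0 _ hmL0 ((h6 V E Q s t φ hMG μ hmult y z hyz).2.2.1 c hc)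
      (hcj (Sum.inr (Sum.inr (Sum.inr (Sum.inr ⟨(y, z), hyz⟩)))))

end Pool.Agent.TCM
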