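import Pool.Agent.TCM.Basic

set_option autoImplicit false

/-!
# WTG: general properties of the functionals
-/

namespace Pool.Agent.TCM

open Finset Classical TC19

namespace WTG

theorem key {V E Q : Type} [Fintype V] [Fintype E] [Fintype Q] {s t : E → V} {φ : E → Q}
    (hp : Proper s t Set.univ φ) (τ : E → V → ℝ) (u : V) (β : Q) :
    wt s t φ τ u β = 0 ∨ ∃ e, Inc s t e u ∧ wt s t φ τ u β = τ e u := by
  by_cases h : ∃ e, Inc s t e u ∧ φ e = β
  · obtain ⟨e, he, hb⟩ := h
    refine Or.inr ⟨e, he, ?_⟩
    unfold wt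
    rw [Finset.sum_eq_single e]
    · rw [if_pos ⟨he, hb⟩]
    · intro f _ hf
      rw [if_neg]
      rintro ⟨h1, h2⟩
      exact hf (eq_of_proper hp h1 he (h2.trans hb.symm))
    · intro h
      exact absurd (Finset.mem_univ e) h
  · refine Or.inl (Finset.sum_eq_zero fun e _ => if_neg fun he => h ⟨e, he⟩)

theorem sum_inc {V E : Type} [Fintype V] {s t : E → V} (hst : ∀ e, s e ≠ t e) (τ : E → V → ℝ)
    (e : E) : ∑ u, (if Inc s t e u then τ e u else 0) = τ e (s e) + τ e (t e) := by
  rw [← Finset.sum_filter]
  have h : (univ.filter fun u => Inc s t e u) = {s e, t e} := by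
    ext u
    rw [Finset.mem_filter, Finset.mem_insert, Finset.mem_singleton]
    unfold Inc
    constructor
    · rintro ⟨_, h | h⟩
      · exact Or.inl h.symm
      · exact Or.inr h.symm
    · rintro (h | h)
      · exact ⟨Finset.mem_univ _, Or.inl h.symm⟩
      · exact ⟨Finset.mem_univ _, Or.inr h.symm⟩
  rw [h, Finset.sum_pair (hst e)]

end WTG

open WTG in
theorem WTG_thm : S_WTG := by
  intro V E Q _ _ _ s t φ hst hp τ hτ
  refine ⟨?_, ?_, ?_, ?_, ?_⟩
  · intro u β
    refine Finset.sum_nonneg fun e _ => ?_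
    split_ifs
    · exact hτ e u
    · exact le_rfl
  · intro C hC h u β
    rcases key hp τ u β with h0 | ⟨e, he, h1⟩
    · rw [h0]; exact hC
    · rw [h1]; exact h e u he
  · have h1 : ∀ u, ∑ β, wt s t φ τ u β = ∑ e, if Inc s t e u then τ e u else 0 := by
      intro u
      unfold wt
      rw [Finset.sum_comm]
      refine Finset.sum_congr rfl fun e _ => ?_
      by_cases he : Inc s t e u
      · rw [if_pos he, Finset.sum_eq_single (φ e)]
        · rw [if_pos ⟨he, rfl⟩]
        · intro β _ hβ
          exact if_neg fun h => hβ h.2.symm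
        · intro h
          exact absurd (Finset.mem_univ _) h
      · rw [if_neg he]
        exact Finset.sum_eq_zero fun β _ => if_neg fun h => he h.1
    rw [Finset.sum_congr rfl fun u _ => h1 u, Finset.sum_comm]
    exact Finset.sum_congr rfl fun e _ => sum_inc hst τ e
  · intro c hc
    unfold wt
    rw [Finset.sum_comm]
    refine Finset.sum_congr rfl fun e _ => ?_
    by_cases he : Cf s t φ c e
    · rw [if_pos he, Finset.sum_eq_single (cu s t φ c e)]
      · rw [if_pos ⟨inc_cu e, (c_cu he).symm⟩]
      · intro u _ hu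
        exact if_neg fun h => hu (cu_of hst hc h.1 h.2).symm
      · intro h
        exact absurd (Finset.mem_univ _) h
    · rw [if_neg he]
      exact Finset.sum_eq_zero fun u _ => if_neg fun h => he (cf_of h.1 h.2)
  · intro u β h
    rcases key hp τ u β with h0 | ⟨e, he, h1⟩
    · exact absurd h0 h
    · exact ⟨e, he, fun h2 => h (h1.trans h2)⟩

end Pool.Agent.TCM
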