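import Pool.Agent.TCM.MOV
import Pool.Agent.TCM.CMP
import Pool.Agent.TCM.CNT
import Pool.Agent.TCM.EXP
import Pool.Agent.TCM.EXB
import Pool.Agent.TCM.RND
import Pool.Agent.TCM.PH1
import Pool.Agent.TCM.WTG
import Pool.Agent.TCM.FA1
import Pool.Agent.TCM.FA2
import Pool.Agent.TCM.FA3
import Pool.Agent.TCM.FA4
import Pool.Agent.TCM.FA5
import Pool.Agent.TCM.VCO
import Pool.Agent.TCM.FIX
import Pool.Agent.TCM.DGR
import Pool.Agent.TCM.MUL
import Pool.Agent.TCM.BAD
import Pool.Agent.TCM.COL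
import Pool.Agent.TCM.HTA
import Pool.Agent.TCM.HTB
import Pool.Agent.TCM.HTC
import Pool.Agent.TCM.TUP
import Pool.Agent.TCM.NUM
import Pool.Agent.TCM.PH2
import Pool.Agent.TCM.LFT
import Pool.Agent.TCM.THM
import Pool.Agent.TCM.FIN

set_option autoImplicit false

/-!
# Total colouring of multigraphs with a constant additive error: assembly
-/

namespace Pool.Agent.TCM

theorem main_thm : S_THM :=
  THM_thm
    (VCO_thm (PH1_thm MOV_thm (RND_thm CMP_thm CNT_thm EXP_thm EXB_thm)) (FA1_thm WTG_thm)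
      (FA2_thm WTG_thm) (FA3_thm WTG_thm) FA4_thm (FA5_thm WTG_thm))
    FIX_thm DGR_thm MUL_thm
    (PH2_thm BAD_thm COL_thm HTA_thm HTB_thm HTC_thm TUP_thm NUM_thm) LFT_thm

theorem final : S_FIN := FIN_thm main_thm

end Pool.Agent.TCM
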