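import Pool.Agent.TCM.Stmts

set_option autoImplicit false

/-!
# Total colouring of multigraphs with a constant additive error: basic facts
-/

namespace Pool.Agent.TCM

open Finset Classical TC19

section moves

variable {V Q O : Type} [Fintype V] [Fintype Q] [Fintype O]

theorem mem_Nb' {G : SimpleGraph V} {v w : V} : w ∈ Nb G v ↔ G.Adj v w := by
  simp [Nb]

omit [Fintype Q] [Fintype O] in
theorem Incomp.symm {G : SimpleGraph V} {mv : V → O → V → Option Q} {p p' : V × O}
    (h : Incomp G mv p p') : Incomp G mv p' p := by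
  rcases h with ⟨x, h1, h2⟩ | ⟨x, y, β, h1, h2, h3⟩
  · exact Or.inl ⟨x, h2, h1⟩
  · exact Or.inr ⟨y, x, β, h1.symm, h3, h2⟩

theorem mem_CN {G : SimpleGraph V} {v w : V} : w ∈ CN G v ↔ w = v ∨ G.Adj v w := by
  rw [CN, Finset.mem_insert, mem_Nb']

theorem card_CN {G : SimpleGraph V} {q : ℕ} (h : ∀ v, (Nb G v).card < q) (v : V) :
    (CN G v).card ≤ q :=
  (Finset.card_insert_le _ _).trans (h v)

theorem ball_card {G : SimpleGraph V} {q : ℕ} (h : ∀ v, (Nb G v).card < q) (v : V) (k : ℕ) :
    (ball G v k).card ≤ q ^ k := by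
  induction k with
  | zero => simp [ball]
  | succ k ih =>
    rw [ball, pow_succ]
    calc ((ball G v k).biUnion (CN G)).card ≤ (ball G v k).card * q :=
          Finset.card_biUnion_le_card_mul _ _ _ fun w _ => card_CN h w
      _ ≤ q ^ k * q := Nat.mul_le_mul_right _ ih

theorem mem_ball_self (G : SimpleGraph V) (v : V) (k : ℕ) : v ∈ ball G v k := by
  induction k with
  | zero => simp [ball]
  | succ k ih =>
    rw [ball]
    exact Finset.mem_biUnion.mpr ⟨v, ih, mem_CN.mpr (Or.inl rfl)⟩

theorem ball_step {G : SimpleGraph V} {u x : V} (h : x ∈ CN G u) (k : ℕ) :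
    ball G x k ⊆ ball G u (k + 1) := by
  induction k with
  | zero =>
    intro y hy
    simp only [ball, Finset.mem_singleton] at hy
    subst hy
    rw [ball]
    exact Finset.mem_biUnion.mpr ⟨u, by simp [ball], h⟩
  | succ k ih =>
    intro y hy
    rw [ball] at hy ⊢
    obtain ⟨w, hw, hy⟩ := Finset.mem_biUnion.mp hy
    exact Finset.mem_biUnion.mpr ⟨w, ih hw, hy⟩

theorem ball_mono {G : SimpleGraph V} {u : V} (k : ℕ) : ball G u k ⊆ ball G u (k + 1) :=
  ball_step (mem_CN.mpr (Or.inl rfl)) k

end moves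

section edges

variable {V E Q : Type} {s t : E → V} {φ : E → Q} {c : V → Q}

theorem oth_s (e : E) : oth s t e (s e) = t e := by simp [oth]

theorem oth_t (hst : ∀ e, s e ≠ t e) (e : E) : oth s t e (t e) = s e := by simp [oth, hst e]

theorem inc_oth (e : E) (v : V) : Inc s t e (oth s t e v) := by
  unfold oth Inc
  split_ifs
  · exact Or.inr rfl
  · exact Or.inl rfl

/-- the ends of `e` are `v` and `oth e v` -/
theorem inc_iff {e : E} {v : V} (h : Inc s t e v) (w : V) :
    Inc s t e w ↔ w = v ∨ w = oth s t e v := by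
  unfold Inc at *
  unfold oth
  split_ifs with h1
  · subst h1
    constructor
    · rintro (h | h)
      · exact Or.inl h.symm
      · exact Or.inr h.symm
    · rintro (h | h)
      · exact Or.inl h.symm
      · exact Or.inr h.symm
  · have h2 : t e = v := h.resolve_left h1
    subst h2
    constructor
    · rintro (h | h)
      · exact Or.inr h.symm
      · exact Or.inl h.symm
    · rintro (h | h)
      · exact Or.inr h.symm
      · exact Or.inl h.symm

theorem oth_ne (hst : ∀ e, s e ≠ t e) {e : E} {v : V} (h : Inc s t e v) : oth s t e v ≠ v := by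
  unfold oth
  unfold Inc at h
  split_ifs with h1
  · subst h1
    exact (hst e).symm
  · exact h1

theorem oth_oth (hst : ∀ e, s e ≠ t e) {e : E} {v : V} (h : Inc s t e v) :
    oth s t e (oth s t e v) = v := by
  rcases h with rfl | rfl
  · rw [oth_s, oth_t hst]
  · rw [oth_t hst, oth_s]

theorem oth_of_inc {e : E} {v w : V} (h : Inc s t e v) (h' : Inc s t e w) (hne : w ≠ v) :
    w = oth s t e v := ((inc_iff h w).mp h').resolve_left hne

theorem adj_oth (hst : ∀ e, s e ≠ t e) {e : E} {v : V} (h : Inc s t e v) :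
    (SG s t).Adj v (oth s t e v) :=
  ⟨(oth_ne hst h).symm, e, h, inc_oth e v⟩

theorem inc_cu (e : E) : Inc s t e (cu s t φ c e) := by
  unfold cu Inc
  split_ifs
  · exact Or.inl rfl
  · exact Or.inr rfl

theorem inc_cv (e : E) : Inc s t e (cv s t φ c e) := by
  unfold cv Inc
  split_ifs
  · exact Or.inr rfl
  · exact Or.inl rfl

theorem oth_cu (hst : ∀ e, s e ≠ t e) (e : E) : oth s t e (cu s t φ c e) = cv s t φ c e := by
  unfold cu cv
  split_ifs
  · exact oth_s e
  · exact oth_t hst e

theorem oth_cv (hst : ∀ e, s e ≠ t e) (e : E) : oth s t e (cv s t φ c e) = cu s t φ c e := by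
  unfold cu cv
  split_ifs
  · exact oth_t hst e
  · exact oth_s e

theorem cu_ne_cv (hst : ∀ e, s e ≠ t e) (e : E) : cu s t φ c e ≠ cv s t φ c e := by
  rw [← oth_cv hst e]
  exact oth_ne hst (inc_cv e)

/-- the colour of the conflict edge `e` is the colour of `cu e` -/
theorem c_cu {e : E} (h : Cf s t φ c e) : c (cu s t φ c e) = φ e := by
  unfold cu
  split_ifs with h1
  · exact h1.symm
  · exact (h.resolve_left h1).symm

theorem c_cv (hst : ∀ e, s e ≠ t e) (hc : VC s t c) {e : E} (h : Cf s t φ c e) :
    c (cv s t φ c e) ≠ φ e := by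
  rw [← c_cu h]
  refine hc _ _ ⟨(cu_ne_cv hst e).symm, e, inc_cv e, inc_cu e⟩

/-- an edge with the colour of one of its ends is a conflict edge -/
theorem cf_of {e : E} {v : V} (h : Inc s t e v) (h' : φ e = c v) : Cf s t φ c e := by
  rcases h with rfl | rfl
  · exact Or.inl h'
  · exact Or.inr h'

theorem cu_of (hst : ∀ e, s e ≠ t e) (hc : VC s t c) {e : E} {v : V} (h : Inc s t e v)
    (h' : φ e = c v) : cu s t φ c e = v := by
  by_contra hne
  have h1 : v = cv s t φ c e := by
    rw [← oth_cu hst]
    exact oth_of_inc (inc_cu e) h (Ne.symm hne)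
  subst h1
  exact c_cv hst hc (cf_of h h') h'.symm

/-- edges of the same colour at the same vertex are equal -/
theorem eq_of_proper (hp : Proper s t Set.univ φ) {e f : E} {v : V} (he : Inc s t e v)
    (hf : Inc s t f v) (h : φ e = φ f) : e = f := by
  by_contra hne
  exact hp e trivial f trivial hne v he hf h

/-- a vertex is `cu` of at most one conflict edge -/
theorem cu_inj (hp : Proper s t Set.univ φ) {e f : E} (he : Cf s t φ c e)
    (hf : Cf s t φ c f) (h : cu s t φ c e = cu s t φ c f) : e = f := by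
  have h1 : φ e = φ f := by rw [← c_cu he, ← c_cu hf, h]
  exact eq_of_proper hp (inc_cu e) (h ▸ inc_cu f) h1

/-- a conflict edge is determined by its colour and `cv` -/
theorem cv_inj (hp : Proper s t Set.univ φ) {e f : E}
    (h : cv s t φ c e = cv s t φ c f) (h' : φ e = φ f) : e = f :=
  eq_of_proper hp (inc_cv e) (h ▸ inc_cv f) h'

theorem Nb_card_lt {V E Q : Type} [Fintype V] [Fintype E] [Fintype Q] {s t : E → V} {φ : E → Q}
    (h : MG s t φ) (v : V) : (Nb (SG s t) v).card < Fintype.card Q := by
  refine lt_of_le_of_lt ?_ (h.dg v)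
  unfold dg
  have h1 : Nb (SG s t) v ⊆ (univ.filter fun e => Inc s t e v).image fun e => oth s t e v := by
    intro w hw
    rw [mem_Nb'] at hw
    obtain ⟨hne, e, h2, h3⟩ := hw
    exact Finset.mem_image.mpr ⟨e, by simp [h2], (oth_of_inc h2 h3 hne.symm).symm⟩
  exact (Finset.card_le_card h1).trans Finset.card_image_le

end edges

end Pool.Agent.TCM
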