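import Pool.Agent.TCM.Basic

set_option autoImplicit false

/-!
# COL: the number of changes which are not compatible with a given one
-/

namespace Pool.Agent.TCM

open Finset Classical TC19

namespace COL

variable {V E Q : Type} [Fintype V] [Fintype E] [Fintype Q] {s t : E → V} {φ : E → Q} {c : V → Q}

theorem inc_of_eq {g : E} {v z : V} (h : z = oth s t g v) : Inc s t g z := by
  rw [h]
  exact inc_oth g v

/-- there are at most four slots -/
theorem slots (h : MG s t φ) (e : E) (b : Q) :
    (univ.filter fun p : V × Q => Slot s t φ c e b p.1 p.2).card ≤ 4 := by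
  by_cases hg : ∃ g, Inc s t g (cv s t φ c e) ∧ φ g = b
  · obtain ⟨g, hg1, hg2⟩ := hg
    have h1 : (univ.filter fun p : V × Q => Slot s t φ c e b p.1 p.2) ⊆
        {(cu s t φ c e, b), (cv s t φ c e, b), (oth s t g (cv s t φ c e), b),
          (oth s t g (cv s t φ c e), φ e)} := by
      rintro ⟨z, γ⟩ hz
      simp only [Finset.mem_filter, Finset.mem_univ, true_and] at hz
      simp only [Finset.mem_insert, Finset.mem_singleton, Prod.mk.injEq]
      rcases hz with ⟨h2, h3 | h3⟩ | ⟨g', h2, h3, h4, h5⟩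
      · exact Or.inl ⟨h3, h2⟩
      · exact Or.inr (Or.inl ⟨h3, h2⟩)
      · have h6 : g' = g := eq_of_proper h.pr h2 hg1 (h3.trans hg2.symm)
        subst h6
        rcases h5 with h5 | h5
        · exact Or.inr (Or.inr (Or.inl ⟨h4, h5⟩))
        · exact Or.inr (Or.inr (Or.inr ⟨h4, h5⟩))
    exact (Finset.card_le_card h1).trans Finset.card_le_four
  · have h1 : (univ.filter fun p : V × Q => Slot s t φ c e b p.1 p.2) ⊆
        {(cu s t φ c e, b), (cv s t φ c e, b)} := by
      rintro ⟨z, γ⟩ hz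
      simp only [Finset.mem_filter, Finset.mem_univ, true_and] at hz
      simp only [Finset.mem_insert, Finset.mem_singleton, Prod.mk.injEq]
      rcases hz with ⟨h2, h3 | h3⟩ | ⟨g', h2, h3, h4, h5⟩
      · exact Or.inl ⟨h3, h2⟩
      · exact Or.inr ⟨h3, h2⟩
      · exact absurd ⟨g', h2, h3⟩ hg
    exact ((Finset.card_le_card h1).trans Finset.card_le_two).trans (by norm_num)

/-- the changes which use a given slot -/
theorem users (h : MG s t φ) (R₀ E₀ : ℕ) (hR : ∀ v, R s t φ c v ≤ R₀)
    (hE : ∀ v a, Em s t φ c v a ≤ E₀) (z : V) (γ : Q) :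
    (univ.filter fun p : E × Q => Cf s t φ c p.1 ∧ Slot s t φ c p.1 p.2 z γ).card ≤
      1 + 2 * R₀ + E₀ := by
  let A : Finset (E × Q) :=
    (univ.filter fun e => Cf s t φ c e ∧ cu s t φ c e = z).image fun e => (e, γ)
  let B : Finset (E × Q) :=
    (univ.filter fun e => Cf s t φ c e ∧ cv s t φ c e = z).image fun e => (e, γ)
  let C : Finset (E × Q) :=
    (univ.filter fun e => Cf s t φ c e ∧ ∃ g, Inc s t g (cv s t φ c e) ∧ φ g = γ ∧
      z = oth s t g (cv s t φ c e)).image fun e => (e, γ)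
  let D : Finset (E × Q) :=
    (univ.filter fun p : E × E => Inc s t p.1 z ∧ Inc s t p.2 (oth s t p.1 z) ∧ φ p.2 = γ ∧
      c (oth s t p.2 (oth s t p.1 z)) = γ).image fun p => (p.2, φ p.1)
  have hA : A.card ≤ 1 := by
    refine Finset.card_image_le.trans ?_
    rw [Finset.card_le_one]
    intro a ha b hb
    simp only [Finset.mem_filter, Finset.mem_univ, true_and] at ha hb
    exact cu_inj h.pr ha.1 hb.1 (ha.2.trans hb.2.symm)
  have hB : B.card ≤ R₀ := Finset.card_image_le.trans (hR z)
  have hC : C.card ≤ R₀ := by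
    refine Finset.card_image_le.trans ?_
    by_cases hg : ∃ g, Inc s t g z ∧ φ g = γ
    · obtain ⟨g, hg1, hg2⟩ := hg
      refine le_trans (Finset.card_le_card ?_) (hR (oth s t g z))
      intro e he
      simp only [Finset.mem_filter, Finset.mem_univ, true_and] at he ⊢
      obtain ⟨h1, g', h2, h3, h4⟩ := he
      refine ⟨h1, ?_⟩
      have h5 : g' = g := eq_of_proper h.pr (inc_of_eq h4) hg1 (h3.trans hg2.symm)
      subst h5
      rw [h4, oth_oth h.lp h2]
    · have h1 : (univ.filter fun e => Cf s t φ c e ∧ ∃ g, Inc s t g (cv s t φ c e) ∧ φ g = γ ∧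
          z = oth s t g (cv s t φ c e)) = ∅ := by
        rw [Finset.filter_eq_empty_iff]
        rintro e - ⟨_, g, _, h3, h4⟩
        exact hg ⟨g, inc_of_eq h4, h3⟩
      rw [h1]
      simp
  have hD : D.card ≤ E₀ := by
    refine Finset.card_image_le.trans (le_trans ?_ (hE z γ))
    unfold Em
    exact Nat.le_add_left _ _
  have hsub : (univ.filter fun p : E × Q => Cf s t φ c p.1 ∧ Slot s t φ c p.1 p.2 z γ) ⊆
      ((A ∪ B) ∪ C) ∪ D := by
    rintro ⟨e, b⟩ hp
    simp only [Finset.mem_filter, Finset.mem_univ, true_and] at hp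
    obtain ⟨h1, hs⟩ := hp
    rw [Finset.mem_union, Finset.mem_union, Finset.mem_union]
    rcases hs with ⟨h2, h3 | h3⟩ | ⟨g, h2, h3, h4, h5 | h5⟩
    · refine Or.inl (Or.inl (Or.inl (Finset.mem_image.mpr ⟨e, ?_, ?_⟩)))
      · simp only [Finset.mem_filter, Finset.mem_univ, true_and]
        exact ⟨h1, h3.symm⟩
      · rw [h2]
    · refine Or.inl (Or.inl (Or.inr (Finset.mem_image.mpr ⟨e, ?_, ?_⟩)))
      · simp only [Finset.mem_filter, Finset.mem_univ, true_and]
        exact ⟨h1, h3.symm⟩
      · rw [h2]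
    · refine Or.inl (Or.inr (Finset.mem_image.mpr ⟨e, ?_, ?_⟩))
      · simp only [Finset.mem_filter, Finset.mem_univ, true_and]
        exact ⟨h1, g, h2, h3.trans h5.symm, h4⟩
      · rw [h5]
    · refine Or.inr (Finset.mem_image.mpr ⟨(g, e), ?_, ?_⟩)
      · simp only [Finset.mem_filter, Finset.mem_univ, true_and]
        have h6 : oth s t g z = cv s t φ c e := by rw [h4, oth_oth h.lp h2]
        rw [h6, oth_cv h.lp]
        exact ⟨inc_of_eq h4, inc_cv e, h5.symm, (c_cu h1).trans h5.symm⟩
      · simp only [h3]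
  refine (Finset.card_le_card hsub).trans ?_
  have h7 := Finset.card_union_le ((A ∪ B) ∪ C) D
  have h8 := Finset.card_union_le (A ∪ B) C
  have h9 := Finset.card_union_le A B
  omega

end COL

theorem COL_thm : S_COL := by
  intro V E Q _ _ _ s t φ h c _ R₀ E₀ hR hE e b _
  have h1 : (univ.filter fun p : E × Q => Cf s t φ c p.1 ∧ Coll s t φ c e b p.1 p.2) ⊆
      (univ.filter fun p : V × Q => Slot s t φ c e b p.1 p.2).biUnion fun w =>
        univ.filter fun p : E × Q => Cf s t φ c p.1 ∧ Slot s t φ c p.1 p.2 w.1 w.2 := by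
    intro p hp
    simp only [Finset.mem_filter, Finset.mem_univ, true_and] at hp
    obtain ⟨h2, z, γ, h3, h4⟩ := hp
    refine Finset.mem_biUnion.mpr ⟨(z, γ), ?_, ?_⟩
    · simp only [Finset.mem_filter, Finset.mem_univ, true_and]
      exact h3
    · simp only [Finset.mem_filter, Finset.mem_univ, true_and]
      exact ⟨h2, h4⟩
  refine (Finset.card_le_card h1).trans ?_
  refine (Finset.card_biUnion_le_card_mul _ _ (1 + 2 * R₀ + E₀) fun w _ =>
    COL.users h R₀ E₀ hR hE w.1 w.2).trans ?_
  exact Nat.mul_le_mul_right _ (COL.slots h e b)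

end Pool.Agent.TCM
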