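import Pool.Agent.Lib_helper19.TC.Ctx
import Pool.Agent.Lib_helper19.TC.Vizing
import Pool.Agent.Lib_helper19.TC.LLLC

set_option autoImplicit false

/-!
# Total colouring of multigraphs with a constant additive error: definitions

`TC19.Inc s t e v`: the edge `e` (with ends `s e`, `t e`) is incident with `v`;
`TC19.Proper s t F c`: `c` is a proper edge colouring of the edges in `F`;
`TC19.SG s t`: the underlying simple graph; `TC19.Nb G v`: the neighbours of `v`;
`TC19.dg s t F v`: the number of edges of `F` at `v`; `TC19.mult s t u v`: the number of edges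
joining `u` and `v`; `TC19.avg`: average over a finite type.
-/

namespace Pool.Agent.TCM

open Finset Classical TC19

/-! ### Part 1: moves of a vertex colouring -/

section moves

variable {V Q O : Type} [Fintype V] [Fintype Q] [Fintype O]

/-- the colouring `c` changed by `r` -/
def recol (c : V → Q) (r : V → Option Q) : V → Q := fun x => (r x).getD (c x)

/-- A system of moves for the colouring `c`: the move `mv u o` (made by the vertex `u`, option `o`)
changes the colour of `x` to `β` if `mv u o x = some β`. -/
structure Moves (G : SimpleGraph V) (c : V → Q) (mv : V → O → V → Option Q) : Prop where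
  prp : ∀ u o x y, G.Adj x y → recol c (mv u o) x ≠ recol c (mv u o) y
  cnt : ∀ x β, (univ.filter fun p : V × O => mv p.1 p.2 x = some β).card ≤ 4
  ini : ∀ u, Fintype.card Q ≤ (univ.filter fun o => mv u o u ≠ none).card + 1
  two : ∀ u o, (univ.filter fun x => mv u o x ≠ none).card ≤ 2
  loc : ∀ u o x, mv u o x ≠ none → x = u ∨ G.Adj u x
  act : ∀ u o x, mv u o x ≠ none → mv u o u ≠ none

/-- two moves which must not be made at the same time -/
def Incomp (G : SimpleGraph V) (mv : V → O → V → Option Q) (p p' : V × O) : Prop :=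
  (∃ x, mv p.1 p.2 x ≠ none ∧ mv p'.1 p'.2 x ≠ none) ∨
    ∃ x y β, G.Adj x y ∧ mv p.1 p.2 x = some β ∧ mv p'.1 p'.2 y = some β

/-- the contribution of the vertex `u` to the bound for the functional `ω` after the moves:
`none` means that `u` makes no move -/
noncomputable def gain (mv : V → O → V → Option Q) (c : V → Q) (ω : V → Q → ℝ) (u : V) :
    Option O → ℝ
  | none => ω u (c u)
  | some o => if mv u o u = none then ω u (c u) else ∑ x, (mv u o x).elim 0 (ω x)

/-- the sample space of one vertex: active with probability `1 / N`, with a random option -/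
def opt {N : ℕ} (w : Fin N × O) : Option O := if (w.1 : ℕ) = 0 then some w.2 else none

/-- the closed neighbourhood -/
noncomputable def CN (G : SimpleGraph V) (v : V) : Finset V := insert v (Nb G v)

/-- the ball of radius `k` -/
noncomputable def ball (G : SimpleGraph V) (v : V) : ℕ → Finset V
  | 0 => {v}
  | k + 1 => (ball G v k).biUnion (CN G)

end moves

/-! ### Part 2: changes of the edge colouring

`s t : E → V` are the ends of the edges, `φ` is a proper edge colouring, `c` a proper vertex
colouring with the same set `Q` of colours. -/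

section edges

variable {V E Q : Type} (s t : E → V) (φ : E → Q) (c : V → Q)

/-- the other end of `e` -/
noncomputable def oth (e : E) (v : V) : V := if s e = v then t e else s e

/-- the edge `e` is in conflict: it has the colour of one of its ends -/
def Cf (e : E) : Prop := φ e = c (s e) ∨ φ e = c (t e)

/-- the end of the conflict edge `e` which has the colour of `e` -/
noncomputable def cu (e : E) : V := if φ e = c (s e) then s e else t e

/-- the other end of the conflict edge `e` -/
noncomputable def cv (e : E) : V := if φ e = c (s e) then t e else s e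

/-- `b` is a good new colour for the conflict edge `e` -/
structure Good (e : E) (b : Q) : Prop where
  ne : b ≠ φ e
  nv : b ≠ c (cv s t φ c e)
  f : ∀ f, Inc s t f (cu s t φ c e) → φ f = b → ¬ Cf s t φ c f
  g : ∀ g, Inc s t g (cv s t φ c e) → φ g = b → ¬ Cf s t φ c g
  x : ∀ g, Inc s t g (cv s t φ c e) → φ g = b → c (oth s t g (cv s t φ c e)) ≠ φ e
  h : ∀ g h, Inc s t g (cv s t φ c e) → φ g = b → Inc s t h (oth s t g (cv s t φ c e)) →
    φ h = φ e → ¬ Cf s t φ c h

/-- the pairs (vertex, colour) which are used by the change of `e` to the colour `b` -/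
def Slot (e : E) (b : Q) (z : V) (γ : Q) : Prop :=
  (γ = b ∧ (z = cu s t φ c e ∨ z = cv s t φ c e)) ∨
    ∃ g, Inc s t g (cv s t φ c e) ∧ φ g = b ∧ z = oth s t g (cv s t φ c e) ∧ (γ = b ∨ γ = φ e)

/-- the changes of `e` to `b` and of `e'` to `b'` are not compatible -/
def Coll (e : E) (b : Q) (e' : E) (b' : Q) : Prop :=
  ∃ z γ, Slot s t φ c e b z γ ∧ Slot s t φ c e' b' z γ

/-- the edges which become uncoloured if every conflict edge `e` gets the colour `β e` -/
def Unc (β : E → Q) (h : E) : Prop :=
  ∃ e, Cf s t φ c e ∧ ((Inc s t h (cu s t φ c e) ∧ φ h = β e) ∨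
    ∃ g, Inc s t g (cv s t φ c e) ∧ φ g = β e ∧ Inc s t h (oth s t g (cv s t φ c e)) ∧ φ h = φ e)

/-- first kind of hits: `z` is the other end of the `b`-edge at `cu e` or at `cv e` -/
def HA (z : V) (e : E) (b : Q) : Prop :=
  (∃ f, Inc s t f (cu s t φ c e) ∧ φ f = b ∧ z = oth s t f (cu s t φ c e)) ∨
    ∃ g, Inc s t g (cv s t φ c e) ∧ φ g = b ∧ z = oth s t g (cv s t φ c e)

/-- `h` is the second edge which becomes uncoloured when `e` gets the colour `b` -/
def HE (h : E) (e : E) (b : Q) : Prop :=
  ∃ g, Inc s t g (cv s t φ c e) ∧ φ g = b ∧ Inc s t h (oth s t g (cv s t φ c e)) ∧ φ h = φ e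

/-- second kind of hits: `z` is the far end of the second uncoloured edge -/
def HB (z : V) (e : E) (b : Q) : Prop :=
  ∃ g h, Inc s t g (cv s t φ c e) ∧ φ g = b ∧ Inc s t h (oth s t g (cv s t φ c e)) ∧ φ h = φ e ∧
    z = oth s t h (oth s t g (cv s t φ c e))

/-- third kind of hits: the second uncoloured edge joins `y` and `z` -/
def HC (y z : V) (e : E) (b : Q) : Prop := ∃ h, HE s t φ c h e b ∧ Inc s t h y ∧ Inc s t h z

variable [Fintype V] [Fintype E] [Fintype Q]

/-- the number of conflict edges into `v` -/
noncomputable def R (v : V) : ℕ := (univ.filter fun e => Cf s t φ c e ∧ cv s t φ c e = v).card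

/-- the number of edges `g` at `v` such that the other end of `g` has colour `a` or the `a`-edge
at the other end of `g` is a conflict edge into this end -/
noncomputable def Em (v : V) (a : Q) : ℕ :=
  (univ.filter fun g => Inc s t g v ∧ c (oth s t g v) = a).card +
    (univ.filter fun p : E × E => Inc s t p.1 v ∧ Inc s t p.2 (oth s t p.1 v) ∧ φ p.2 = a ∧
      c (oth s t p.2 (oth s t p.1 v)) = a).card

/-- the number of pairs of an edge `g` at `z` and a conflict edge `e` into the other end of `g` -/
noncomputable def P1 (z : V) : ℕ :=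
  (univ.filter fun p : E × E => Cf s t φ c p.1 ∧ Inc s t p.2 z ∧
    cv s t φ c p.1 = oth s t p.2 z).card

/-- triples `(e, g, h)`: `h` at `z` has the colour of the conflict edge `e`, and `g` joins the
other end of `h` to `cv e` -/
noncomputable def P2 (z : V) : ℕ :=
  (univ.filter fun p : E × E × E => Cf s t φ c p.1 ∧ Inc s t p.2.2 z ∧ φ p.2.2 = φ p.1 ∧
    Inc s t p.2.1 (oth s t p.2.2 z) ∧ cv s t φ c p.1 = oth s t p.2.1 (oth s t p.2.2 z)).card

/-- triples `(e, g, h)`: `h` joins `y` and `z` and has the colour of the conflict edge `e`, and `g`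
joins `y` to `cv e` -/
noncomputable def P5 (y z : V) : ℕ :=
  (univ.filter fun p : E × E × E => Cf s t φ c p.1 ∧ Inc s t p.2.2 y ∧ Inc s t p.2.2 z ∧
    φ p.2.2 = φ p.1 ∧ Inc s t p.2.1 y ∧ cv s t φ c p.1 = oth s t p.2.1 y).card

end edges

/-- A multigraph with `q` colours: no loops, `φ` is a proper edge colouring with the colour set
`Q`, all degrees are smaller than `|Q|`. -/
structure MG {V E Q : Type} [Fintype V] [Fintype E] [Fintype Q] (s t : E → V) (φ : E → Q) :
    Prop where
  lp : ∀ e, s e ≠ t e
  pr : Proper s t Set.univ φ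
  dg : ∀ v, dg s t univ v < Fintype.card Q

/-- `c` is a proper vertex colouring -/
def VC {V E Q : Type} (s t : E → V) (c : V → Q) : Prop := ∀ x y, (SG s t).Adj x y → c x ≠ c y

end Pool.Agent.TCM
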