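import Pool.Agent.TCM.Basic

set_option autoImplicit false

/-!
# MOV: a system of moves for a proper vertex colouring
-/

namespace Pool.Agent.TCM

open Finset Classical TC19

namespace MOV

variable {V Q : Type} [Fintype V] [Fintype Q]

/-- the neighbours of `w` with colour `b` -/
noncomputable def N (G : SimpleGraph V) (c : V → Q) (w : V) (b : Q) : Finset V :=
  (Nb G w).filter fun u => c u = b

/-- the colours on the neighbours of `w` -/
noncomputable def C (G : SimpleGraph V) (c : V → Q) (w : V) : Finset Q := (Nb G w).image c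

/-- the colours which are neither on `w` nor on its neighbours -/
noncomputable def D (G : SimpleGraph V) (c : V → Q) (w : V) : Finset Q :=
  univ.filter fun a => a ∉ C G c w ∧ a ≠ c w

/-- the neighbours of `w` whose colour occurs at least twice on the neighbours of `w` -/
noncomputable def NU (G : SimpleGraph V) (c : V → Q) (w : V) : Finset V :=
  (Nb G w).filter fun u => ∃ u' ∈ Nb G w, u' ≠ u ∧ c u' = c u

omit [Fintype Q] in
theorem mem_N {G : SimpleGraph V} {c : V → Q} {w u : V} {b : Q} :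
    u ∈ N G c w b ↔ G.Adj w u ∧ c u = b := by
  rw [N, Finset.mem_filter, mem_Nb']

omit [Fintype Q] in
theorem mem_C {G : SimpleGraph V} {c : V → Q} {w : V} {b : Q} :
    b ∈ C G c w ↔ ∃ u, G.Adj w u ∧ c u = b := by
  rw [C, Finset.mem_image]
  constructor
  · rintro ⟨u, hu, h⟩
    exact ⟨u, mem_Nb'.mp hu, h⟩
  · rintro ⟨u, hu, h⟩
    exact ⟨u, mem_Nb'.mpr hu, h⟩

theorem mem_D {G : SimpleGraph V} {c : V → Q} {w : V} {b : Q} :
    b ∈ D G c w ↔ b ∉ C G c w ∧ b ≠ c w := by
  rw [D, Finset.mem_filter]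
  exact and_iff_right (Finset.mem_univ _)

omit [Fintype Q] in
theorem mem_NU {G : SimpleGraph V} {c : V → Q} {w u : V} :
    u ∈ NU G c w ↔ G.Adj w u ∧ ∃ u', G.Adj w u' ∧ u' ≠ u ∧ c u' = c u := by
  rw [NU, Finset.mem_filter, mem_Nb']
  constructor
  · rintro ⟨h, u', h1, h2⟩
    exact ⟨h, u', mem_Nb'.mp h1, h2⟩
  · rintro ⟨h, u', h1, h2⟩
    exact ⟨h, u', mem_Nb'.mpr h1, h2⟩

omit [Fintype Q] in
theorem N_nonempty {G : SimpleGraph V} {c : V → Q} {w : V} {b : Q} :
    (N G c w b).Nonempty ↔ b ∈ C G c w := by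
  rw [mem_C]
  constructor
  · rintro ⟨u, hu⟩
    exact ⟨u, mem_N.mp hu⟩
  · rintro ⟨u, hu⟩
    exact ⟨u, mem_N.mpr hu⟩

omit [Fintype Q] in
theorem card_Nb (G : SimpleGraph V) (c : V → Q) (w : V) :
    (Nb G w).card = ∑ b ∈ C G c w, (N G c w b).card :=
  Finset.card_eq_sum_card_fiberwise fun u hu => Finset.mem_image_of_mem c hu

omit [Fintype Q] in
theorem one_le_N {G : SimpleGraph V} {c : V → Q} {w : V} {b : Q} (h : b ∈ C G c w) :
    1 ≤ (N G c w b).card := Finset.card_pos.mpr (N_nonempty.mpr h)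

theorem card_D {G : SimpleGraph V} {c : V → Q} (hc : ∀ x y, G.Adj x y → c x ≠ c y) (w : V) :
    (D G c w).card + (C G c w).card + 1 = Fintype.card Q := by
  have h1 : c w ∉ C G c w := by
    rw [mem_C]
    rintro ⟨u, hu, h⟩
    exact hc w u hu h.symm
  have h2 : D G c w = (insert (c w) (C G c w))ᶜ := by
    ext b
    rw [mem_D, Finset.mem_compl, Finset.mem_insert]
    tauto
  have h3 := Finset.card_compl_add_card (insert (c w) (C G c w))
  rw [← h2, Finset.card_insert_of_notMem h1] at h3
  omega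

/-- the number of repetitions -/
theorem rep_le {G : SimpleGraph V} {c : V → Q} (hd : ∀ v, (Nb G v).card < Fintype.card Q)
    (hc : ∀ x y, G.Adj x y → c x ≠ c y) (w : V) :
    ∑ b ∈ C G c w, ((N G c w b).card - 1) ≤ (D G c w).card := by
  have h1 : ∑ b ∈ C G c w, ((N G c w b).card - 1) + (C G c w).card = (Nb G w).card := by
    rw [card_Nb G c w, Finset.card_eq_sum_ones, ← Finset.sum_add_distrib]
    refine Finset.sum_congr rfl fun b hb => ?_
    have := one_le_N hb
    omega
  have h2 := card_D hc w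
  have h3 := hd w
  omega

theorem card_NU {G : SimpleGraph V} {c : V → Q} (hd : ∀ v, (Nb G v).card < Fintype.card Q)
    (hc : ∀ x y, G.Adj x y → c x ≠ c y) (w : V) :
    (NU G c w).card ≤ 2 * (D G c w).card := by
  have h1 : (NU G c w).card = ∑ b ∈ C G c w, ((NU G c w).filter fun u => c u = b).card := by
    refine Finset.card_eq_sum_card_fiberwise fun u hu => ?_
    exact Finset.mem_image_of_mem c (Finset.mem_filter.mp hu).1
  rw [h1]
  refine le_trans ?_ (Nat.mul_le_mul_left 2 (rep_le hd hc w))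
  rw [Finset.mul_sum]
  refine Finset.sum_le_sum fun b hb => ?_
  by_cases h2 : ((NU G c w).filter fun u => c u = b).Nonempty
  · obtain ⟨u, hu⟩ := h2
    obtain ⟨hu1, hu2⟩ := Finset.mem_filter.mp hu
    obtain ⟨hu3, u', hu4, hu5, hu6⟩ := mem_NU.mp hu1
    have h3 : 2 ≤ (N G c w b).card := by
      refine Nat.succ_le_of_lt (Finset.one_lt_card.mpr ⟨u, mem_N.mpr ⟨hu3, hu2⟩, u',
        mem_N.mpr ⟨hu4, hu6.trans hu2⟩, hu5.symm⟩)
    have h4 : ((NU G c w).filter fun u => c u = b).card ≤ (N G c w b).card := by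
      refine Finset.card_le_card fun v hv => ?_
      obtain ⟨hv1, hv2⟩ := Finset.mem_filter.mp hv
      exact mem_N.mpr ⟨(mem_NU.mp hv1).1, hv2⟩
    omega
  · rw [Finset.not_nonempty_iff_eq_empty.mp h2, Finset.card_empty]
    exact Nat.zero_le _

/-- a map which takes every value at most twice -/
theorem exists_two {α β : Type} (A : Finset α) (B : Finset β) (h : A.card ≤ 2 * B.card)
    [Nonempty β] :
    ∃ f : α → β, (∀ a ∈ A, f a ∈ B) ∧ ∀ b, (A.filter fun a => f a = b).card ≤ 2 := by
  have h1 : Fintype.card A ≤ Fintype.card (B × Bool) := by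
    rw [Fintype.card_prod, Fintype.card_coe, Fintype.card_coe, Fintype.card_bool]
    omega
  obtain ⟨g⟩ := Function.Embedding.nonempty_of_card_le h1
  refine ⟨fun a => if ha : a ∈ A then ((g ⟨a, ha⟩).1 : β) else Classical.arbitrary β, ?_, ?_⟩
  · intro a ha
    simp only [dif_pos ha]
    exact (g ⟨a, ha⟩).1.2
  · intro b
    have h2 : (A.filter fun a => (if ha : a ∈ A then ((g ⟨a, ha⟩).1 : β)
        else Classical.arbitrary β) = b).card ≤ (univ : Finset Bool).card := by
      refine Finset.card_le_card_of_injOn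
        (fun a => if ha : a ∈ A then (g ⟨a, ha⟩).2 else true) (fun _ _ => Finset.mem_univ _) ?_
      intro a ha a' ha' heq
      obtain ⟨ha1, ha2⟩ := Finset.mem_filter.mp (Finset.mem_coe.mp ha)
      obtain ⟨ha3, ha4⟩ := Finset.mem_filter.mp (Finset.mem_coe.mp ha')
      simp only [dif_pos ha1, dif_pos ha3] at ha2 ha4 heq
      have h3 : g ⟨a, ha1⟩ = g ⟨a', ha3⟩ :=
        Prod.ext (Subtype.ext (ha2.trans ha4.symm)) heq
      exact congrArg Subtype.val (g.injective h3)
    exact h2.trans (by simp)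

/-- the move `(b, i)` of the vertex `u` can be made -/
def Leg (G : SimpleGraph V) (c : V → Q) (u : V) (o : Q × Bool) : Prop :=
  o.1 ≠ c u ∧ (N G c u o.1 = ∅ ∨ ((N G c u o.1).card = 1 ∧ o.2 = true))

/-- the moves -/
noncomputable def mv (G : SimpleGraph V) (c : V → Q) (δ : V → V → Q) (u : V) (o : Q × Bool)
    (x : V) : Option Q :=
  if Leg G c u o then
    if x = u then some o.1
    else if G.Adj u x ∧ c x = o.1 then some (if u ∈ NU G c x then δ x u else c u)
    else none
  else none

omit [Fintype Q] in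
theorem mv_self {G : SimpleGraph V} {c : V → Q} {δ : V → V → Q} {u : V} {o : Q × Bool} :
    mv G c δ u o u ≠ none ↔ Leg G c u o := by
  unfold mv
  by_cases h : Leg G c u o
  · simp [h]
  · simp [h]

omit [Fintype Q] in
theorem mv_ne {G : SimpleGraph V} {c : V → Q} {δ : V → V → Q} {u : V} {o : Q × Bool} {x : V}
    (h : mv G c δ u o x ≠ none) : Leg G c u o ∧ (x = u ∨ x ∈ N G c u o.1) := by
  unfold mv at h
  by_cases h1 : Leg G c u o
  · refine ⟨h1, ?_⟩
    rw [if_pos h1] at h
    by_cases h2 : x = u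
    · exact Or.inl h2
    · rw [if_neg h2] at h
      by_cases h3 : G.Adj u x ∧ c x = o.1
      · exact Or.inr (mem_N.mpr h3)
      · rw [if_neg h3] at h
        exact absurd rfl h
  · rw [if_neg h1] at h
    exact absurd rfl h

omit [Fintype Q] in
theorem mv_some {G : SimpleGraph V} {c : V → Q} {δ : V → V → Q} {u : V} {o : Q × Bool} {x : V}
    {β : Q} (h : mv G c δ u o x = some β) : Leg G c u o ∧ ((x = u ∧ β = o.1) ∨
      (x ≠ u ∧ G.Adj u x ∧ c x = o.1 ∧ β = if u ∈ NU G c x then δ x u else c u)) := by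
  unfold mv at h
  by_cases h1 : Leg G c u o
  · refine ⟨h1, ?_⟩
    rw [if_pos h1] at h
    by_cases h2 : x = u
    · rw [if_pos h2] at h
      exact Or.inl ⟨h2, (Option.some.inj h).symm⟩
    · rw [if_neg h2] at h
      by_cases h3 : G.Adj u x ∧ c x = o.1
      · rw [if_pos h3] at h
        exact Or.inr ⟨h2, h3.1, h3.2, (Option.some.inj h).symm⟩
      · rw [if_neg h3] at h
        exact absurd h (by simp)
  · rw [if_neg h1] at h
    exact absurd h (by simp)

omit [Fintype Q] in
theorem card_N_le {G : SimpleGraph V} {c : V → Q} {u : V} {o : Q × Bool} (h : Leg G c u o) :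
    (N G c u o.1).card ≤ 1 := by
  rcases h.2 with h | h
  · rw [h]
    simp
  · exact h.1.le

/-- the colouring after a move -/
theorem recol_mv {G : SimpleGraph V} {c : V → Q} {δ : V → V → Q} {u : V} {o : Q × Bool}
    (h : Leg G c u o) (x : V) : recol c (mv G c δ u o) x =
      if x = u then o.1 else if G.Adj u x ∧ c x = o.1 then
        (if u ∈ NU G c x then δ x u else c u) else c x := by
  unfold recol mv
  rw [if_pos h]
  by_cases h2 : x = u
  · rw [if_pos h2, if_pos h2]
    rfl
  · rw [if_neg h2, if_neg h2]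
    by_cases h3 : G.Adj u x ∧ c x = o.1
    · rw [if_pos h3, if_pos h3]
      rfl
    · rw [if_neg h3, if_neg h3]
      rfl

theorem prp_aux {G : SimpleGraph V} {c : V → Q} (hc : ∀ x y, G.Adj x y → c x ≠ c y)
    {δ : V → V → Q} (hδ : ∀ w, ∀ u ∈ NU G c w, δ w u ∈ D G c w) {u : V} {o : Q × Bool}
    (h : Leg G c u o) {x y : V} (hxy : G.Adj x y) (hyu : y ≠ u) :
    recol c (mv G c δ u o) x ≠ recol c (mv G c δ u o) y := by
  rw [recol_mv h, recol_mv h, if_neg hyu]
  by_cases hx : x = u
  · rw [if_pos hx]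
    subst hx
    by_cases hy : G.Adj x y ∧ c y = o.1
    · rw [if_pos hy]
      by_cases hn : x ∈ NU G c y
      · rw [if_pos hn, ← hy.2]
        exact (mem_D.mp (hδ y x hn)).2.symm
      · rw [if_neg hn]
        exact h.1
    · rw [if_neg hy]
      exact fun h1 => hy ⟨hxy, h1.symm⟩
  · rw [if_neg hx]
    by_cases hx1 : G.Adj u x ∧ c x = o.1
    · rw [if_pos hx1]
      have hy : ¬ (G.Adj u y ∧ c y = o.1) := fun hy => hc x y hxy (hx1.2.trans hy.2.symm)
      rw [if_neg hy]
      by_cases hn : u ∈ NU G c x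
      · rw [if_pos hn]
        intro h1
        exact (mem_D.mp (hδ x u hn)).1 (mem_C.mpr ⟨y, hxy, h1.symm⟩)
      · rw [if_neg hn]
        intro h1
        exact hn (mem_NU.mpr ⟨hx1.1.symm, y, hxy, hyu, h1.symm⟩)
    · rw [if_neg hx1]
      by_cases hy1 : G.Adj u y ∧ c y = o.1
      · rw [if_pos hy1]
        by_cases hn : u ∈ NU G c y
        · rw [if_pos hn]
          intro h1
          exact (mem_D.mp (hδ y u hn)).1 (mem_C.mpr ⟨x, hxy.symm, h1⟩)
        · rw [if_neg hn]
          intro h1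
          exact hn (mem_NU.mpr ⟨hy1.1.symm, x, hxy.symm, hx, h1⟩)
      · rw [if_neg hy1]
        exact hc x y hxy

theorem prp {G : SimpleGraph V} {c : V → Q} (hc : ∀ x y, G.Adj x y → c x ≠ c y)
    {δ : V → V → Q} (hδ : ∀ w, ∀ u ∈ NU G c w, δ w u ∈ D G c w) (u : V) (o : Q × Bool)
    (x y : V) (hxy : G.Adj x y) :
    recol c (mv G c δ u o) x ≠ recol c (mv G c δ u o) y := by
  by_cases h : Leg G c u o
  · by_cases hyu : y = u
    · have hxu : x ≠ u := by
        subst hyu
        exact hxy.ne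
      exact (prp_aux hc hδ h hxy.symm hxu).symm
    · exact prp_aux hc hδ h hxy hyu
  · have h1 : mv G c δ u o = fun _ => none := by
      funext z
      exact if_neg h
    rw [h1]
    exact hc x y hxy

theorem two {G : SimpleGraph V} {c : V → Q} {δ : V → V → Q} (u : V) (o : Q × Bool) :
    (univ.filter fun x => mv G c δ u o x ≠ none).card ≤ 2 := by
  by_cases h : Leg G c u o
  · have h1 : (univ.filter fun x => mv G c δ u o x ≠ none) ⊆ insert u (N G c u o.1) := by
      intro x hx
      rw [Finset.mem_insert]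
      exact (mv_ne (Finset.mem_filter.mp hx).2).2
    have h2 := card_N_le h
    have h3 := Finset.card_le_card h1
    have h4 := Finset.card_insert_le u (N G c u o.1)
    omega
  · have h1 : (univ.filter fun x => mv G c δ u o x ≠ none) = ∅ := by
      rw [Finset.filter_eq_empty_iff]
      intro x _ hx
      exact h (mv_ne hx).1
    rw [h1]
    simp

theorem ini {G : SimpleGraph V} {c : V → Q} (hd : ∀ v, (Nb G v).card < Fintype.card Q)
    (hc : ∀ x y, G.Adj x y → c x ≠ c y) {δ : V → V → Q} (u : V) :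
    Fintype.card Q ≤ (univ.filter fun o => mv G c δ u o u ≠ none).card + 1 := by
  have h0 : (univ.filter fun o => mv G c δ u o u ≠ none) = univ.filter fun o => Leg G c u o :=
    Finset.filter_congr fun o _ => mv_self
  rw [h0]
  have h1 : (D G c u ×ˢ (univ : Finset Bool)) ∪
      (((C G c u).filter fun b => (N G c u b).card = 1).image fun b => (b, true)) ⊆
      univ.filter fun o => Leg G c u o := by
    intro o ho
    rw [Finset.mem_filter]
    refine ⟨Finset.mem_univ _, ?_⟩
    rcases Finset.mem_union.mp ho with ho | ho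
    · have h2 := mem_D.mp (Finset.mem_product.mp ho).1
      refine ⟨h2.2, Or.inl ?_⟩
      by_contra h3
      exact h2.1 (N_nonempty.mp (Finset.nonempty_iff_ne_empty.mpr h3))
    · obtain ⟨b, hb, rfl⟩ := Finset.mem_image.mp ho
      obtain ⟨hb1, hb2⟩ := Finset.mem_filter.mp hb
      refine ⟨?_, Or.inr ⟨hb2, rfl⟩⟩
      obtain ⟨v, hv1, hv2⟩ := mem_C.mp hb1
      rw [← hv2]
      exact (hc u v hv1).symm
  have h2 : Disjoint (D G c u ×ˢ (univ : Finset Bool))
      (((C G c u).filter fun b => (N G c u b).card = 1).image fun b => (b, true)) := by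
    rw [Finset.disjoint_left]
    intro o ho ho'
    obtain ⟨b, hb, rfl⟩ := Finset.mem_image.mp ho'
    exact (mem_D.mp (Finset.mem_product.mp ho).1).1 (Finset.mem_filter.mp hb).1
  have h3 := Finset.card_le_card h1
  rw [Finset.card_union_of_disjoint h2, Finset.card_product, Finset.card_univ,
    Fintype.card_bool, Finset.card_image_of_injective _ fun a b hab => (Prod.mk.inj hab).1] at h3
  have h4 : ((C G c u).filter fun b => ¬ (N G c u b).card = 1).card ≤ (D G c u).card := by
    refine le_trans ?_ (rep_le hd hc u)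
    rw [Finset.card_eq_sum_ones]
    refine le_trans (Finset.sum_le_sum fun b hb => ?_)
      (Finset.sum_le_sum_of_subset (Finset.filter_subset _ _))
    obtain ⟨hb1, hb2⟩ := Finset.mem_filter.mp hb
    have := one_le_N hb1
    omega
  have h5 := Finset.card_filter_add_card_filter_not (s := C G c u)
    fun b => (N G c u b).card = 1
  have h6 := card_D hc u
  omega

theorem cnt {G : SimpleGraph V} {c : V → Q}
    {δ : V → V → Q} (hδ : ∀ w, ∀ u ∈ NU G c w, δ w u ∈ D G c w)
    (hδ2 : ∀ w β, ((NU G c w).filter fun u => δ w u = β).card ≤ 2) (x : V) (β : Q) :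
    (univ.filter fun p : V × (Q × Bool) => mv G c δ p.1 p.2 x = some β).card ≤ 4 := by
  have key : ∃ U : Finset V, U.card ≤ 2 ∧ ∀ u, u ≠ x → G.Adj u x →
      β = (if u ∈ NU G c x then δ x u else c u) → u ∈ U := by
    by_cases hβ : β ∈ D G c x
    · refine ⟨(NU G c x).filter fun u => δ x u = β, hδ2 x β, fun u _ hu2 hu3 => ?_⟩
      by_cases hn : u ∈ NU G c x
      · rw [if_pos hn] at hu3
        exact Finset.mem_filter.mpr ⟨hn, hu3.symm⟩
      · rw [if_neg hn] at hu3
        exact absurd (mem_C.mpr ⟨u, hu2.symm, hu3.symm⟩) (mem_D.mp hβ).1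
    · by_cases hex : ∃ v, G.Adj v x ∧ v ∉ NU G c x ∧ c v = β
      · obtain ⟨v, hv1, hv2, hv3⟩ := hex
        refine ⟨{v}, by simp, fun u _ hu2 hu3 => ?_⟩
        rw [Finset.mem_singleton]
        by_cases hn : u ∈ NU G c x
        · rw [if_pos hn] at hu3
          exact absurd (hu3 ▸ hδ x u hn) hβ
        · rw [if_neg hn] at hu3
          by_contra hne
          exact hv2 (mem_NU.mpr ⟨hv1.symm, u, hu2.symm, hne, hu3.symm.trans hv3.symm⟩)
      · refine ⟨∅, by simp, fun u _ hu2 hu3 => ?_⟩
        exfalso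
        by_cases hn : u ∈ NU G c x
        · rw [if_pos hn] at hu3
          exact absurd (hu3 ▸ hδ x u hn) hβ
        · rw [if_neg hn] at hu3
          exact hex ⟨u, hu2, hn, hu3.symm⟩
  obtain ⟨U, hU, hU2⟩ := key
  have h1 : (univ.filter fun p : V × (Q × Bool) => mv G c δ p.1 p.2 x = some β) ⊆
      ((univ : Finset Bool).image fun i => ((x, (β, i)) : V × (Q × Bool))) ∪
        (U.image fun u => ((u, (c x, true)) : V × (Q × Bool))) := by
    rintro ⟨u, b, i⟩ hp
    obtain ⟨hl, hp⟩ := mv_some (Finset.mem_filter.mp hp).2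
    rw [Finset.mem_union]
    rcases hp with ⟨h1, h2⟩ | ⟨h1, h2, h3, h4⟩
    · left
      simp only at h1 h2
      subst h1
      subst h2
      exact Finset.mem_image.mpr ⟨i, Finset.mem_univ _, rfl⟩
    · right
      simp only at h1 h2 h3 h4
      refine Finset.mem_image.mpr ⟨u, hU2 u (Ne.symm h1) h2 h4, ?_⟩
      rcases hl.2 with h5 | h5
      · exact absurd h5 (Finset.nonempty_iff_ne_empty.mp ⟨x, mem_N.mpr ⟨h2, h3⟩⟩)
      · have h6 : i = true := h5.2
        rw [h6, h3]
  refine (Finset.card_le_card h1).trans ((Finset.card_union_le _ _).trans ?_)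
  have h2 : ((univ : Finset Bool).image fun i => ((x, (β, i)) : V × (Q × Bool))).card ≤ 2 :=
    Finset.card_image_le.trans (by simp)
  have h3 : (U.image fun u => ((u, (c x, true)) : V × (Q × Bool))).card ≤ 2 :=
    Finset.card_image_le.trans hU
  omega

end MOV

theorem MOV_thm : S_MOV := by
  intro V Q _ _ G c hd hc
  by_cases hne : Nonempty Q
  · choose δ hδ hδ2 using fun w => MOV.exists_two (MOV.NU G c w) (MOV.D G c w)
      (MOV.card_NU hd hc w)
    refine ⟨MOV.mv G c δ, ⟨MOV.prp hc hδ, MOV.cnt hδ hδ2, MOV.ini hd hc, MOV.two, ?_, ?_⟩⟩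
    · intro u o x hx
      rcases (MOV.mv_ne hx).2 with h | h
      · exact Or.inl h
      · exact Or.inr (MOV.mem_N.mp h).1
    · intro u o x hx
      exact MOV.mv_self.mpr (MOV.mv_ne hx).1
  · refine ⟨fun _ _ _ => none, ⟨fun u => absurd ⟨c u⟩ hne, fun u => absurd ⟨c u⟩ hne,
      fun u => absurd ⟨c u⟩ hne, fun u => absurd ⟨c u⟩ hne, fun u => absurd ⟨c u⟩ hne,
      fun u => absurd ⟨c u⟩ hne⟩⟩

end Pool.Agent.TCM
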